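import Pool.Agent.Helper15K1.QC.Lat

/-!
# The closure argument over an extension field
-/

set_option autoImplicit false
set_option linter.unusedSectionVars false

namespace Pool.Agent.Helper15K1.QC

open scoped TensorProduct
open Pool.Agent.H826R3.SM Pool.Agent.TH671.DU Pool.Agent.N86.SQ Pool.Agent.N823
open MvPolynomial

section basechange

variable {R k : Type} [CommRing R] [CommRing k]

/-- the ring `k` as an algebra through `χ` -/
def Via (_χ : R →+* k) : Type := k

instance (χ : R →+* k) : CommRing (Via χ) := inferInstanceAs (CommRing k)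

instance (χ : R →+* k) : Algebra R (Via χ) := χ.toAlgebra

/-- base change along a ring homomorphism -/
def BC (χ : R →+* k) (B : Type) [CommRing B] [Algebra R B] : Type := Via χ ⊗[R] B

variable (χ : R →+* k) (B : Type) [CommRing B] [Algebra R B]

noncomputable instance : CommRing (BC χ B) := inferInstanceAs (CommRing (Via χ ⊗[R] B))

noncomputable instance : Algebra k (BC χ B) := inferInstanceAs (Algebra (Via χ) (Via χ ⊗[R] B))

variable {B}

/-- its basis -/
noncomputable def bcBasis {e : ℕ} (b : Module.Basis (Fin (e + 1)) R B) :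
    Module.Basis (Fin (e + 1)) k (BC χ B) :=
  (Algebra.TensorProduct.basis (Via χ) b : Module.Basis (Fin (e + 1)) (Via χ) (Via χ ⊗[R] B))

variable (B) in
/-- the map to the base change -/
noncomputable def bcMap : B →+* BC χ B :=
  (Algebra.TensorProduct.includeRight (R := R) (A := Via χ) (B := B)).toRingHom

theorem comp_bc {e : ℕ} (b : Module.Basis (Fin (e + 1)) R B) :
    Comp χ (bcMap χ B) b (bcBasis χ b) :=
  comp_baseChange (R := R) (S := Via χ) b

end basechange

section expand

variable {k K : Type} [Field k] [Field K] [Algebra k K] {σ : Type}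

/-- the image of a polynomial under a linear form on the coefficients -/
noncomputable def lam (f : K →ₗ[k] k) (Q : MvPolynomial σ K) : MvPolynomial σ k :=
  ∑ m ∈ Q.support, monomial m (f (coeff m Q))

theorem eval_lam (f : K →ₗ[k] k) (Q : MvPolynomial σ K) (u : σ → k) :
    eval u (lam f Q) = f (eval (fun i => algebraMap k K (u i)) Q) := by
  rw [lam, map_sum, eval_eq, map_sum]
  refine Finset.sum_congr rfl fun m _ => ?_
  have h1 : coeff m Q * ∏ i ∈ m.support, algebraMap k K (u i) ^ m i =
      (∏ i ∈ m.support, u i ^ m i) • coeff m Q := by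
    rw [Algebra.smul_def, map_prod, mul_comm]
    congr 1
    refine Finset.prod_congr rfl fun i _ => ?_
    rw [map_pow]
  rw [h1, map_smul, eval_monomial, smul_eq_mul, mul_comm]
  rfl

/-- if all these images vanish at a point, the polynomial does -/
theorem eval_eq_zero_of_lam (Q : MvPolynomial σ K) (y : σ → K)
    (h : ∀ f : K →ₗ[k] k, aeval y (lam f Q) = 0) : eval y Q = 0 := by
  classical
  let b := Module.Basis.ofVectorSpace k K
  let I := Q.support.biUnion fun m => (b.repr (coeff m Q)).support
  have h1 : ∀ m ∈ Q.support, coeff m Q = ∑ i ∈ I, b.repr (coeff m Q) i • b i := by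
    intro m hm
    conv_lhs => rw [← b.linearCombination_repr (coeff m Q), Finsupp.linearCombination_apply]
    refine Finsupp.sum_of_support_subset _ (fun i hi => ?_) _ fun i _ => zero_smul _ _
    exact Finset.mem_biUnion.2 ⟨m, hm, hi⟩
  have h2 : eval y Q = ∑ i ∈ I, b i * aeval y (lam (b.coord i) Q) := by
    have h3 : eval y Q = ∑ m ∈ Q.support, ∑ i ∈ I,
        (b.repr (coeff m Q) i • b i) * ∏ j ∈ m.support, y j ^ m j := by
      rw [eval_eq]
      refine Finset.sum_congr rfl fun m hm => ?_
      rw [← Finset.sum_mul, ← h1 m hm]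
    rw [h3, Finset.sum_comm]
    refine Finset.sum_congr rfl fun i _ => ?_
    rw [lam, map_sum, Finset.mul_sum]
    refine Finset.sum_congr rfl fun m _ => ?_
    rw [aeval_monomial, Module.Basis.coord_apply, Algebra.smul_def, Finsupp.prod]
    ring
  rw [h2]
  refine Finset.sum_eq_zero fun i _ => ?_
  rw [h, mul_zero]

end expand

section family

/-- a family with an extra member -/
def EF (A : Type) {X : Type} (B : X → Type) : Option X → Type
  | none => A
  | some x => B x

variable {k A X : Type} {B : X → Type} [CommRing k] [CommRing A] [∀ x, CommRing (B x)]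
  [Algebra k A] [∀ x, Algebra k (B x)]

noncomputable instance : ∀ y, CommRing (EF A B y)
  | none => inferInstanceAs (CommRing A)
  | some x => inferInstanceAs (CommRing (B x))

noncomputable instance : ∀ y, Algebra k (EF A B y)
  | none => inferInstanceAs (Algebra k A)
  | some x => inferInstanceAs (Algebra k (B x))

/-- the bases -/
noncomputable def efBasis {ι : Type} (c : Module.Basis ι k A) (b : ∀ x, Module.Basis ι k (B x)) :
    ∀ y, Module.Basis ι k (EF A B y)
  | none => c
  | some x => b x

end family

section closure

variable {k K : Type} [Field k] [IsAlgClosed k] [Field K] [IsAlgClosed K] [Algebra k K]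
  {A : Type} [CommRing A] [Algebra K A] {e : ℕ} {c : Module.Basis (Fin (e + 1)) K A}

/-- the subalgebra generated by the structure constants -/
noncomputable def sub (k : Type) {K : Type} [Field k] [Field K] [Algebra k K] {A : Type}
    [CommRing A] [Algebra K A] {e : ℕ} (c : Module.Basis (Fin (e + 1)) K A) : Subalgebra k K :=
  Algebra.adjoin k (Set.range (prm c))

/-- **The closure argument**: the growth rate of a framed algebra over the extension field is at
most the supremum of the growth rates of its specializations to the ground field. -/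
theorem closure_ext (hc : IsFrame c) (S : Subalgebra k K) (hFG : S.FG) (hS : ∀ i, prm c i ∈ S)
    {x : ℝ} (hx : ∀ χ : S →ₐ[k] k, rate k (BC χ.toRingHom (lat S c hc.1 hS)) ≤ x) :
    rate K A ≤ x := by
  have hloc := hc.isLocalRing
  have hfin := finite_of_basis c
  let X := S →ₐ[k] k
  let B : X → Type := fun χ => K ⊗[k] BC χ.toRingHom (lat S c hc.1 hS)
  let b0 : ∀ χ : X, Module.Basis (Fin (e + 1)) k (BC χ.toRingHom (lat S c hc.1 hS)) := fun χ =>
    bcBasis χ.toRingHom (latBasis S c hc.1 hS)
  let b : ∀ χ : X, Module.Basis (Fin (e + 1)) K (B χ) := fun χ =>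
    Algebra.TensorProduct.basis K (b0 χ)
  have hprm : ∀ (χ : X) (i : PIdx (e + 1)),
      prm (b χ) i = algebraMap k K (χ (prm (latBasis S c hc.1 hS) i)) := by
    intro χ i
    rw [(comp_baseChange (S := K) (b0 χ)).prm i, (comp_bc χ.toRingHom _).prm i]
    rfl
  have hprm0 : ∀ i, ((prm (latBasis S c hc.1 hS) i : S) : K) = prm c i := fun i =>
    ((comp_lat hc.1 hS).prm i).symm
  have hloc' : IsLocalRing (EF A B none) := hloc
  refine closure_rate (k := K) (d := e + 1) (Y := Option X) (E := EF A B)
    (efBasis c b) none (ZI := X) some (x := x) ?_ ?_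
  · intro Q hQ
    change eval (prm c) Q = 0
    refine eval_eq_zero_of_lam (k := k) Q (prm c) fun f => ?_
    have h1 : aeval (prm (latBasis S c hc.1 hS)) (lam f Q) = (0 : S) := by
      by_contra hne
      obtain ⟨χ, hχ⟩ := exists_point S hFG _ hne
      apply hχ
      have h2 : χ (aeval (prm (latBasis S c hc.1 hS)) (lam f Q)) =
          eval (fun i => χ (prm (latBasis S c hc.1 hS) i)) (lam f Q) := by
        rw [MvPolynomial.comp_aeval_apply]
        rfl
      rw [h2, eval_lam]
      have h3 : (fun i => algebraMap k K (χ (prm (latBasis S c hc.1 hS) i))) = prm (b χ) := by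
        funext i
        exact (hprm χ i).symm
      rw [h3]
      have h4 : eval (prm (b χ)) Q = 0 := hQ χ
      rw [h4, map_zero]
    have h5 : S.val (aeval (prm (latBasis S c hc.1 hS)) (lam f Q)) = 0 := by
      rw [h1]
      exact map_zero S.val
    rw [MvPolynomial.comp_aeval_apply] at h5
    rw [← h5]
    congr 2
    funext i
    exact (hprm0 i).symm
  · intro χ
    refine le_trans ?_ (hx χ)
    have : IsFrame (b0 χ) := (isFrame_lat hc.1 hS hc).map (comp_bc χ.toRingHom _)
    have h1 := this.isLocalRing
    have h2 := finite_of_basis (b0 χ)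
    exact rate_baseChange_le k K (BC χ.toRingHom (lat S c hc.1 hS))

end closure

end Pool.Agent.Helper15K1.QC
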