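import Pool.Agent.Helper15K1.QC.Stmt

/-!
# Closed sets of characteristics
-/

set_option autoImplicit false
set_option linter.unusedSectionVars false

namespace Pool.Agent.Helper15K1.QC

/-- the sets `P ∪ {p ≥ i}` (if `0 ∈ P`) converge to `P` -/
theorem closed_nbhd (P : ℕ → Prop) (hP : {p | P p}.Infinite → P 0) :
    Closed (fun i p => P p ∨ (P 0 ∧ i ≤ p)) P := by
  refine ⟨fun i j p hij h => h.imp id fun h => ⟨h.1, hij.trans h.2⟩, fun K _ hK L _ π hπ => ?_⟩
  by_cases h0 : P 0
  · by_cases hL0 : ringChar L = 0
    · rw [hL0]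
      exact h0
    obtain ⟨i, hi, hz⟩ := hπ.zero Unit (fun _ => ((ringChar L : ℕ) : ∀ i, K i)) (fun _ => by
      rw [map_natCast]
      exact ringChar.Nat.cast_ringChar) (ringChar L + 1)
    have h1 := hz ()
    rw [Pi.natCast_apply] at h1
    have h2 := (ringChar.spec (K i) (ringChar L)).1 h1
    have h4 := Nat.le_of_dvd (Nat.pos_of_ne_zero hL0) h2
    have hPi : P (ringChar (K i)) := by
      rcases hK i with h3 | h3
      · exact h3
      · omega
    have hpL : (ringChar L).Prime := by
      rcases CharP.char_is_prime_or_zero L (ringChar L) with h3 | h3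
      · exact h3
      · exact absurd h3 hL0
    rcases (Nat.dvd_prime hpL).1 h2 with h5 | h5
    · exfalso
      rcases CharP.char_is_prime_or_zero (K i) (ringChar (K i)) with h6 | h6
      · rw [h5] at h6
        exact Nat.not_prime_one h6
      · omega
    · rw [h5] at hPi
      exact hPi
  · refine hπ.char_mem P hP fun i => ?_
    rcases hK i with h3 | h3
    · exact h3
    · exact absurd h3.1 h0

end Pool.Agent.Helper15K1.QC
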