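import Pool.Agent.Helper15K1.QC.Clo

/-!
# The growth rate over all extension fields is governed by finitely many polynomials
-/

set_option autoImplicit false
set_option linter.unusedSectionVars false

namespace Pool.Agent.Helper15K1.QC

open scoped TensorProduct
open Pool.Agent.H826R3.SM Pool.Agent.TH671.DU Pool.Agent.N86.SQ Pool.Agent.N823
open MvPolynomial

section

variable {k : Type} [Field k] [IsAlgClosed k]

/-- a gap above every real number -/
theorem exists_gap (d : ℕ) (x : ℝ) : ∃ η : ℝ, 0 < η ∧ ∀ r ∈ growthRates k d, r < x + η → r ≤ x := by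
  have hwf : ({r ∈ growthRates k d | x < r}).IsWF :=
    (growthRates_isWF (k := k) d).mono (Set.sep_subset _ _)
  by_cases hne : ({r ∈ growthRates k d | x < r}).Nonempty
  · refine ⟨hwf.min hne - x, ?_, fun r hr hrd => ?_⟩
    · have := (hwf.min_mem hne).2
      linarith
    · by_contra hcon
      push Not at hcon
      have h1 := hwf.min_le hne (a := r) ⟨hr, hcon⟩
      linarith
  · refine ⟨1, one_pos, fun r hr _ => ?_⟩
    by_contra hcon
    push Not at hcon
    exact hne ⟨r, hr, hcon⟩

/-- the structure constants of the framed algebras with growth rate at most `x` -/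
def locus (k : Type) [Field k] (e : ℕ) (x : ℝ) : Set (PIdx (e + 1) → k) :=
  {y | ∃ (E : Type) (_ : CommRing E) (_ : Algebra k E) (c : Module.Basis (Fin (e + 1)) k E),
    IsFrame c ∧ rate k E ≤ x ∧ prm c = y}

/-- polynomials which cut out this locus -/
theorem exists_equations (e : ℕ) (x : ℝ) : ∃ F : Finset (MvPolynomial (PIdx (e + 1)) k),
    (∀ Q ∈ F, ∀ y ∈ locus k e x, eval y Q = 0) ∧
    ∀ (E : Type) [CommRing E] [Algebra k E] (c : Module.Basis (Fin (e + 1)) k E), IsFrame c →
      (∀ Q ∈ F, eval (prm c) Q = 0) → rate k E ≤ x := by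
  classical
  let I : Ideal (MvPolynomial (PIdx (e + 1)) k) := ⨅ y : locus k e x, RingHom.ker (eval y.1)
  have hI : ∀ Q, Q ∈ I ↔ ∀ y ∈ locus k e x, eval y Q = 0 := by
    intro Q
    change Q ∈ (⨅ y : locus k e x, RingHom.ker (eval y.1)) ↔ _
    rw [Ideal.mem_iInf]
    exact ⟨fun h y hy => h ⟨y, hy⟩, fun h y => h y.1 y.2⟩
  obtain ⟨F, hF⟩ : I.FG := IsNoetherian.noetherian I
  refine ⟨F, fun Q hQ y hy => (hI Q).1 (hF ▸ Submodule.subset_span hQ) y hy, ?_⟩
  intro E _ _ c hc hv
  have hloc := hc.isLocalRing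
  have hv' : ∀ Q ∈ I, eval (prm c) Q = 0 := by
    intro Q hQ
    have h1 : I ≤ RingHom.ker (eval (prm c)) := by
      rw [← hF, Submodule.span_le]
      exact fun Q hQ => hv Q hQ
    exact h1 hQ
  -- choose representatives
  have hch : ∀ y : locus k e x, ∃ (E : Type) (_ : CommRing E) (_ : Algebra k E)
    (c : Module.Basis (Fin (e + 1)) k E), IsFrame c ∧ rate k E ≤ x ∧ prm c = y.1 := fun y => y.2
  choose B cB aB b hb hrb hpb using hch
  let _ : ∀ y, CommRing (B y) := cB
  let _ : ∀ y, Algebra k (B y) := aB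
  have hloc' : IsLocalRing (EF E B none) := hloc
  refine closure_rate (k := k) (d := e + 1) (Y := Option (locus k e x)) (E := EF E B)
    (efBasis c b) none (ZI := locus k e x) some (x := x) ?_ ?_
  · intro Q hQ
    refine hv' Q ((hI Q).2 fun y hy => ?_)
    have h1 := hQ ⟨y, hy⟩
    have h2 : par (efBasis c b (some ⟨y, hy⟩)) = y := hpb ⟨y, hy⟩
    rwa [h2] at h1
  · intro y
    exact hrb y

end

section

variable {k K : Type} [Field k] [IsAlgClosed k] [Field K] [IsAlgClosed K] [Algebra k K]
  {A : Type} [CommRing A] [Algebra K A] {e : ℕ} {c : Module.Basis (Fin (e + 1)) K A}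

theorem exists_fg_sub (c : Module.Basis (Fin (e + 1)) K A) (T : Set K) (hT : T.Finite) :
    ∃ S : Subalgebra k K, S.FG ∧ (∀ i, prm c i ∈ S) ∧ T ⊆ S := by
  refine ⟨Algebra.adjoin k (Set.range (prm c) ∪ T), ?_, ?_, ?_⟩
  · have h1 : (Set.range (prm c) ∪ T).Finite := (Set.finite_range _).union hT
    exact ⟨h1.toFinset, by rw [Set.Finite.coe_toFinset]⟩
  · exact fun i => Algebra.subset_adjoin (Or.inl ⟨i, rfl⟩)
  · exact fun t ht => Algebra.subset_adjoin (Or.inr ht)

/-- specializations of solutions -/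
theorem std_specialize (hc : IsFrame c) {n W : ℕ} (h : Std c n W)
    (y : MvPolynomial (PIdx (e + 1)) k) (hy : aeval (prm c) y ≠ 0) :
    ∃ (E : Type) (_ : CommRing E) (_ : Algebra k E) (c' : Module.Basis (Fin (e + 1)) k E),
      IsFrame c' ∧ Std c' n W ∧ eval (prm c') y ≠ 0 := by
  classical
  obtain ⟨p, q, hpq⟩ := (std_iff c n W).1 h
  let T : Set K := (Set.range fun z : Fin W × (Fin n × Fin e) => p z.1 z.2) ∪
    Set.range fun z : (Fin n → Fin (e + 1)) × Fin ((e + 1) * n + 1) × Fin W => q z.1 z.2.1 z.2.2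
  have hT : T.Finite := (Set.finite_range _).union (Set.finite_range _)
  obtain ⟨S, hFG, hS, hTS⟩ := exists_fg_sub (k := k) c T hT
  let b := latBasis S c hc.1 hS
  have hprm0 : ∀ i, ((prm b i : S) : K) = prm c i := fun i => ((comp_lat hc.1 hS).prm i).symm
  have hne : (aeval (prm b) y : S) ≠ 0 := by
    intro h0
    apply hy
    have h5 : S.val (aeval (prm b) y) = 0 := by
      rw [h0]
      exact map_zero S.val
    rw [MvPolynomial.comp_aeval_apply] at h5
    rw [← h5]
    congr 2
    funext i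
    exact (hprm0 i).symm
  obtain ⟨χ, hχ⟩ := exists_point S hFG _ hne
  refine ⟨BC χ.toRingHom (lat S c hc.1 hS), inferInstance, inferInstance, bcBasis χ.toRingHom b,
    (isFrame_lat hc.1 hS hc).map (comp_bc χ.toRingHom _), ?_, ?_⟩
  · rw [std_iff]
    have h1 : IsSol (gam b) n ((e + 1) * n) W
        (fun w v => ⟨p w v, hTS (Or.inl ⟨(w, v), rfl⟩)⟩)
        (fun J E w => ⟨q J E w, hTS (Or.inr ⟨(J, E, w), rfl⟩)⟩) := by
      refine IsSol.of_injective S.val.toRingHom Subtype.val_injective ?_
      have h2 : (fun t l => S.val.toRingHom (gam b t l)) = gam c := by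
        funext t l
        exact ((comp_lat hc.1 hS).gam t l).symm
      rw [h2]
      exact hpq
    have h3 := h1.map χ.toRingHom
    have h4 : (fun t l => χ.toRingHom (gam b t l)) = gam (bcBasis χ.toRingHom b) := by
      funext t l
      exact ((comp_bc χ.toRingHom b).gam t l).symm
    rw [h4] at h3
    exact ⟨_, _, h3⟩
  · intro h0
    apply hχ
    rw [MvPolynomial.comp_aeval_apply]
    have h1 : (fun i => χ (prm b i)) = prm (bcBasis χ.toRingHom b) := by
      funext i
      exact ((comp_bc χ.toRingHom b).prm i).symm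
    rw [h1]
    exact h0

/-- the equations hold below the gap -/
theorem equations_of_lt {e : ℕ} {x : ℝ} {F : Finset (MvPolynomial (PIdx (e + 1)) k)}
    (hF1 : ∀ Q ∈ F, ∀ y ∈ locus k e x, eval y Q = 0) {η : ℝ}
    (hgap : ∀ r ∈ growthRates k (e + 1), r < x + η → r ≤ x)
    {c : Module.Basis (Fin (e + 1)) K A} (hc : IsFrame c) (hr : rate K A < x + η) :
    ∀ Q ∈ F, aeval (prm c) Q = 0 := by
  have hloc := hc.isLocalRing
  have hfin := finite_of_basis c
  intro Q hQ
  by_contra hne
  set η' : ℝ := (x + η - rate K A) / 2 with hη'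
  have hη0 : 0 < η' := by linarith
  obtain ⟨C, hC, hG⟩ := std_growth hc η' hη0
  have hr1 := one_le_rate (k := K) A
  -- a large power
  obtain ⟨n, hn⟩ : ∃ n : ℕ, C * (rate K A + η') ^ n * ((e + 1 : ℕ) * n + 2) < (x + η) ^ n := by
    by_contra hcon
    push Not at hcon
    have := poly_bound (x := rate K A + η') (y := x + η) (C := C) (by linarith) hC (e + 1)
      (by linarith) hcon
    linarith
  obtain ⟨W, hW, hS⟩ := hG n
  obtain ⟨E, _, _, c', hc', hS', hQ'⟩ := std_specialize hc hS Q hne
  have hloc' := hc'.isLocalRing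
  have hfin' := finite_of_basis c'
  have h1 := mdeg_of_std hc' hS'
  have h2 : rate k E ^ n < (x + η) ^ n := by
    refine lt_of_le_of_lt ?_ hn
    refine (rate_pow_le E n).trans ?_
    have h5 : ((mdeg k (Pow k E n) : ℕ) : ℝ) ≤ ((W * ((e + 1) * n + 2) : ℕ) : ℝ) := by
      exact_mod_cast h1
    refine h5.trans ?_
    push_cast
    exact mul_le_mul_of_nonneg_right hW (by positivity)
  have h3 : rate k E < x + η := lt_of_pow_lt_pow_left₀ n (by linarith) h2
  have h4 : rate k E ≤ x := hgap _ ⟨E, inferInstance, inferInstance, inferInstance,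
    inferInstance, finrank_of_basis c', rfl⟩ h3
  exact hQ' (hF1 Q hQ _ ⟨E, _, _, c', hc', h4, rfl⟩)

/-- **The equations are valid over all extension fields.** -/
theorem rate_le_iff_equations (e : ℕ) (x : ℝ) (F : Finset (MvPolynomial (PIdx (e + 1)) k))
    (hF1 : ∀ Q ∈ F, ∀ y ∈ locus k e x, eval y Q = 0)
    (hF2 : ∀ (E : Type) [CommRing E] [Algebra k E] (c : Module.Basis (Fin (e + 1)) k E),
      IsFrame c → (∀ Q ∈ F, eval (prm c) Q = 0) → rate k E ≤ x)
    {c : Module.Basis (Fin (e + 1)) K A} (hc : IsFrame c) :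
    rate K A ≤ x ↔ ∀ Q ∈ F, aeval (prm c) Q = 0 := by
  constructor
  · intro hr
    obtain ⟨η, hη, hgap⟩ := exists_gap (k := k) (e + 1) x
    exact equations_of_lt hF1 hgap hc (by linarith)
  · intro hv
    obtain ⟨S, hFG, hS, -⟩ := exists_fg_sub (k := k) c ∅ Set.finite_empty
    refine closure_ext hc S hFG hS fun χ => ?_
    let b := latBasis S c hc.1 hS
    have hprm0 : ∀ i, ((prm b i : S) : K) = prm c i := fun i => ((comp_lat hc.1 hS).prm i).symm
    refine hF2 _ (bcBasis χ.toRingHom b) ((isFrame_lat hc.1 hS hc).map (comp_bc χ.toRingHom _))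
      fun Q hQ => ?_
    have h0 : (aeval (prm b) Q : S) = 0 := by
      apply Subtype.val_injective
      change S.val (aeval (prm b) Q) = 0
      rw [MvPolynomial.comp_aeval_apply, ← hv Q hQ]
      congr 2
      funext i
      exact hprm0 i
    have h1 : prm (bcBasis χ.toRingHom b) = fun i => χ (prm b i) := by
      funext i
      exact (comp_bc χ.toRingHom b).prm i
    rw [h1]
    have h2 : χ (aeval (prm b) Q) = 0 := by
      rw [h0]
      exact map_zero χ
    rw [MvPolynomial.comp_aeval_apply] at h2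
    exact h2

/-- **A gap over the ground field is a gap over all extension fields.** -/
theorem gap_extend {x η : ℝ} (hgap : ∀ r ∈ growthRates k (e + 1), r < x + η → r ≤ x)
    (hc : IsFrame c) (hr : rate K A < x + η) : rate K A ≤ x := by
  obtain ⟨F, hF1, hF2⟩ := exists_equations (k := k) e x
  exact (rate_le_iff_equations e x F hF1 hF2 hc).2 (equations_of_lt hF1 hgap hc hr)

/-- **Suprema of growth rates over the ground field bound those over extension fields.** -/
theorem sup_extend {x : ℝ} (h : ∀ (E : Type) [CommRing E] [Algebra k E]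
    (c : Module.Basis (Fin (e + 1)) k E), IsFrame c → rate k E ≤ x) (hc : IsFrame c) :
    rate K A ≤ x := by
  obtain ⟨S, hFG, hS, -⟩ := exists_fg_sub (k := k) c ∅ Set.finite_empty
  refine closure_ext hc S hFG hS fun χ => ?_
  exact h _ (bcBasis χ.toRingHom (latBasis S c hc.1 hS))
    ((isFrame_lat hc.1 hS hc).map (comp_bc χ.toRingHom _))

end

end Pool.Agent.Helper15K1.QC
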