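import Pool.Agent.N823.LineGap

/-!
# Framed local algebras
-/

set_option autoImplicit false
set_option linter.unusedSectionVars false

namespace Pool.Agent.Helper15K1.QC

open scoped TensorProduct
open Pool.Agent.H826R3.SM Pool.Agent.TH671.DU Pool.Agent.N86.SQ Pool.Agent.N823
open MvPolynomial

/-- The basis `c` of the `R`-algebra `A` consists of the unit and of elements which generate a
nilpotent ideal. -/
def IsFrame {R A : Type} [CommRing R] [CommRing A] [Algebra R A] {e : ℕ}
    (c : Module.Basis (Fin (e + 1)) R A) : Prop :=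
  c 0 = 1 ∧ Ideal.span (Set.range fun j : Fin e => c j.succ) ^ (e + 1) = ⊥

section

variable {R S A B : Type} [CommRing R] [CommRing S] [CommRing A] [Algebra R A] [CommRing B]
  [Algebra S B] {e : ℕ} {c : Module.Basis (Fin (e + 1)) R A} {c' : Module.Basis (Fin (e + 1)) S B}

theorem IsFrame.adjoin (h : IsFrame c) :
    Algebra.adjoin R (Set.range fun j : Fin e => c j.succ) = ⊤ := by
  rw [eq_top_iff]
  rintro x -
  rw [← c.sum_repr x]
  refine Subalgebra.sum_mem _ fun j _ => Subalgebra.smul_mem _ ?_ _
  refine Fin.cases ?_ (fun j => ?_) j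
  · rw [h.1]
    exact Subalgebra.one_mem _
  · exact Algebra.subset_adjoin ⟨j, rfl⟩

/-- The ring homomorphism `g : A → B` over `φ : R → S` respects the bases. -/
structure Comp (φ : R →+* S) (g : A →+* B) (c : Module.Basis (Fin (e + 1)) R A)
    (c' : Module.Basis (Fin (e + 1)) S B) : Prop where
  alg : ∀ r, g (algebraMap R A r) = algebraMap S B (φ r)
  bas : ∀ j, g (c j) = c' j

variable {φ : R →+* S} {g : A →+* B}

theorem Comp.repr (h : Comp φ g c c') (x : A) (j : Fin (e + 1)) :
    c'.repr (g x) j = φ (c.repr x j) := by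
  have h1 : g x = ∑ i, φ (c.repr x i) • c' i := by
    conv_lhs => rw [← c.sum_repr x, map_sum]
    refine Finset.sum_congr rfl fun i _ => ?_
    rw [Algebra.smul_def, map_mul, h.alg, h.bas, ← Algebra.smul_def]
  rw [h1, map_sum, Finsupp.finsetSum_apply, Finset.sum_eq_single j]
  · rw [map_smul, Finsupp.smul_apply, Module.Basis.repr_self, Finsupp.single_eq_same, smul_eq_mul,
      mul_one]
  · intro i _ hi
    rw [map_smul, Finsupp.smul_apply, Module.Basis.repr_self, Finsupp.single_eq_of_ne hi.symm,
      smul_zero]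
  · intro h
    exact absurd (Finset.mem_univ _) h

/-- frames are stable under these maps -/
theorem IsFrame.map (hf : IsFrame c) (h : Comp φ g c c') : IsFrame c' := by
  refine ⟨by rw [← h.bas, hf.1, map_one], ?_⟩
  have h1 : Ideal.span (Set.range fun j : Fin e => c' j.succ) =
      (Ideal.span (Set.range fun j : Fin e => c j.succ)).map g := by
    rw [Ideal.map_span, ← Set.range_comp]
    congr 2
    funext j
    exact (h.bas _).symm
  rw [h1, ← Ideal.map_pow, hf.2, Ideal.map_bot]

/-- the coordinates of the monomials in the elements of the frame -/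
noncomputable def gam (c : Module.Basis (Fin (e + 1)) R A) (t : Fin e → ℕ) (l : Fin (e + 1)) : R :=
  c.repr (∏ j, c j.succ ^ t j) l

theorem Comp.gam (h : Comp φ g c c') (t : Fin e → ℕ) (l : Fin (e + 1)) :
    gam c' t l = φ (gam c t l) := by
  unfold QC.gam
  rw [← h.repr]
  congr 2
  rw [map_prod]
  refine Finset.prod_congr rfl fun j _ => ?_
  rw [map_pow, h.bas]

/-- the structure constants and the coordinates of the unit -/
noncomputable def prm (c : Module.Basis (Fin (e + 1)) R A) : PIdx (e + 1) → R :=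
  Sum.elim (fun z => c.repr (c z.1 * c z.2.1) z.2.2) (fun i => c.repr 1 i)

theorem Comp.prm (h : Comp φ g c c') (i : PIdx (e + 1)) : prm c' i = φ (prm c i) := by
  rcases i with z | i
  · change c'.repr (c' z.1 * c' z.2.1) z.2.2 = φ (c.repr (c z.1 * c z.2.1) z.2.2)
    rw [← h.repr, map_mul g, h.bas, h.bas]
  · change c'.repr 1 i = φ (c.repr 1 i)
    rw [← h.repr, map_one g]

end

theorem prm_eq_par {k A : Type} [Field k] [CommRing A] [Algebra k A] {e : ℕ}
    (c : Module.Basis (Fin (e + 1)) k A) : prm c = par c := rfl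

section field

variable {k A : Type} [Field k] [CommRing A] [Algebra k A] {e : ℕ}
  {c : Module.Basis (Fin (e + 1)) k A}

theorem IsFrame.exists_sub (h : IsFrame c) (x : A) :
    ∃ r : k, x - algebraMap k A r ∈ Ideal.span (Set.range fun j : Fin e => c j.succ) := by
  refine ⟨c.repr x 0, ?_⟩
  have h1 : x - algebraMap k A (c.repr x 0) = ∑ j : Fin e, c.repr x j.succ • c j.succ := by
    have h2 := c.sum_repr x
    rw [Fin.sum_univ_succ, h.1, ← Algebra.algebraMap_eq_smul_one] at h2
    rw [sub_eq_iff_eq_add', h2]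
  rw [h1]
  refine Ideal.sum_mem _ fun j _ => ?_
  rw [Algebra.smul_def]
  exact Ideal.mul_mem_left _ _ (Ideal.subset_span ⟨j, rfl⟩)

theorem IsFrame.isLocalRing (h : IsFrame c) : IsLocalRing A := by
  have hnt : Nontrivial A := by
    refine ⟨⟨c 0, 0, c.ne_zero 0⟩⟩
  refine IsLocalRing.of_isUnit_or_isUnit_one_sub_self fun x => ?_
  obtain ⟨r, hr⟩ := h.exists_sub x
  have hn : IsNilpotent (x - algebraMap k A r) := ⟨e + 1, by
    have := Ideal.pow_mem_pow hr (e + 1)
    rw [h.2] at this
    exact this⟩
  by_cases h0 : r = 0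
  · right
    rw [h0, map_zero, sub_zero] at hn
    exact hn.isUnit_one_sub
  · left
    have h1 : IsUnit (algebraMap k A r) := (Ne.isUnit h0).map _
    have h2 := hn.isUnit_add_right_of_commute h1 (Commute.all _ _)
    rwa [sub_add_cancel] at h2

theorem finite_of_basis (c : Module.Basis (Fin (e + 1)) k A) : Module.Finite k A :=
  Module.Finite.of_basis c

theorem finrank_of_basis (c : Module.Basis (Fin (e + 1)) k A) : Module.finrank k A = e + 1 := by
  rw [Module.finrank_eq_card_basis c, Fintype.card_fin]

/-- a frame given by nilpotent elements -/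
theorem isFrame_of_nilpotent [IsAlgClosed k] [IsLocalRing A] (h0 : c 0 = 1)
    (h : ∀ j : Fin e, IsNilpotent (c j.succ)) : IsFrame c := by
  have := finite_of_basis c
  refine ⟨h0, ?_⟩
  rw [eq_bot_iff, ← maximalIdeal_pow_finrank (k := k) A, finrank_of_basis c]
  refine Ideal.pow_right_mono ?_ _
  rw [Ideal.span_le]
  rintro _ ⟨j, rfl⟩
  rw [SetLike.mem_coe, IsLocalRing.mem_maximalIdeal, mem_nonunits_iff]
  intro hu
  obtain ⟨m, hm⟩ := h j
  have h3 := hu.pow m
  rw [hm] at h3
  exact not_isUnit_zero h3

/-- local algebras have frames -/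
theorem exists_frame [IsAlgClosed k] [Module.Finite k A] [IsLocalRing A]
    (hd : Module.finrank k A = e + 1) : ∃ c : Module.Basis (Fin (e + 1)) k A, IsFrame c := by
  set M : Ideal A := IsLocalRing.maximalIdeal A with hM
  have hMmax : M.IsMaximal := IsLocalRing.maximalIdeal.isMaximal A
  let _ : Field (A ⧸ M) := Ideal.Quotient.field M
  have hbij : Function.Bijective (algebraMap k (A ⧸ M)) :=
    IsAlgClosed.algebraMap_bijective_of_isIntegral
  let W : Submodule k A := M.restrictScalars k
  have hsp : ∀ z : A, ∃ r : k, z + r • (1 : A) ∈ W := by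
    intro z
    obtain ⟨r, hr⟩ := hbij.2 (Ideal.Quotient.mk M z)
    refine ⟨-r, ?_⟩
    change z + (-r) • (1 : A) ∈ M
    rw [← Ideal.Quotient.eq_zero_iff_mem, map_add, ← hr, neg_smul, ← Algebra.algebraMap_eq_smul_one,
      map_neg]
    exact add_neg_cancel _
  have hli : ∀ (r : k) (x : A), x ∈ W → r • (1 : A) + x = 0 → r = 0 := by
    intro r x hx h
    by_contra hr
    have h1 : r • (1 : A) ∈ M := by
      have : r • (1 : A) = -x := eq_neg_of_add_eq_zero_left h
      rw [this]
      exact M.neg_mem hx
    have h2 : (1 : A) ∈ M := by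
      have := M.mul_mem_left (algebraMap k A r⁻¹) h1
      rw [← Algebra.algebraMap_eq_smul_one, ← map_mul, inv_mul_cancel₀ hr, map_one] at this
      exact this
    exact hMmax.ne_top ((Ideal.eq_top_iff_one _).2 h2)
  let b0 := Module.finBasis k W
  let c0 : Module.Basis (Fin (Module.finrank k W + 1)) k A := Module.Basis.mkFinCons 1 b0 hli hsp
  have hW : Module.finrank k W = e := by
    have h1 := Module.finrank_eq_card_basis c0
    rw [Fintype.card_fin, hd] at h1
    omega
  have hc0 : c0 0 = 1 := by
    simp [c0]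
  have hc1 : ∀ j : Fin (Module.finrank k W), c0 j.succ = b0 j := by
    intro j
    simp [c0]
  clear_value c0
  subst hW
  refine ⟨c0, isFrame_of_nilpotent hc0 fun j => ?_⟩
  rw [hc1]
  have h1 : (b0 j : A) ∈ M := (b0 j).2
  refine ⟨Module.finrank k A, ?_⟩
  have h2 := Ideal.pow_mem_pow h1 (Module.finrank k A)
  rw [hM, maximalIdeal_pow_finrank (k := k) A] at h2
  exact h2

end field

end Pool.Agent.Helper15K1.QC
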