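import Pool.Agent.Helper15K1.QC.Pt

/-!
# Models of framed algebras over subrings, and the closure argument
-/

set_option autoImplicit false
set_option linter.unusedSectionVars false

namespace Pool.Agent.Helper15K1.QC

open scoped TensorProduct
open Pool.Agent.H826R3.SM Pool.Agent.TH671.DU Pool.Agent.N86.SQ Pool.Agent.N823
open MvPolynomial

section lattice

variable {k K : Type} [Field k] [Field K] [Algebra k K] {A : Type} [CommRing A] [Algebra K A]
  {e : ℕ} {c : Module.Basis (Fin (e + 1)) K A}

/-- the elements of `A` with coordinates in `S` -/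
def lat (S : Subalgebra k K) (c : Module.Basis (Fin (e + 1)) K A) (h0 : c 0 = 1)
    (hS : ∀ i, prm c i ∈ S) : Subalgebra S A where
  carrier := {x | ∀ l, c.repr x l ∈ S}
  mul_mem' := by
    intro x y hx hy l
    have h1 : x * y = ∑ i, ∑ j, (c.repr x i * c.repr y j) • (c i * c j) := by
      conv_lhs => rw [← c.sum_repr x, ← c.sum_repr y, Finset.sum_mul_sum]
      refine Finset.sum_congr rfl fun i _ => Finset.sum_congr rfl fun j _ => ?_
      rw [smul_mul_smul_comm]
    rw [h1, map_sum, Finsupp.finsetSum_apply]
    refine Subalgebra.sum_mem _ fun i _ => ?_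
    rw [map_sum, Finsupp.finsetSum_apply]
    refine Subalgebra.sum_mem _ fun j _ => ?_
    rw [map_smul, Finsupp.smul_apply, smul_eq_mul]
    exact S.mul_mem (S.mul_mem (hx i) (hy j)) (hS (Sum.inl (i, j, l)))
  add_mem' := by
    intro x y hx hy l
    rw [map_add, Finsupp.add_apply]
    exact S.add_mem (hx l) (hy l)
  algebraMap_mem' := by
    intro r l
    have h1 : algebraMap S A r = (r : K) • c 0 := by
      rw [h0, ← Algebra.algebraMap_eq_smul_one]
      rfl
    rw [h1, map_smul, Finsupp.smul_apply, Module.Basis.repr_self, smul_eq_mul]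
    refine S.mul_mem r.2 ?_
    rw [Finsupp.single_apply]
    split_ifs
    · exact S.one_mem
    · exact S.zero_mem

variable {S : Subalgebra k K} (h0 : c 0 = 1) (hS : ∀ i, prm c i ∈ S)

/-- its basis -/
noncomputable def latBasis (S : Subalgebra k K) (c : Module.Basis (Fin (e + 1)) K A)
    (h0 : c 0 = 1) (hS : ∀ i, prm c i ∈ S) :
    Module.Basis (Fin (e + 1)) S (lat S c h0 hS) :=
  Module.Basis.ofEquivFun
    { toFun := fun x l => ⟨c.repr (x : A) l, x.2 l⟩
      invFun := fun v => ⟨∑ l, (v l : K) • c l, fun l => by
        rw [map_sum, Finsupp.finsetSum_apply]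
        refine Subalgebra.sum_mem _ fun j _ => ?_
        rw [map_smul, Finsupp.smul_apply, Module.Basis.repr_self, smul_eq_mul]
        refine S.mul_mem (v j).2 ?_
        rw [Finsupp.single_apply]
        split_ifs
        · exact S.one_mem
        · exact S.zero_mem⟩
      map_add' := fun x y => by
        funext l
        apply Subtype.ext
        change c.repr ((x : A) + y) l = c.repr (x : A) l + c.repr (y : A) l
        rw [map_add, Finsupp.add_apply]
      map_smul' := fun r x => by
        funext l
        apply Subtype.ext
        change c.repr ((r : K) • (x : A)) l = (r : K) * c.repr (x : A) l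
        rw [map_smul, Finsupp.smul_apply, smul_eq_mul]
      left_inv := fun x => by
        apply Subtype.ext
        exact c.sum_repr (x : A)
      right_inv := fun v => by
        funext l
        apply Subtype.ext
        change c.repr (∑ j, (v j : K) • c j) l = v l
        rw [map_sum, Finsupp.finsetSum_apply, Finset.sum_eq_single l]
        · rw [map_smul, Finsupp.smul_apply, Module.Basis.repr_self, Finsupp.single_eq_same,
            smul_eq_mul, mul_one]
        · intro j _ hj
          rw [map_smul, Finsupp.smul_apply, Module.Basis.repr_self,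
            Finsupp.single_eq_of_ne hj.symm, smul_zero]
        · intro h
          exact absurd (Finset.mem_univ _) h }

theorem latBasis_apply (j : Fin (e + 1)) : (latBasis S c h0 hS j : A) = c j := by
  classical
  unfold latBasis
  rw [Module.Basis.coe_ofEquivFun]
  change ∑ l, ((Pi.single j (1 : S) : Fin (e + 1) → S) l : K) • c l = c j
  rw [Finset.sum_eq_single j]
  · rw [Pi.single_eq_same]
    exact one_smul _ _
  · intro l _ hl
    rw [Pi.single_eq_of_ne hl]
    exact zero_smul _ _
  · intro h
    exact absurd (Finset.mem_univ _) h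

theorem comp_lat : Comp (S.val.toRingHom) (lat S c h0 hS).val.toRingHom (latBasis S c h0 hS) c := by
  refine ⟨fun r => rfl, fun j => ?_⟩
  exact latBasis_apply h0 hS j

theorem isFrame_lat (hc : IsFrame c) : IsFrame (latBasis S c h0 hS) := by
  refine ⟨Subtype.ext ?_, ?_⟩
  · rw [latBasis_apply, h0]
    rfl
  · have h1 : (Ideal.span (Set.range fun j : Fin e => latBasis S c h0 hS j.succ)).map
        (lat S c h0 hS).val.toRingHom ≤ Ideal.span (Set.range fun j : Fin e => c j.succ) := by
      rw [Ideal.map_span, Ideal.span_le]
      rintro _ ⟨_, ⟨j, rfl⟩, rfl⟩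
      refine Ideal.subset_span ⟨j, ?_⟩
      exact (latBasis_apply h0 hS _).symm
    rw [eq_bot_iff]
    intro x hx
    have h2 := Ideal.mem_map_of_mem (lat S c h0 hS).val.toRingHom hx
    rw [Ideal.map_pow] at h2
    have h3 := Ideal.pow_right_mono h1 (e + 1) h2
    rw [hc.2, Ideal.mem_bot] at h3
    rw [Ideal.mem_bot]
    exact Subtype.ext h3

end lattice

end Pool.Agent.Helper15K1.QC
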