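import Pool.Agent.Helper15K1.QC.Unif

/-!
# Q1: independence of the field, uniformity, almost all characteristics
-/

set_option autoImplicit false
set_option linter.unusedSectionVars false

namespace Pool.Agent.Helper15K1.QC

open scoped TensorProduct
open Pool.Agent.H826R3.SM Pool.Agent.TH671.DU Pool.Agent.N86.SQ Pool.Agent.N823
open MvPolynomial

/-- The ratio of Q1 is at most `ε` for all large `n`, uniformly for all nonempty schemes of degree
at most `d` over all algebraically closed fields with characteristic in `S`. -/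
def Unif (S : ℕ → Prop) (d : ℕ) (ε : ℝ) : Prop :=
  ∃ n₀ : ℕ, ∀ (K : Type) [Field K] [IsAlgClosed K], S (ringChar K) →
    ∀ (A : Type) [CommRing A] [Algebra K A] [Module.Finite K A] [Nontrivial A],
      Module.finrank K A ≤ d → ∀ n : ℕ, n₀ ≤ n →
        (defect K (Pow K A n) : ℝ) ≤ ε * (Module.finrank K A : ℝ) ^ ((1 + ε) * (n : ℝ))

/-- The power `Γ^n` of `Γ = Spec A` certifies Q1 with the constant `ε`:
`(deg Γ)^n + δ(Γ^n) < (deg Γ + ε)^n`. -/
def Cert (K : Type) [Field K] (A : Type) [CommRing A] [Algebra K A] (ε : ℝ) (n : ℕ) : Prop :=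
  (Module.finrank K A : ℝ) ^ n + defect K (Pow K A n) < ((Module.finrank K A : ℝ) + ε) ^ n

/-- The polynomials in `F` decide Q1 for the local algebras `A` of degree `e + 1` over all
algebraically closed extension fields `K` of `k`: Q1 holds for `Spec A` if and only if they vanish
at the vector `par c` of the structure constants of `A` and of the coordinates of the unit, for
every basis `c` of `A` which consists of `1` and of elements which generate a nilpotent ideal. -/
def Decides (k : Type) [Field k] (e : ℕ) (F : Finset (MvPolynomial (PIdx (e + 1)) k)) : Prop :=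
  ∀ (K : Type) [Field K] [IsAlgClosed K] [Algebra k K] (A : Type) [CommRing A] [Algebra K A]
    (c : Module.Basis (Fin (e + 1)) K A), IsFrame c →
      (QOne K A ↔ ∀ Q ∈ F, aeval (par c) Q = 0)

section

variable {K : Type} [Field K] [IsAlgClosed K]

theorem mdeg_pow_one {A : Type} [CommRing A] [Algebra K A] [Module.Finite K A]
    (h : Module.finrank K A = 1) (n : ℕ) : mdeg K (Pow K A n) ≤ 1 :=
  mdeg_le (Growth.one_of_finrank h n)

/-- bounds for local algebras from bounds for framed algebras -/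
theorem local_bound {C ε : ℝ} (hC : 1 ≤ C) (d : ℕ)
    (h : ∀ e < d, 1 ≤ e → ∀ (A : Type) [CommRing A] [Algebra K A]
      (c : Module.Basis (Fin (e + 1)) K A), IsFrame c → ∀ n : ℕ,
        (mdeg K (Pow K A n) : ℝ) ≤ C * (((e + 1 : ℕ) : ℝ) ^ (1 + ε)) ^ n)
    (A : Type) [CommRing A] [Algebra K A] [Module.Finite K A] [IsLocalRing A]
    (hd : Module.finrank K A ≤ d) (n : ℕ) :
    (mdeg K (Pow K A n) : ℝ) ≤ C * ((Module.finrank K A : ℝ) ^ (1 + ε)) ^ n := by
  have hpos : 0 < Module.finrank K A := Module.finrank_pos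
  obtain ⟨e, he⟩ : ∃ e, Module.finrank K A = e + 1 := ⟨Module.finrank K A - 1, by omega⟩
  by_cases h1 : 1 ≤ e
  · obtain ⟨c, hc⟩ := exists_frame he
    rw [he]
    exact h e (by omega) h1 A c hc n
  · have h2 : Module.finrank K A = 1 := by omega
    rw [h2, Nat.cast_one, Real.one_rpow, one_pow, mul_one]
    have h3 : ((mdeg K (Pow K A n) : ℕ) : ℝ) ≤ 1 := by exact_mod_cast mdeg_pow_one h2 n
    linarith

end

theorem le_sum_succ (D : ℕ → ℕ) (d e : ℕ) (he : e < d) : D e ≤ 1 + ∑ i ∈ Finset.range d, D i := by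
  have := Finset.single_le_sum (f := D) (fun _ _ => Nat.zero_le _) (Finset.mem_range.2 he)
  omega

/-- **Uniformity.** -/
theorem unif_main {Q : ℕ → ℕ → Prop} {P : ℕ → Prop} (hQ : Closed Q P) (d : ℕ)
    (h : ∀ (K : Type) [Field K] [IsAlgClosed K], P (ringChar K) → QUpTo K d) (ε : ℝ)
    (hε : 0 < ε) : ∃ N, Unif (Q N) d ε := by
  classical
  have h1 : ∀ e, ∃ D : ℕ, e < d → 1 ≤ e → ∀ (K : Type) [Field K] [IsAlgClosed K],
      Q D (ringChar K) → ∀ (A : Type) [CommRing A] [Algebra K A]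
        (c : Module.Basis (Fin (e + 1)) K A), IsFrame c →
        ∀ n : ℕ, (mdeg K (Pow K A n) : ℝ) ≤ D * (((e + 1 : ℕ) : ℝ) ^ (1 + ε / 2)) ^ n := by
    intro e
    by_cases he : e < d ∧ 1 ≤ e
    · have hlt : ((e + 1 : ℕ) : ℝ) < ((e + 1 : ℕ) : ℝ) ^ (1 + ε / 2) := by
        conv_lhs => rw [← Real.rpow_one ((e + 1 : ℕ) : ℝ)]
        refine Real.rpow_lt_rpow_of_exponent_lt ?_ (by linarith)
        exact_mod_cast (by omega : 1 < e + 1)
      obtain ⟨D, hD⟩ := uniform_framed hQ e _ _ hlt fun K _ _ hK => (qUpTo_iff d).1 (h K hK) e he.1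
      exact ⟨D, fun _ _ => hD⟩
    · exact ⟨0, fun h2 h3 => absurd ⟨h2, h3⟩ he⟩
  choose D hD using h1
  let C : ℕ := 1 + ∑ i ∈ Finset.range d, D i
  have hC1 : (1 : ℝ) ≤ C := by exact_mod_cast Nat.le_add_right 1 _
  -- the threshold
  obtain ⟨n₀, hn₀⟩ : ∃ n₀ : ℕ, (C : ℝ) ^ d ≤ ε * ((2 : ℝ) ^ (ε / 2)) ^ n₀ := by
    have h2 : (1 : ℝ) < (2 : ℝ) ^ (ε / 2) := Real.one_lt_rpow one_lt_two (by linarith)
    obtain ⟨n₀, hn₀⟩ := pow_unbounded_of_one_lt ((C : ℝ) ^ d / ε) h2
    refine ⟨n₀, ?_⟩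
    rw [div_lt_iff₀ hε] at hn₀
    linarith
  refine ⟨C, n₀, fun K _ _ hK A _ _ _ _ hd n hn => ?_⟩
  have hloc : ∀ (A : Type) [CommRing A] [Algebra K A] [Module.Finite K A] [IsLocalRing A],
      Module.finrank K A ≤ d → ∀ n : ℕ,
        (mdeg K (Pow K A n) : ℝ) ≤ C * ((Module.finrank K A : ℝ) ^ (1 + ε / 2)) ^ n := by
    intro A _ _ _ _ hd n
    refine local_bound hC1 d (fun e he he1 A _ _ c hc n => ?_) A hd n
    have hle : D e ≤ C := le_sum_succ D d e he
    refine (hD e he he1 K (hQ.1 _ _ _ hle hK) A c hc n).trans ?_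
    refine mul_le_mul_of_nonneg_right ?_ (by positivity)
    exact_mod_cast hle
  have hb := uniform_of_local hC1 (by linarith) d hloc _ A hd rfl n
  have hpos : 0 < Module.finrank K A := Module.finrank_pos
  set f := Module.finrank K A with hf
  have hfn : Module.finrank K (Pow K A n) + defect K (Pow K A n) = mdeg K (Pow K A n) :=
    fadd K (Pow K A n)
  by_cases hf1 : f = 1
  · have h2 : defect K (Pow K A n) = 0 := by
      have h3 := mdeg_pow_one (K := K) (A := A) (by rw [← hf, hf1]) n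
      rw [finrank_Pow', ← hf, hf1, one_pow] at hfn
      omega
    rw [h2, Nat.cast_zero]
    positivity
  · have hf2 : 2 ≤ f := by omega
    have h2 : (defect K (Pow K A n) : ℝ) ≤ mdeg K (Pow K A n) := by
      exact_mod_cast (by omega : defect K (Pow K A n) ≤ mdeg K (Pow K A n))
    have hf0 : (0 : ℝ) < f := by positivity
    have hCf : (C : ℝ) ^ f ≤ (C : ℝ) ^ d := pow_le_pow_right₀ hC1 hd
    have h3 : ((2 : ℝ) ^ (ε / 2)) ^ n₀ ≤ ((f : ℝ) ^ (ε / 2)) ^ n := by
      have h4 : ((2 : ℝ) ^ (ε / 2)) ^ n₀ ≤ ((2 : ℝ) ^ (ε / 2)) ^ n :=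
        pow_le_pow_right₀ (Real.one_lt_rpow one_lt_two (by linarith)).le hn
      refine h4.trans (pow_le_pow_left₀ (by positivity) ?_ n)
      refine Real.rpow_le_rpow (by norm_num) ?_ (by linarith)
      exact_mod_cast hf2
    have h5 : (f : ℝ) ^ ((1 + ε) * (n : ℝ)) =
        ((f : ℝ) ^ (ε / 2)) ^ n * ((f : ℝ) ^ (1 + ε / 2)) ^ n := by
      rw [Real.rpow_mul (Nat.cast_nonneg _), Real.rpow_natCast, ← mul_pow, ← Real.rpow_add hf0]
      congr 2
      ring
    calc (defect K (Pow K A n) : ℝ) ≤ mdeg K (Pow K A n) := h2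
      _ ≤ (C : ℝ) ^ f * ((f : ℝ) ^ (1 + ε / 2)) ^ n := hb
      _ ≤ (ε * ((2 : ℝ) ^ (ε / 2)) ^ n₀) * ((f : ℝ) ^ (1 + ε / 2)) ^ n :=
          mul_le_mul_of_nonneg_right (hCf.trans hn₀) (by positivity)
      _ ≤ (ε * ((f : ℝ) ^ (ε / 2)) ^ n) * ((f : ℝ) ^ (1 + ε / 2)) ^ n :=
          mul_le_mul_of_nonneg_right (mul_le_mul_of_nonneg_left h3 hε.le) (by positivity)
      _ = ε * (f : ℝ) ^ ((1 + ε) * (n : ℝ)) := by rw [h5]; ring

/-- uniform bounds give Q1 -/
theorem qUpTo_of_unif {S : ℕ → Prop} {d : ℕ} (h : ∀ ε : ℝ, 0 < ε → Unif S d ε)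
    (K : Type) [Field K] [IsAlgClosed K] (hK : S (ringChar K)) : QUpTo K d := by
  intro A _ _ _ _ hd ε hε
  rw [Metric.tendsto_atTop]
  intro δ hδ
  obtain ⟨n₀, hn₀⟩ := h (min ε (δ / 2)) (by positivity)
  refine ⟨n₀, fun n hn => ?_⟩
  have h1 := hn₀ K hK A hd n hn
  have hpos : 0 < Module.finrank K A := Module.finrank_pos
  have hf1 : (1 : ℝ) ≤ Module.finrank K A := by exact_mod_cast hpos
  rw [Real.dist_eq, sub_zero, abs_of_nonneg (by positivity), div_lt_iff₀ (by positivity)]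
  have h2 : (Module.finrank K A : ℝ) ^ ((1 + min ε (δ / 2)) * (n : ℝ)) ≤
      (Module.finrank K A : ℝ) ^ ((1 + ε) * (n : ℝ)) := by
    refine Real.rpow_le_rpow_of_exponent_le hf1 ?_
    refine mul_le_mul_of_nonneg_right ?_ (Nat.cast_nonneg _)
    have := min_le_left ε (δ / 2)
    linarith
  have h3 : 0 < (Module.finrank K A : ℝ) ^ ((1 + ε) * (n : ℝ)) := by positivity
  have h4 : min ε (δ / 2) ≤ δ / 2 := min_le_right _ _
  have h5 : 0 < min ε (δ / 2) := by positivity
  calc (defect K (Pow K A n) : ℝ)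
      ≤ min ε (δ / 2) * (Module.finrank K A : ℝ) ^ ((1 + min ε (δ / 2)) * (n : ℝ)) := h1
    _ ≤ (δ / 2) * (Module.finrank K A : ℝ) ^ ((1 + ε) * (n : ℝ)) :=
        mul_le_mul h4 h2 (by positivity) (by positivity)
    _ < δ * (Module.finrank K A : ℝ) ^ ((1 + ε) * (n : ℝ)) :=
        mul_lt_mul_of_pos_right (by linarith) h3

/-- **A gap above the degree which depends only on the degree and the characteristic.** -/
theorem gap_char (p e : ℕ) : ∃ η : ℝ, 0 < η ∧ ∀ (K : Type) [Field K] [IsAlgClosed K],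
    ringChar K = p → ∀ (A : Type) [CommRing A] [Algebra K A] (c : Module.Basis (Fin (e + 1)) K A),
      IsFrame c → rate K A < ((e + 1 : ℕ) : ℝ) + η → rate K A ≤ ((e + 1 : ℕ) : ℝ) := by
  by_cases hp : ∃ (k : Type) (_ : Field k), IsAlgClosed k ∧ ringChar k = p
  · obtain ⟨k, _, hac, hkp⟩ := hp
    obtain ⟨L, _, _, hL⟩ := exists_common k
    obtain ⟨η, hη, hgap⟩ := exists_gap (k := L) (e + 1) ((e + 1 : ℕ) : ℝ)
    refine ⟨η, hη, fun K _ _ hK A _ _ c hc hr => ?_⟩
    obtain ⟨φ⟩ := hL K (by rw [hK, hkp])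
    let _ : Algebra L K := φ.toAlgebra
    exact gap_extend (k := L) hgap hc hr
  · refine ⟨1, one_pos, fun K _ _ hK => ?_⟩
    exact absurd ⟨K, inferInstance, inferInstance, hK⟩ hp

section

variable {K : Type} [Field K] [IsAlgClosed K]

theorem certificate_of_qOne {A : Type} [CommRing A] [Algebra K A] [Module.Finite K A]
    [Nontrivial A] {d : ℕ} (hd : Module.finrank K A = d) {ε : ℝ} (hε : 0 < ε) (h : QOne K A) :
    ∃ n : ℕ, 1 ≤ n ∧ (d : ℝ) ^ n + defect K (Pow K A n) < ((d : ℝ) + ε) ^ n := by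
  rw [qOne_iff_rate, hd] at h
  have h1 : rate K A < d + ε := by linarith
  rw [rate_eq A] at h1
  obtain ⟨N, hN⟩ := exists_lt_of_ciInf_lt h1
  refine ⟨N + 1, by omega, ?_⟩
  have h2 : ((mdeg K (Pow K A (N + 1)) : ℕ) : ℝ) < ((d : ℝ) + ε) ^ (N + 1) := by
    have h3 := pow_lt_pow_left₀ hN (by positivity) (Nat.succ_ne_zero N)
    refine lt_of_le_of_lt (le_of_eq ?_) h3
    rw [← Real.rpow_natCast, ← Real.rpow_mul (Nat.cast_nonneg _)]
    push_cast
    rw [one_div, inv_mul_cancel₀ (by positivity), Real.rpow_one]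
  rw [← fadd K (Pow K A (N + 1)), finrank_Pow', hd] at h2
  push_cast at h2
  exact h2

theorem rate_lt_of_certificate {A : Type} [CommRing A] [Algebra K A] [Module.Finite K A]
    [Nontrivial A] {d : ℕ} (hd : Module.finrank K A = d) {ε : ℝ} (hε : 0 < ε) {n : ℕ}
    (h : (d : ℝ) ^ n + defect K (Pow K A n) < ((d : ℝ) + ε) ^ n) : rate K A < d + ε := by
  have h1 : rate K A ^ n ≤ (d : ℝ) ^ n + defect K (Pow K A n) := by
    refine (rate_pow_le A n).trans (le_of_eq ?_)
    rw [← fadd K (Pow K A n), finrank_Pow', hd]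
    push_cast
    rfl
  exact lt_of_pow_lt_pow_left₀ n (by positivity) (h1.trans_lt h)

end

/-- **The gap theorem for all fields of a given characteristic at once.** -/
theorem gap_all (p d : ℕ) : ∃ ε : ℝ, 0 < ε ∧ ∀ (K : Type) [Field K] [IsAlgClosed K],
    ringChar K = p → ∀ (A : Type) [CommRing A] [Algebra K A] [Module.Finite K A] [IsLocalRing A],
      Module.finrank K A = d → (QOne K A ↔ ∃ n : ℕ, 1 ≤ n ∧ Cert K A ε n) := by
  cases d with
  | zero =>
    refine ⟨1, one_pos, fun K _ _ _ A _ _ _ _ hd => ?_⟩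
    have h1 : 0 < Module.finrank K A := Module.finrank_pos
    omega
  | succ e =>
    obtain ⟨η, hη, hgap⟩ := gap_char p e
    refine ⟨η, hη, fun K _ _ hK A _ _ _ _ hd => ⟨certificate_of_qOne rfl hη, ?_⟩⟩
    rintro ⟨n, hn, h⟩
    obtain ⟨c, hc⟩ := exists_frame hd
    have hlt := rate_lt_of_certificate rfl hη h
    rw [hd] at hlt
    rw [qOne_iff_rate, hd]
    refine le_antisymm (hgap K hK A c hc hlt) ?_
    have := finrank_le_rate (k := K) A
    rwa [hd] at this

theorem exists_pos_le (f : ℕ → ℝ) (hf : ∀ e, 0 < f e) (d : ℕ) : ∃ ε : ℝ, 0 < ε ∧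
    ∀ e ≤ d, ε ≤ f e := by
  induction d with
  | zero => exact ⟨f 0, hf 0, fun e he => by rw [Nat.le_zero.1 he]⟩
  | succ d ih =>
    obtain ⟨ε, hε, h⟩ := ih
    refine ⟨min ε (f (d + 1)), lt_min hε (hf _), fun e he => ?_⟩
    rcases Nat.of_le_succ he with h1 | h1
    · exact (min_le_left _ _).trans (h e h1)
    · rw [h1]
      exact min_le_right _ _

/-- **One power for all schemes of degree at most `d`.** -/
theorem certificate_all (p d : ℕ) : ∃ ε : ℝ, 0 < ε ∧ ∀ (K : Type) [Field K] [IsAlgClosed K],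
    ringChar K = p → (QUpTo K d ↔ ∃ n : ℕ, 1 ≤ n ∧
      ∀ (A : Type) [CommRing A] [Algebra K A] [Module.Finite K A] [IsLocalRing A],
        Module.finrank K A ≤ d → Cert K A ε n) := by
  choose g hg hgap using fun d => gap_all p d
  obtain ⟨ε, hε, hle⟩ := exists_pos_le g hg d
  refine ⟨ε, hε, fun K _ _ hK => ⟨fun h => ?_, ?_⟩⟩
  · -- uniform bounds
    have h1 : ∀ e, ∃ D : ℕ, e < d → ∀ (A : Type) [CommRing A] [Algebra K A]
        (c : Module.Basis (Fin (e + 1)) K A), IsFrame c →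
        ∀ n : ℕ, (mdeg K (Pow K A n) : ℝ) ≤ D * (((e + 1 : ℕ) : ℝ) + ε / 2) ^ n := by
      intro e
      by_cases he : e < d
      · obtain ⟨D, hD⟩ := uniform_framed (closed_const (fun q => q = ringChar K) (fun hinf =>
          absurd (Set.finite_singleton (ringChar K)) hinf)) e ((e + 1 : ℕ) : ℝ)
          (((e + 1 : ℕ) : ℝ) + ε / 2) (by linarith) fun K' _ _ hK' =>
            (qUpTo_iff d).1 ((qUpTo_char hK' d).2 h) e he
        exact ⟨D, fun _ => hD K rfl⟩
      · exact ⟨0, fun h2 => absurd h2 he⟩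
    choose D hD using h1
    let C : ℕ := 1 + ∑ i ∈ Finset.range d, D i
    -- the power
    obtain ⟨n, hn1, hn⟩ : ∃ n : ℕ, 1 ≤ n ∧
        (C : ℝ) < (((d : ℝ) + ε) / ((d : ℝ) + ε / 2)) ^ n := by
      have h2 : (1 : ℝ) < ((d : ℝ) + ε) / ((d : ℝ) + ε / 2) := by
        rw [one_lt_div (by positivity)]
        linarith
      obtain ⟨n, hn⟩ := pow_unbounded_of_one_lt (C : ℝ) h2
      refine ⟨n + 1, by omega, hn.trans_le (pow_le_pow_right₀ h2.le (Nat.le_succ n))⟩
    refine ⟨n, hn1, fun A _ _ _ _ hd => ?_⟩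
    have hpos : 0 < Module.finrank K A := Module.finrank_pos
    obtain ⟨e, he⟩ : ∃ e, Module.finrank K A = e + 1 := ⟨Module.finrank K A - 1, by omega⟩
    obtain ⟨c, hc⟩ := exists_frame he
    have h3 := hD e (by omega) A c hc n
    rw [← fadd K (Pow K A n), finrank_Pow', ← he] at h3
    push_cast at h3
    change (Module.finrank K A : ℝ) ^ n + defect K (Pow K A n) <
      ((Module.finrank K A : ℝ) + ε) ^ n
    refine h3.trans_lt ?_
    set f : ℝ := (Module.finrank K A : ℝ) with hf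
    have hf0 : 0 < f := by rw [hf]; exact_mod_cast hpos
    have hfd : f ≤ d := by rw [hf]; exact_mod_cast hd
    have h4 : (D e : ℝ) ≤ C := by exact_mod_cast le_sum_succ D d e (by omega)
    have h5 : ((d : ℝ) + ε) / ((d : ℝ) + ε / 2) ≤ (f + ε) / (f + ε / 2) := by
      rw [div_le_div_iff₀ (by positivity) (by positivity)]
      nlinarith
    have h6 : (C : ℝ) < ((f + ε) / (f + ε / 2)) ^ n :=
      hn.trans_le (pow_le_pow_left₀ (by positivity) h5 n)
    rw [div_pow, lt_div_iff₀ (by positivity)] at h6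
    refine lt_of_le_of_lt ?_ h6
    exact mul_le_mul_of_nonneg_right h4 (by positivity)
  · rintro ⟨n, hn, h⟩
    refine qUpTo_of_local d fun A _ _ _ _ hd => ?_
    refine (hgap _ K hK A rfl).2 ⟨n, hn, (h A hd).trans_le ?_⟩
    refine pow_le_pow_left₀ (by positivity) ?_ n
    have := hle _ hd
    linarith

/-- **Finitely many polynomials which decide Q1 for all local schemes of degree `e + 1` over all
extension fields.** -/
theorem equations (k : Type) [Field k] [IsAlgClosed k] (e : ℕ) :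
    ∃ F : Finset (MvPolynomial (PIdx (e + 1)) k), Decides k e F := by
  obtain ⟨F, hF1, hF2⟩ := exists_equations (k := k) e ((e + 1 : ℕ) : ℝ)
  refine ⟨F, fun K _ _ _ A _ _ c hc => ?_⟩
  have := hc.isLocalRing
  have := finite_of_basis c
  rw [← prm_eq_par, ← rate_le_iff_equations e _ F hF1 hF2 hc, qOne_iff_rate, finrank_of_basis c]
  constructor
  · exact fun h => h.le
  · intro h
    refine le_antisymm h ?_
    have := finrank_le_rate (k := K) A
    rwa [finrank_of_basis c] at this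

end Pool.Agent.Helper15K1.QC
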