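import Pool.Agent.Helper15K1.QC.Main

/-!
# One power of a local scheme decides Q1
-/

set_option autoImplicit false
set_option linter.unusedSectionVars false

namespace Pool.Agent.Helper15K1.QC

open scoped TensorProduct
open Pool.Agent.H826R3.SM Pool.Agent.TH671.DU Pool.Agent.N86.SQ Pool.Agent.N823
open MvPolynomial

/-- **Uniform bounds for the framed algebras with growth rate at most `x`.** -/
theorem uniform_sublevel (p e : ℕ) (x y : ℝ) (hxy : x < y) :
    ∃ D : ℕ, ∀ (K : Type) [Field K] [IsAlgClosed K], ringChar K = p →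
      ∀ (A : Type) [CommRing A] [Algebra K A] (c : Module.Basis (Fin (e + 1)) K A), IsFrame c →
        rate K A ≤ x → ∀ n : ℕ, (mdeg K (Pow K A n) : ℝ) ≤ D * y ^ n := by
  by_cases hp : ∃ (k : Type) (_ : Field k), IsAlgClosed k ∧ ringChar k = p
  swap
  · refine ⟨1, fun K _ _ hK => ?_⟩
    exact absurd ⟨K, inferInstance, inferInstance, hK⟩ hp
  obtain ⟨k₀, _, hac₀, hk₀⟩ := hp
  obtain ⟨k, _, _, hk⟩ := exists_common k₀
  obtain ⟨F, hF1, hF2⟩ := exists_equations (k := k) e x
  by_contra hcon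
  push Not at hcon
  choose K iF iA hPK A iC iAl c hc hrx n hn using fun i : ℕ => hcon i
  have hφ : ∀ i, Nonempty (k →+* K i) := fun i => hk (K i) (by rw [hPK i, hk₀])
  let φ : ∀ i, k →+* K i := fun i => (hφ i).some
  obtain ⟨L, _, π, hπ⟩ := exists_ultra K
  have hLac : IsAlgClosed L := hπ.isAlgClosed
  have hcL : IsFrame (bcBasis π (uaBasis c)) := (isFrame_ua c hc).map (comp_bc π _)
  let φL : k →+* L := π.comp (Pi.ringHom φ)
  -- the growth rate of the ultraproduct is at most `x`
  have hle : rate L (BC π (UA A)) ≤ x := by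
    let _ : Algebra k L := φL.toAlgebra
    rw [rate_le_iff_equations (k := k) e x F hF1 hF2 hcL]
    intro Q hQ
    have h1 : ∀ i, eval₂ (φ i) (prm (c i)) Q = 0 := by
      intro i
      let _ : Algebra k (K i) := (φ i).toAlgebra
      exact (rate_le_iff_equations (k := k) e x F hF1 hF2 (hc i)).1 (hrx i) Q hQ
    have h2 : eval₂ (Pi.ringHom φ) (prm (uaBasis c)) Q = 0 := by
      funext i
      have h3 := eval₂_comp_left (Pi.evalRingHom K i) (Pi.ringHom φ) (prm (uaBasis c)) Q
      have h4 : (Pi.evalRingHom K i).comp (Pi.ringHom φ) = φ i := rfl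
      have h5 : (⇑(Pi.evalRingHom K i) ∘ prm (uaBasis c)) = prm (c i) := by
        funext j
        exact ((comp_ua c i).prm j).symm
      rw [h4, h5, h1 i] at h3
      exact h3
    change eval₂ φL (prm (bcBasis π (uaBasis c))) Q = 0
    have h6 := eval₂_comp_left π (Pi.ringHom φ) (prm (uaBasis c)) Q
    have h7 : (⇑π ∘ prm (uaBasis c)) = prm (bcBasis π (uaBasis c)) := by
      funext j
      exact ((comp_bc π (uaBasis c)).prm j).symm
    rw [h2, map_zero, h7] at h6
    exact h6.symm
  have hr : rate L (BC π (UA A)) < y := hle.trans_lt hxy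
  have hloc := hcL.isLocalRing
  have hfin := finite_of_basis (bcBasis π (uaBasis c))
  have hr1 := one_le_rate (k := L) (BC π (UA A))
  obtain ⟨D, hD, hb⟩ := ultra_bound hπ hc hr
  obtain ⟨N, hN⟩ := exists_nat_ge D
  obtain ⟨i, hi, hbi⟩ := hb N
  have h1 := hbi (n i)
  have h2 := hn i
  have h3 : D * y ^ (n i) ≤ (i : ℝ) * y ^ (n i) := by
    refine mul_le_mul_of_nonneg_right ?_ (pow_nonneg (by linarith) _)
    refine hN.trans ?_
    exact_mod_cast hi
  linarith

/-- a gap above `x` which depends only on the degree and the characteristic -/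
theorem gap_char' (p e : ℕ) (x : ℝ) : ∃ η : ℝ, 0 < η ∧ ∀ (K : Type) [Field K] [IsAlgClosed K],
    ringChar K = p → ∀ (A : Type) [CommRing A] [Algebra K A] (c : Module.Basis (Fin (e + 1)) K A),
      IsFrame c → rate K A < x + η → rate K A ≤ x := by
  by_cases hp : ∃ (k : Type) (_ : Field k), IsAlgClosed k ∧ ringChar k = p
  · obtain ⟨k, _, hac, hkp⟩ := hp
    obtain ⟨L, _, _, hL⟩ := exists_common k
    obtain ⟨η, hη, hgap⟩ := exists_gap (k := L) (e + 1) x
    refine ⟨η, hη, fun K _ _ hK A _ _ c hc hr => ?_⟩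
    obtain ⟨φ⟩ := hL K (by rw [hK, hkp])
    let _ : Algebra L K := φ.toAlgebra
    exact gap_extend (k := L) hgap hc hr
  · refine ⟨1, one_pos, fun K _ _ hK => ?_⟩
    exact absurd ⟨K, inferInstance, inferInstance, hK⟩ hp

/-- **One power decides whether the growth rate is at most `x`.** -/
theorem one_power (p e : ℕ) (x : ℝ) : ∃ (n : ℕ) (η : ℝ), 1 ≤ n ∧ 0 < η ∧
    ∀ (K : Type) [Field K] [IsAlgClosed K], ringChar K = p →
      ∀ (A : Type) [CommRing A] [Algebra K A] (c : Module.Basis (Fin (e + 1)) K A), IsFrame c →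
        (rate K A ≤ x ↔ (mdeg K (Pow K A n) : ℝ) < (x + η) ^ n) := by
  -- below `1` nothing happens
  rcases lt_or_ge x 1 with hx | hx
  · refine ⟨1, (1 - x) / 2, le_refl _, by linarith, fun K _ _ hK A _ _ c hc => ?_⟩
    have hloc := hc.isLocalRing
    have hfin := finite_of_basis c
    have hr1 := one_le_rate (k := K) A
    refine ⟨fun h => absurd (hr1.trans h) (not_le.2 hx), fun h => ?_⟩
    exfalso
    rw [pow_one] at h
    have h2 : rate K A ^ 1 ≤ _ := rate_pow_le A 1
    rw [pow_one] at h2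
    linarith
  obtain ⟨η, hη, hgap⟩ := gap_char' p e x
  obtain ⟨D, hD⟩ := uniform_sublevel p e x (x + η / 2) (by linarith)
  obtain ⟨n, hn1, hn⟩ : ∃ n : ℕ, 1 ≤ n ∧ (D : ℝ) < ((x + η) / (x + η / 2)) ^ n := by
    have h2 : (1 : ℝ) < (x + η) / (x + η / 2) := by
      rw [one_lt_div (by linarith)]
      linarith
    obtain ⟨n, hn⟩ := pow_unbounded_of_one_lt (D : ℝ) h2
    exact ⟨n + 1, by omega, hn.trans_le (pow_le_pow_right₀ h2.le (Nat.le_succ n))⟩
  refine ⟨n, η, hn1, hη, fun K _ _ hK A _ _ c hc => ⟨fun h => ?_, fun h => ?_⟩⟩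
  · refine (hD K hK A c hc h n).trans_lt ?_
    have h0 : (0 : ℝ) < (x + η / 2) ^ n := pow_pos (by linarith) _
    rw [div_pow, lt_div_iff₀ h0] at hn
    exact hn
  · have hloc := hc.isLocalRing
    have hfin := finite_of_basis c
    refine hgap K hK A c hc ?_
    exact lt_of_pow_lt_pow_left₀ n (by linarith) ((rate_pow_le A n).trans_lt h)

end Pool.Agent.Helper15K1.QC
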