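import Pool.Agent.Helper15K1.QC.Sol

/-!
# Points of finitely generated subalgebras, descent of solutions, models of framed algebras
-/

set_option autoImplicit false
set_option linter.unusedSectionVars false

namespace Pool.Agent.Helper15K1.QC

open scoped TensorProduct
open Pool.Agent.H826R3.SM Pool.Agent.TH671.DU Pool.Agent.N86.SQ Pool.Agent.N823
open MvPolynomial

section point

variable {k K : Type} [Field k] [IsAlgClosed k] [Field K] [Algebra k K]

/-- **Points of a finitely generated subalgebra of an extension field** -/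
theorem exists_point (S : Subalgebra k K) (hS : S.FG) (x : S) (hx : x ≠ 0) :
    ∃ χ : S →ₐ[k] k, χ x ≠ 0 := by
  classical
  let S' : Subalgebra k K := S ⊔ Algebra.adjoin k {(x : K)⁻¹}
  have hS' : S'.FG := hS.sup (Subalgebra.fg_adjoin_finset {(x : K)⁻¹} |> fun h => by
    simpa using h)
  have hft : Algebra.FiniteType k S' := (Subalgebra.fg_iff_finiteType S').1 hS'
  obtain ⟨m, hm⟩ := Ideal.exists_maximal S'
  let _ : Field (S' ⧸ m) := Ideal.Quotient.field m
  have hft2 : Algebra.FiniteType k (S' ⧸ m) := inferInstance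
  have hfin : Module.Finite k (S' ⧸ m) := finite_of_finite_type_of_isJacobsonRing k (S' ⧸ m)
  have hint : Algebra.IsIntegral k (S' ⧸ m) := Algebra.IsIntegral.of_finite k (S' ⧸ m)
  have hbij : Function.Bijective (algebraMap k (S' ⧸ m)) :=
    IsAlgClosed.algebraMap_bijective_of_isIntegral
  let ee : k ≃ₐ[k] (S' ⧸ m) := AlgEquiv.ofBijective (Algebra.ofId k (S' ⧸ m)) hbij
  let χ' : S' →ₐ[k] k := ee.symm.toAlgHom.comp (Ideal.Quotient.mkₐ k m)
  let χ : S →ₐ[k] k := χ'.comp (Subalgebra.inclusion le_sup_left)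
  refine ⟨χ, fun h => ?_⟩
  let y : S' := ⟨(x : K)⁻¹, (le_sup_right : Algebra.adjoin k {(x : K)⁻¹} ≤ S')
    (Algebra.subset_adjoin rfl)⟩
  have hx0 : (x : K) ≠ 0 := fun h => hx (Subtype.ext h)
  have h1 : (Subalgebra.inclusion (le_sup_left : S ≤ S') x) * y = 1 := by
    apply Subtype.ext
    change (x : K) * (x : K)⁻¹ = 1
    exact mul_inv_cancel₀ hx0
  have h2 := congrArg χ' h1
  rw [map_mul, map_one] at h2
  have h3 : χ' (Subalgebra.inclusion (le_sup_left : S ≤ S') x) = 0 := h
  rw [h3, zero_mul] at h2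
  exact zero_ne_one h2

/-- **Descent of solutions to an algebraically closed subfield** -/
theorem IsSol.descend {e : ℕ} {γ : (Fin e → ℕ) → Fin (e + 1) → k} {n m W : ℕ}
    {p : Fin W → Fin n × Fin e → K} {q : (Fin n → Fin (e + 1)) → Fin (m + 1) → Fin W → K}
    (h : IsSol (fun t l => algebraMap k K (γ t l)) n m W p q) :
    ∃ p' q', IsSol γ n m W p' q' := by
  classical
  let T : Set K := (Set.range fun z : Fin W × (Fin n × Fin e) => p z.1 z.2) ∪
    Set.range fun z : (Fin n → Fin (e + 1)) × Fin (m + 1) × Fin W => q z.1 z.2.1 z.2.2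
  have hT : T.Finite := (Set.finite_range _).union (Set.finite_range _)
  let S : Subalgebra k K := Algebra.adjoin k T
  have hS : S.FG := ⟨hT.toFinset, by rw [Set.Finite.coe_toFinset]⟩
  obtain ⟨χ, -⟩ := exists_point S hS 1 one_ne_zero
  let pS : Fin W → Fin n × Fin e → S := fun w v =>
    ⟨p w v, Algebra.subset_adjoin (Or.inl ⟨(w, v), rfl⟩)⟩
  let qS : (Fin n → Fin (e + 1)) → Fin (m + 1) → Fin W → S := fun J E w =>
    ⟨q J E w, Algebra.subset_adjoin (Or.inr ⟨(J, E, w), rfl⟩)⟩
  have h1 : IsSol (fun t l => algebraMap k S (γ t l)) n m W pS qS :=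
    IsSol.of_injective S.val.toRingHom Subtype.val_injective h
  have h2 := h1.map χ.toRingHom
  have h3 : (fun t l => χ.toRingHom (algebraMap k S (γ t l))) = γ := by
    funext t l
    exact χ.commutes _
  rw [h3] at h2
  exact ⟨_, _, h2⟩

end point

section baseChange

variable {R S A : Type} [CommRing R] [CommRing S] [Algebra R S] [CommRing A] [Algebra R A] {e : ℕ}

/-- base change -/
theorem comp_baseChange (c : Module.Basis (Fin (e + 1)) R A) :
    Comp (algebraMap R S) (Algebra.TensorProduct.includeRight (R := R) (A := S) (B := A)).toRingHom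
      c (Algebra.TensorProduct.basis S c) := by
  refine ⟨fun r => ?_, fun j => ?_⟩
  · change (1 : S) ⊗ₜ[R] algebraMap R A r = _
    rw [Algebra.TensorProduct.algebraMap_apply, Algebra.algebraMap_self, RingHom.id_apply,
      Algebra.algebraMap_eq_smul_one, Algebra.algebraMap_eq_smul_one, TensorProduct.smul_tmul]
  · change (1 : S) ⊗ₜ[R] c j = _
    rw [Algebra.TensorProduct.basis_apply]

end baseChange

section invariance

variable {k K : Type} [Field k] [IsAlgClosed k] [Field K] [IsAlgClosed K] [Algebra k K]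
  {A : Type} [CommRing A] [Algebra k A] {e : ℕ} {c : Module.Basis (Fin (e + 1)) k A}

theorem poly_bound {x y C : ℝ} (hx : 1 ≤ x) (hC : 0 ≤ C) (s : ℕ) (hy : 0 ≤ y)
    (h : ∀ n : ℕ, y ^ n ≤ C * x ^ n * (s * n + 2)) : y ≤ x := by
  by_contra hcon
  push Not at hcon
  have hlt : x / y < 1 := (div_lt_one (by linarith)).2 hcon
  have hpos : 0 ≤ x / y := by positivity
  have ht : Filter.Tendsto (fun n : ℕ => (s * n + 2) * C * (x / y) ^ n) Filter.atTop
      (nhds 0) := by
    have h1 := tendsto_self_mul_const_pow_of_lt_one hpos hlt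
    have h2 := tendsto_pow_atTop_nhds_zero_of_lt_one hpos hlt
    have h3 := ((h1.const_mul (s * C)).add (h2.const_mul (2 * C)))
    rw [mul_zero, mul_zero, add_zero] at h3
    refine h3.congr fun n => ?_
    ring
  obtain ⟨n, hn⟩ := (ht.eventually_lt_const one_pos).exists
  have h4 := h n
  have hyn : 0 < y ^ n := pow_pos (by linarith) n
  rw [div_pow] at hn
  have h5 : (s * n + 2) * C * (x ^ n / y ^ n) = (C * x ^ n * (s * n + 2)) / y ^ n := by ring
  rw [h5, div_lt_one hyn] at hn
  linarith

/-- **The growth rate of a local scheme does not change under extension of the ground field.** -/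
theorem rate_extend (hc : IsFrame c) : rate K (K ⊗[k] A) = rate k A := by
  have := hc.isLocalRing
  have := finite_of_basis c
  refine le_antisymm (rate_baseChange_le k K A) ?_
  have hcK : IsFrame (Algebra.TensorProduct.basis K c) := hc.map (comp_baseChange (S := K) c)
  have hr := one_le_rate (k := k) A
  have := nontrivial_baseChange k K A
  have hrK := one_le_rate (k := K) (K ⊗[k] A)
  refine le_of_forall_pos_le_add fun η hη => ?_
  obtain ⟨C, hC, hG⟩ := std_growth (k := K) hcK η hη
  refine poly_bound (C := C) (by linarith) hC (e + 1) (by linarith) fun n => ?_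
  obtain ⟨W, hW, hS⟩ := hG n
  obtain ⟨p, q, hpq⟩ := (std_iff _ n W).1 hS
  have h1 : gam (Algebra.TensorProduct.basis K c) = fun t l => algebraMap k K (gam c t l) := by
    funext t l
    exact (comp_baseChange (S := K) c).gam t l
  rw [h1] at hpq
  obtain ⟨p', q', h2⟩ := hpq.descend
  have h3 : Std c n W := (std_iff c n W).2 ⟨p', q', h2⟩
  have h4 := mdeg_of_std hc h3
  refine (rate_pow_le A n).trans ?_
  have h5 : ((mdeg k (Pow k A n) : ℕ) : ℝ) ≤ ((W * ((e + 1) * n + 2) : ℕ) : ℝ) := by
    exact_mod_cast h4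
  refine h5.trans ?_
  push_cast
  refine mul_le_mul_of_nonneg_right hW (by positivity)

theorem qOne_extend (hc : IsFrame c) : QOne K (K ⊗[k] A) ↔ QOne k A := by
  have := hc.isLocalRing
  have := finite_of_basis c
  have := nontrivial_baseChange k K A
  rw [qOne_iff_rate, qOne_iff_rate, rate_extend hc, Module.finrank_baseChange]

end invariance

end Pool.Agent.Helper15K1.QC
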