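import Pool.Agent.Helper15K1.QC.Stmt

/-!
# The set of the growth rates over uncountable fields, schemes of maximal growth rate
-/

set_option autoImplicit false
set_option linter.unusedSectionVars false

namespace Pool.Agent.Helper15K1.QC

open scoped TensorProduct
open Pool.Agent.H826R3.SM Pool.Agent.TH671.DU Pool.Agent.N86.SQ Pool.Agent.N823
open MvPolynomial

section point

variable {k K : Type} [Field k] [IsAlgClosed k] [Field K] [Algebra k K]

/-- **Points of a countably generated subalgebra of an extension of an uncountable field** -/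
theorem exists_point_countable [Uncountable k] (u : ℕ → K) :
    Nonempty (Algebra.adjoin k (Set.range u) →ₐ[k] k) := by
  classical
  set S : Subalgebra k K := Algebra.adjoin k (Set.range u) with hS
  obtain ⟨m, hm⟩ := Ideal.exists_maximal S
  let _ : Field (S ⧸ m) := Ideal.Quotient.field m
  have huS : ∀ i, u i ∈ S := fun i => Algebra.subset_adjoin ⟨i, rfl⟩
  let f : MvPolynomial ℕ k →ₐ[k] S := aeval fun i => (⟨u i, huS i⟩ : S)
  have hf : Function.Surjective f := by
    rintro ⟨x, hx⟩
    have hx' : x ∈ (aeval u : MvPolynomial ℕ k →ₐ[k] K).range := by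
      rw [← Algebra.adjoin_range_eq_range_aeval]
      exact hx
    obtain ⟨F, hF⟩ := hx'
    refine ⟨F, Subtype.ext ?_⟩
    change S.val (aeval (fun i => (⟨u i, huS i⟩ : S)) F) = x
    rw [MvPolynomial.comp_aeval_apply]
    exact hF
  let g : MvPolynomial ℕ k →ₐ[k] (S ⧸ m) := (Ideal.Quotient.mkₐ k m).comp f
  have hg : Function.Surjective g := (Ideal.Quotient.mkₐ_surjective k m).comp hf
  have hrank : Module.rank k (S ⧸ m) ≤ Cardinal.aleph0 := by
    refine (g.toLinearMap.rank_le_of_surjective hg).trans ?_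
    rw [MvPolynomial.rank_eq]
    exact Cardinal.mk_le_aleph0
  have halg : Algebra.IsAlgebraic k (S ⧸ m) := by
    refine ⟨fun t => ?_⟩
    by_contra ht
    have h1 := (Transcendental.linearIndependent_sub_inv (F := k) ht).cardinal_le_rank
    have h2 : Cardinal.mk k ≤ Cardinal.aleph0 := h1.trans hrank
    have h3 : Countable k := Cardinal.mk_le_aleph0_iff.1 h2
    exact not_countable h3
  have hint : Algebra.IsIntegral k (S ⧸ m) := Algebra.isAlgebraic_iff_isIntegral.1 halg
  have hbij : Function.Bijective (algebraMap k (S ⧸ m)) :=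
    IsAlgClosed.algebraMap_bijective_of_isIntegral
  let ee : k ≃ₐ[k] (S ⧸ m) := AlgEquiv.ofBijective (Algebra.ofId k (S ⧸ m)) hbij
  exact ⟨ee.symm.toAlgHom.comp (Ideal.Quotient.mkₐ k m)⟩

end point

section specialize

variable {k K : Type} [Field k] [IsAlgClosed k] [Field K] [IsAlgClosed K] [Algebra k K]
  {A : Type} [CommRing A] [Algebra K A] {e : ℕ} {c : Module.Basis (Fin (e + 1)) K A}

/-- specializations -/
theorem specialize (hc : IsFrame c) (S : Subalgebra k K) (hS : ∀ i, prm c i ∈ S)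
    (χ : S →ₐ[k] k) : ∃ (E : Type) (_ : CommRing E) (_ : Algebra k E)
      (c' : Module.Basis (Fin (e + 1)) k E), IsFrame c' ∧
        ∀ (Q : MvPolynomial (PIdx (e + 1)) k) (s : S), (s : K) = aeval (prm c) Q →
          eval (prm c') Q = χ s := by
  let b := latBasis S c hc.1 hS
  have hprm0 : ∀ i, ((prm b i : S) : K) = prm c i := fun i => ((comp_lat hc.1 hS).prm i).symm
  refine ⟨BC χ.toRingHom (lat S c hc.1 hS), inferInstance, inferInstance, bcBasis χ.toRingHom b,
    (isFrame_lat hc.1 hS hc).map (comp_bc χ.toRingHom _), fun Q s hs => ?_⟩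
  have h1 : prm (bcBasis χ.toRingHom b) = fun i => χ (prm b i) := by
    funext i
    exact (comp_bc χ.toRingHom b).prm i
  have h2 : s = aeval (prm b) Q := by
    apply Subtype.val_injective
    rw [hs]
    change _ = S.val (aeval (prm b) Q)
    rw [MvPolynomial.comp_aeval_apply]
    congr 2
    funext i
    exact (hprm0 i).symm
  rw [h1, h2, MvPolynomial.comp_aeval_apply]
  rfl

/-- **Over an uncountable field every framed algebra over an extension field has a specialization
with the same growth rate.** -/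
theorem exists_same_rate [Uncountable k] (hc : IsFrame c) :
    ∃ (E : Type) (_ : CommRing E) (_ : Algebra k E) (c' : Module.Basis (Fin (e + 1)) k E),
      IsFrame c' ∧ rate k E = rate K A := by
  classical
  set r := rate K A with hr
  -- the equations for the numbers below `r`
  have hlt : ∀ i : ℕ, r - 1 / ((i : ℝ) + 1) < r := fun i => by
    have : 0 < 1 / ((i : ℝ) + 1) := by positivity
    linarith
  choose F hF1 hF2 using fun i : ℕ => exists_equations (k := k) e (r - 1 / ((i : ℝ) + 1))
  obtain ⟨F₀, hF₀1, hF₀2⟩ := exists_equations (k := k) e r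
  have hex : ∀ i, ∃ Q ∈ F i, aeval (prm c) Q ≠ 0 := by
    intro i
    by_contra hcon
    push Not at hcon
    have h1 := (rate_le_iff_equations e _ (F i) (hF1 i) (hF2 i) hc).2 hcon
    exact absurd (hlt i) (not_lt.2 h1)
  choose Q hQF hQ using hex
  -- the subalgebra
  obtain ⟨v, hv⟩ : ∃ v : ℕ → K, Set.range (prm c) ⊆ Set.range v := by
    have hcount : (Set.range (prm c)).Countable := Set.countable_range _
    have hne : (Set.range (prm c)).Nonempty := ⟨_, Sum.inr 0, rfl⟩
    obtain ⟨v, hv⟩ := hcount.exists_eq_range hne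
    exact ⟨v, hv.le⟩
  let u : ℕ → K := fun i => if Even i then v (i / 2) else (aeval (prm c) (Q (i / 2)))⁻¹
  have hu0 : ∀ i, u (2 * i) = v i := by
    intro i
    have h1 : Even (2 * i) := ⟨i, by ring⟩
    simp only [u, if_pos h1]
    congr 1
    omega
  have hu1 : ∀ i, u (2 * i + 1) = (aeval (prm c) (Q i))⁻¹ := by
    intro i
    have h1 : ¬ Even (2 * i + 1) := by
      rw [Nat.not_even_iff_odd]
      exact ⟨i, rfl⟩
    simp only [u, if_neg h1]
    congr 3
    omega
  obtain ⟨χ⟩ := exists_point_countable (k := k) u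
  set S : Subalgebra k K := Algebra.adjoin k (Set.range u) with hSdef
  have hS : ∀ i, prm c i ∈ S := by
    intro i
    obtain ⟨j, hj⟩ := hv ⟨i, rfl⟩
    rw [← hj, ← hu0]
    exact Algebra.subset_adjoin ⟨2 * j, rfl⟩
  obtain ⟨E, _, _, c', hc', hE⟩ := specialize hc S hS χ
  have hmem : ∀ P : MvPolynomial (PIdx (e + 1)) k, aeval (prm c) P ∈ S := by
    intro P
    have h1 : aeval (prm c) P = S.val (aeval (fun i => (⟨prm c i, hS i⟩ : S)) P) := by
      rw [MvPolynomial.comp_aeval_apply]
      rfl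
    rw [h1]
    exact (aeval (fun i => (⟨prm c i, hS i⟩ : S)) P).2
  refine ⟨E, _, _, c', hc', le_antisymm ?_ ?_⟩
  · refine hF₀2 E c' hc' fun P hP => ?_
    have h0 : aeval (prm c) P = 0 :=
      (rate_le_iff_equations e r F₀ hF₀1 hF₀2 hc).1 le_rfl P hP
    rw [hE P 0 (by rw [h0]; rfl)]
    exact map_zero χ
  · by_contra hcon
    push Not at hcon
    obtain ⟨i, hi⟩ := exists_nat_one_div_lt (sub_pos.2 hcon)
    have h1 : rate k E ≤ r - 1 / ((i : ℝ) + 1) := by linarith
    have h2 : eval (prm c') (Q i) = 0 :=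
      hF1 i (Q i) (hQF i) _ ⟨E, _, _, c', hc', h1, rfl⟩
    have h3 := hE (Q i) ⟨_, hmem (Q i)⟩ rfl
    have h4 : (⟨_, hmem (Q i)⟩ : S) * ⟨(aeval (prm c) (Q i))⁻¹, by
        rw [← hu1]; exact Algebra.subset_adjoin ⟨2 * i + 1, rfl⟩⟩ = 1 := by
      apply Subtype.ext
      change aeval (prm c) (Q i) * (aeval (prm c) (Q i))⁻¹ = 1
      exact mul_inv_cancel₀ (hQ i)
    have h5 := congrArg χ h4
    rw [map_mul, map_one, ← h3, h2, zero_mul] at h5
    exact zero_ne_one h5

end specialize

section limits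

variable {K A : ℕ → Type} [∀ i, Field (K i)] [∀ i, IsAlgClosed (K i)] [∀ i, CommRing (A i)]
  [∀ i, Algebra (K i) (A i)] {L : Type} [Field L] {π : (∀ i, K i) →+* L}
  {e : ℕ} {c : ∀ i, Module.Basis (Fin (e + 1)) (K i) (A i)}

/-- the growth rate of the ultraproduct is at least the limit inferior of the growth rates -/
theorem le_rate_ultra (hπ : IsUltra π) (hc : ∀ i, IsFrame (c i)) {x : ℝ}
    (hx : ∀ y < x, ∃ N : ℕ, ∀ i, N ≤ i → y < rate (K i) (A i)) : x ≤ rate L (BC π (UA A)) := by
  by_contra hcon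
  push Not at hcon
  have hLac : IsAlgClosed L := hπ.isAlgClosed
  have hcL : IsFrame (bcBasis π (uaBasis c)) := (isFrame_ua c hc).map (comp_bc π _)
  have hloc := hcL.isLocalRing
  have hfin := finite_of_basis (bcBasis π (uaBasis c))
  have hr1 := one_le_rate (k := L) (BC π (UA A))
  obtain ⟨y, hy1, hy2⟩ := exists_between hcon
  obtain ⟨D, hD, hb⟩ := ultra_bound hπ hc hy1
  obtain ⟨N, hN⟩ := hx y hy2
  obtain ⟨i, hi, hbi⟩ := hb N
  have hci := hc i
  have hloci := hci.isLocalRing
  have hfini := finite_of_basis (c i)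
  have h1 : rate (K i) (A i) ≤ y := by
    rw [rate_eq]
    exact irate_le_of_growth _ D y hD (by linarith) hbi
  exact absurd (hN i hi) (not_lt.2 h1)

end limits

/-- every member of the set of growth rates is the growth rate of a framed algebra -/
theorem mem_growthRates {k : Type} [Field k] [IsAlgClosed k] {e : ℕ} {x : ℝ} :
    x ∈ growthRates k (e + 1) ↔ ∃ (E : Type) (_ : CommRing E) (_ : Algebra k E)
      (c : Module.Basis (Fin (e + 1)) k E), IsFrame c ∧ rate k E = x := by
  constructor
  · rintro ⟨A, _, _, h1, h2, h3, h4⟩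
    obtain ⟨c, hc⟩ := exists_frame h3
    exact ⟨A, _, _, c, hc, h4⟩
  · rintro ⟨E, _, _, c, hc, h⟩
    exact ⟨E, _, _, finite_of_basis c, hc.isLocalRing, finrank_of_basis c, h⟩

/-- two algebraically closed fields of the same characteristic have a common extension -/
theorem exists_amalgam (k K : Type) [Field k] [IsAlgClosed k] [Field K] [IsAlgClosed K]
    (h : ringChar K = ringChar k) : ∃ (L : Type) (_ : Field L) (_ : IsAlgClosed L),
      Nonempty (k →+* L) ∧ Nonempty (K →+* L) := by
  obtain ⟨F, _, _, hF⟩ := exists_common k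
  obtain ⟨φ⟩ := hF k rfl
  obtain ⟨ψ⟩ := hF K h
  let _ : Algebra F k := φ.toAlgebra
  let _ : Algebra F K := ψ.toAlgebra
  have hinj : Function.Injective (Algebra.TensorProduct.includeLeft : k →ₐ[F] k ⊗[F] K) :=
    Algebra.TensorProduct.includeLeft_injective (algebraMap F K).injective
  have hnt : Nontrivial (k ⊗[F] K) := hinj.nontrivial
  obtain ⟨m, hm⟩ := Ideal.exists_maximal (k ⊗[F] K)
  let iF : Field ((k ⊗[F] K) ⧸ m) := Ideal.Quotient.field m
  let q : (k ⊗[F] K) →+* ((k ⊗[F] K) ⧸ m) := Ideal.Quotient.mk m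
  let j : ((k ⊗[F] K) ⧸ m) →+* AlgebraicClosure ((k ⊗[F] K) ⧸ m) := algebraMap _ _
  refine ⟨AlgebraicClosure ((k ⊗[F] K) ⧸ m), inferInstance, inferInstance, ⟨?_⟩, ⟨?_⟩⟩
  · exact (j.comp q).comp (Algebra.TensorProduct.includeLeft : k →ₐ[F] k ⊗[F] K).toRingHom
  · exact (j.comp q).comp (Algebra.TensorProduct.includeRight : K →ₐ[F] k ⊗[F] K).toRingHom

/-- **The growth rates over an uncountable field of the same characteristic** -/
theorem growthRates_subset {k K : Type} [Field k] [IsAlgClosed k] [Field K] [IsAlgClosed K]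
    [Uncountable k] (h : ringChar K = ringChar k) (e : ℕ) :
    growthRates K (e + 1) ⊆ growthRates k (e + 1) := by
  intro x hx
  obtain ⟨E, _, _, c, hc, hE⟩ := mem_growthRates.1 hx
  obtain ⟨L, _, _, ⟨φ⟩, ⟨ψ⟩⟩ := exists_amalgam k K h
  let _ : Algebra k L := φ.toAlgebra
  let _ : Algebra K L := ψ.toAlgebra
  have hcL : IsFrame (Algebra.TensorProduct.basis L c) := hc.map (comp_baseChange (S := L) c)
  obtain ⟨E', _, _, c', hc', hE'⟩ := exists_same_rate (k := k) hcL
  refine mem_growthRates.2 ⟨E', _, _, c', hc', ?_⟩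
  rw [hE', rate_extend hc, hE]

/-- the growth rates of the schemes of a given degree are bounded -/
theorem rates_bounded (e : ℕ) : ∃ B : ℝ, ∀ (K : Type) [Field K] [IsAlgClosed K] (A : Type)
    [CommRing A] [Algebra K A] (c : Module.Basis (Fin (e + 1)) K A), IsFrame c →
      rate K A ≤ B := by
  by_contra hcon
  push Not at hcon
  choose K iF iK A iC iAl c hc hn using fun i : ℕ => hcon i
  obtain ⟨L, _, π, hπ⟩ := exists_ultra K
  obtain ⟨N, hN⟩ := exists_nat_gt (rate L (BC π (UA A)))
  have h1 : (N : ℝ) ≤ rate L (BC π (UA A)) := by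
    refine le_rate_ultra hπ hc fun y hy => ⟨N, fun i hi => ?_⟩
    have h2 : (N : ℝ) ≤ i := by exact_mod_cast hi
    linarith [hn i]
  linarith

/-- **The set of the growth rates over an uncountable field is closed.** -/
theorem growthRates_isClosed {k : Type} [Field k] [IsAlgClosed k] [Uncountable k] (e : ℕ) :
    IsClosed (growthRates k (e + 1)) := by
  classical
  rw [← closure_subset_iff_isClosed]
  intro r hr
  by_contra hcon
  obtain ⟨η, hη, hgap⟩ := exists_gap (k := k) (e + 1) r
  -- approximation from below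
  have h1 : ∀ i : ℕ, ∃ s ∈ growthRates k (e + 1), r - 1 / ((i : ℝ) + 1) < s ∧ s ≤ r := by
    intro i
    have hpos : 0 < min (1 / ((i : ℝ) + 1)) η := by positivity
    obtain ⟨s, hs, hd⟩ := Metric.mem_closure_iff.1 hr _ hpos
    rw [Real.dist_eq, abs_lt] at hd
    have h2 := min_le_left (1 / ((i : ℝ) + 1)) η
    have h3 := min_le_right (1 / ((i : ℝ) + 1)) η
    exact ⟨s, hs, by linarith [hd.2], hgap s hs (by linarith [hd.1])⟩
  choose s hs hs1 hs2 using h1
  choose E iC iA c hc hE using fun i => mem_growthRates.1 (hs i)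
  obtain ⟨L, _, π, hπ⟩ := exists_ultra fun _ : ℕ => k
  have hLac : IsAlgClosed L := hπ.isAlgClosed
  let _ : Algebra k L := (π.comp (Pi.constRingHom ℕ k)).toAlgebra
  have hcL : IsFrame (bcBasis π (uaBasis (K := fun _ => k) c)) :=
    (isFrame_ua (K := fun _ => k) c hc).map (comp_bc π _)
  have hge : r ≤ rate L (BC π (UA E)) := by
    refine le_rate_ultra (K := fun _ => k) hπ hc fun y hy => ?_
    obtain ⟨N, hN⟩ := exists_nat_one_div_lt (sub_pos.2 hy)
    refine ⟨N, fun i hi => ?_⟩
    rw [hE i]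
    refine lt_trans ?_ (hs1 i)
    have h2 : 1 / ((i : ℝ) + 1) ≤ 1 / ((N : ℝ) + 1) := by
      refine one_div_le_one_div_of_le (by positivity) ?_
      have : (N : ℝ) ≤ i := by exact_mod_cast hi
      linarith
    linarith
  have hle : rate L (BC π (UA E)) ≤ r := by
    obtain ⟨F, hF1, hF2⟩ := exists_equations (k := k) e r
    refine (rate_le_iff_equations e r F hF1 hF2 hcL).2 fun Q hQ => ?_
    have h2 : ∀ i, eval (prm (c i)) Q = 0 := fun i =>
      hF1 Q hQ _ ⟨E i, _, _, c i, hc i, by rw [hE i]; exact hs2 i, rfl⟩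
    have h3 : prm (bcBasis π (uaBasis (K := fun _ => k) c)) =
        fun j => π (fun i => prm (c i) j) := by
      funext j
      rw [(comp_bc π (uaBasis (K := fun _ => k) c)).prm j]
      congr 1
      funext i
      exact ((comp_ua (K := fun _ => k) c i).prm j).symm
    rw [h3]
    have h4 : aeval (fun j => π (fun i => prm (c i) j)) Q =
        π (eval₂ (Pi.constRingHom ℕ k) (fun j i => prm (c i) j) Q) := by
      rw [MvPolynomial.hom_eval₂]
      rfl
    rw [h4]
    have h5 : eval₂ (Pi.constRingHom ℕ k) (fun j i => prm (c i) j) Q = 0 := by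
      funext i
      have h6 : (eval₂ (Pi.constRingHom ℕ k) (fun j i => prm (c i) j) Q) i =
          (Pi.evalRingHom (fun _ : ℕ => k) i)
            (eval₂ (Pi.constRingHom ℕ k) (fun j i => prm (c i) j) Q) := rfl
      rw [h6, MvPolynomial.hom_eval₂]
      exact h2 i
    rw [h5, map_zero]
  obtain ⟨E', _, _, c', hc', hE'⟩ := exists_same_rate (k := k) hcL
  apply hcon
  exact mem_growthRates.2 ⟨E', _, _, c', hc', hE'.trans (le_antisymm hle hge)⟩

/-- framed algebras of every degree -/
theorem exists_framed (k : Type) [Field k] (e : ℕ) : ∃ (E : Type) (_ : CommRing E)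
    (_ : Algebra k E) (c : Module.Basis (Fin (e + 1)) k E), IsFrame c := by
  have hmon : (Polynomial.X ^ (e + 1) : Polynomial k).Monic := Polynomial.monic_X_pow _
  have hdeg : (Polynomial.X ^ (e + 1) : Polynomial k).natDegree = e + 1 :=
    Polynomial.natDegree_X_pow _
  let pb := AdjoinRoot.powerBasis' hmon
  have hdim : pb.dim = e + 1 := by
    rw [AdjoinRoot.powerBasis'_dim, hdeg]
  let c : Module.Basis (Fin (e + 1)) k (AdjoinRoot (Polynomial.X ^ (e + 1) : Polynomial k)) :=
    pb.basis.reindex (finCongr hdim)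
  have hc : ∀ j, c j = pb.gen ^ (j : ℕ) := by
    intro j
    rw [Module.Basis.reindex_apply, PowerBasis.basis_eq_pow]
    rfl
  have hroot : pb.gen ^ (e + 1) = 0 := by
    have h1 : pb.gen = AdjoinRoot.root (Polynomial.X ^ (e + 1) : Polynomial k) :=
      AdjoinRoot.powerBasis'_gen hmon
    have h2 := AdjoinRoot.eval₂_root (Polynomial.X ^ (e + 1) : Polynomial k)
    rw [Polynomial.eval₂_pow, Polynomial.eval₂_X] at h2
    rw [h1]
    exact h2
  refine ⟨_, _, _, c, by rw [hc]; exact pow_zero _, ?_⟩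
  rw [eq_bot_iff]
  have h1 : Ideal.span (Set.range fun j : Fin e => c j.succ) ≤ Ideal.span {pb.gen} := by
    rw [Ideal.span_le]
    rintro _ ⟨j, rfl⟩
    change c j.succ ∈ Ideal.span {pb.gen}
    rw [hc, Fin.val_succ, pow_succ pb.gen]
    exact Ideal.mul_mem_left _ _ (Ideal.subset_span rfl)
  refine (Ideal.pow_right_mono h1 (e + 1)).trans ?_
  rw [Ideal.span_singleton_pow, hroot]
  simp

/-- **A framed algebra of maximal growth rate.** -/
theorem exists_max (P : ℕ → Prop) (hP : {p | P p}.Infinite → P 0) (e : ℕ)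
    (hne : ∃ (K : Type) (_ : Field K), IsAlgClosed K ∧ P (ringChar K)) :
    ∃ (L : Type) (_ : Field L) (_ : IsAlgClosed L) (E : Type) (_ : CommRing E) (_ : Algebra L E)
      (c : Module.Basis (Fin (e + 1)) L E), P (ringChar L) ∧ IsFrame c ∧
        ∀ (K : Type) [Field K] [IsAlgClosed K], P (ringChar K) → ∀ (A : Type) [CommRing A]
          [Algebra K A] (c' : Module.Basis (Fin (e + 1)) K A), IsFrame c' →
            rate K A ≤ rate L E := by
  classical
  let R : Set ℝ := {x | ∃ (K : Type) (_ : Field K) (_ : IsAlgClosed K) (A : Type)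
    (_ : CommRing A) (_ : Algebra K A) (c : Module.Basis (Fin (e + 1)) K A), P (ringChar K) ∧
      IsFrame c ∧ rate K A = x}
  obtain ⟨B, hB⟩ := rates_bounded e
  have hbdd : BddAbove R := ⟨B, by
    rintro x ⟨K, _, _, A, _, _, c, -, hc, rfl⟩
    exact hB K A c hc⟩
  have hRne : R.Nonempty := by
    obtain ⟨K, _, hK, hKP⟩ := hne
    obtain ⟨E, _, _, c, hc⟩ := exists_framed K e
    exact ⟨_, K, _, hK, E, _, _, c, hKP, hc, rfl⟩
  have h1 : ∀ i : ℕ, ∃ x ∈ R, sSup R - 1 / ((i : ℝ) + 1) < x := by
    intro i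
    refine exists_lt_of_lt_csSup hRne ?_
    have : 0 < 1 / ((i : ℝ) + 1) := by positivity
    linarith
  choose x hx hx1 using h1
  choose K iF iK A iC iA c hKP hc hrate using hx
  obtain ⟨L, _, π, hπ⟩ := exists_ultra K
  have hLac : IsAlgClosed L := hπ.isAlgClosed
  refine ⟨L, _, hLac, BC π (UA A), _, _, bcBasis π (uaBasis c), hπ.char_mem P hP hKP,
    (isFrame_ua c hc).map (comp_bc π _), fun K' _ _ hK' A' _ _ c' hc' => ?_⟩
  have h2 : rate K' A' ≤ sSup R := le_csSup hbdd
    ⟨K', inferInstance, inferInstance, A', inferInstance, inferInstance, c', hK', hc', rfl⟩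
  refine h2.trans ?_
  refine le_rate_ultra hπ hc fun y hy => ?_
  obtain ⟨N, hN⟩ := exists_nat_one_div_lt (sub_pos.2 hy)
  refine ⟨N, fun i hi => ?_⟩
  rw [hrate i]
  refine lt_trans ?_ (hx1 i)
  have h3 : 1 / ((i : ℝ) + 1) ≤ 1 / ((N : ℝ) + 1) := by
    refine one_div_le_one_div_of_le (by positivity) ?_
    have : (N : ℝ) ≤ i := by exact_mod_cast hi
    linarith
  linarith

/-- **The growth rates in large characteristics** -/
theorem large_char (e : ℕ) {x y : ℝ} (hxy : x < y)
    (h : ∀ (K : Type) [Field K] [IsAlgClosed K], ringChar K = 0 → RateLe K e x) :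
    ∃ N : ℕ, ∀ (K : Type) [Field K] [IsAlgClosed K], N ≤ ringChar K → RateLe K e y := by
  by_contra hcon
  simp only [RateLe] at hcon
  push Not at hcon
  choose K iF iK hK A iC iA c hc hr using fun i : ℕ => hcon i
  obtain ⟨L, _, π, hπ⟩ := exists_ultra K
  have hLac : IsAlgClosed L := hπ.isAlgClosed
  have h0 : ringChar L = 0 := closed_zero.2 K (fun i => Or.inr (hK i)) L π hπ
  have h1 := h L h0 _ _ ((isFrame_ua c hc).map (comp_bc π _))
  have h2 : y ≤ rate L (BC π (UA A)) :=
    le_rate_ultra hπ hc fun z hz => ⟨0, fun i _ => hz.trans (hr i)⟩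
  linarith

end Pool.Agent.Helper15K1.QC
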