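import Pool.Agent.Helper15K1.QC.Std

/-!
# Lines in standard position as solutions of systems of polynomial equations
-/

set_option autoImplicit false
set_option linter.unusedSectionVars false

namespace Pool.Agent.Helper15K1.QC

open scoped TensorProduct
open Pool.Agent.H826R3.SM Pool.Agent.TH671.DU Pool.Agent.N86.SQ Pool.Agent.N823
open MvPolynomial

/-- `p` are points and `q` coefficients such that the coordinates (with the structure `γ`) of the
monomials of degree `E ≤ m` are the combinations of their values in the points. -/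
def IsSol {K : Type} [CommRing K] {e : ℕ} (γ : (Fin e → ℕ) → Fin (e + 1) → K) (n m W : ℕ)
    (p : Fin W → Fin n × Fin e → K) (q : (Fin n → Fin (e + 1)) → Fin (m + 1) → Fin W → K) : Prop :=
  ∀ (J : Fin n → Fin (e + 1)) (E : Fin (m + 1)) (s : Fin n × Fin e → Fin (m + 1)),
    ∑ v, (s v : ℕ) = E →
      ∑ w, q J E w * ∏ v, p w v ^ (s v : ℕ) = ∏ i, γ (fun j => s (i, j)) (J i)

theorem IsSol.map {K L : Type} [CommRing K] [CommRing L] (φ : K →+* L) {e : ℕ}
    {γ : (Fin e → ℕ) → Fin (e + 1) → K} {n m W : ℕ} {p : Fin W → Fin n × Fin e → K}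
    {q : (Fin n → Fin (e + 1)) → Fin (m + 1) → Fin W → K} (h : IsSol γ n m W p q) :
    IsSol (fun t l => φ (γ t l)) n m W (fun w v => φ (p w v)) (fun J E w => φ (q J E w)) := by
  intro J E s hs
  have h1 := congrArg φ (h J E s hs)
  rw [map_sum, map_prod] at h1
  rw [← h1]
  refine Finset.sum_congr rfl fun w _ => ?_
  rw [map_mul, map_prod]
  congr 1
  refine Finset.prod_congr rfl fun v _ => ?_
  rw [map_pow]

theorem IsSol.of_injective {K L : Type} [CommRing K] [CommRing L] (φ : K →+* L)
    (hφ : Function.Injective φ) {e : ℕ}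
    {γ : (Fin e → ℕ) → Fin (e + 1) → K} {n m W : ℕ} {p : Fin W → Fin n × Fin e → K}
    {q : (Fin n → Fin (e + 1)) → Fin (m + 1) → Fin W → K}
    (h : IsSol (fun t l => φ (γ t l)) n m W (fun w v => φ (p w v)) (fun J E w => φ (q J E w))) :
    IsSol γ n m W p q := by
  intro J E s hs
  apply hφ
  rw [map_sum, map_prod, ← h J E s hs]
  refine Finset.sum_congr rfl fun w _ => ?_
  rw [map_mul, map_prod]
  congr 1
  refine Finset.prod_congr rfl fun v _ => ?_
  rw [map_pow]

section

variable {k : Type} [Field k] {A : Type} [CommRing A] [Algebra k A] {e : ℕ}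
  (c : Module.Basis (Fin (e + 1)) k A)

/-- the coordinates of the monomials in the standard generators of the power -/
theorem repr_monomial (n : ℕ) (s : Fin n × Fin e →₀ ℕ) (J : Fin n → Fin (e + 1)) :
    (Basis.piTensorProduct (fun _ : Fin n => c)).repr (aeval (std c n) (monomial s (1 : k))) J =
      ∏ i, gam c (fun j => s (i, j)) (J i) := by
  have h1 : aeval (std c n) (monomial s (1 : k)) =
      (PiTensorProduct.tprod k fun i => ∏ j, c j.succ ^ s (i, j) : Pow k A n) := by
    rw [aeval_monomial, map_one, one_mul, Finsupp.prod_fintype _ _ (fun _ => pow_zero _),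
      tprod_eq_prod_single, Fintype.prod_prod_type]
    refine Finset.prod_congr rfl fun i _ => ?_
    rw [map_prod]
    refine Finset.prod_congr rfl fun j _ => ?_
    rw [map_pow]
    rfl
  rw [h1, Basis.piTensorProduct_repr_tprod_apply]
  rfl

theorem std_iff (n W : ℕ) : Std c n W ↔ ∃ p q, IsSol (gam c) n ((e + 1) * n) W p q := by
  classical
  constructor
  · rintro ⟨p, hp⟩
    have key : ∀ (J : Fin n → Fin (e + 1)) (E : Fin ((e + 1) * n + 1)), ∃ a : Fin W → k,
        ∀ M : MvPolynomial (Fin n × Fin e) k, M.IsHomogeneous E →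
          ((Basis.piTensorProduct (fun _ : Fin n => c)).coord J) (aeval (std c n) M) =
            ∑ w, a w * eval (p w) M := fun J E =>
      exists_coeffs (Nat.lt_succ_iff.1 E.2) hp _
    choose q hq using key
    refine ⟨p, q, fun J E s hs => ?_⟩
    let s' : Fin n × Fin e →₀ ℕ := Finsupp.equivFunOnFinite.symm fun v => (s v : ℕ)
    have hs' : s'.degree = E := by
      rw [Finsupp.degree_eq_sum]
      exact hs
    have h1 := hq J E (monomial s' 1) (isHomogeneous_monomial _ hs')
    rw [Module.Basis.coord_apply, repr_monomial] at h1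
    refine Eq.trans ?_ h1.symm
    refine Finset.sum_congr rfl fun w _ => ?_
    rw [eval_monomial, one_mul, Finsupp.prod_fintype _ _ (fun _ => pow_zero _)]
    rfl
  · rintro ⟨p, q, h⟩
    refine ⟨p, fun E hE M hM h0 => ?_⟩
    apply (Basis.piTensorProduct (fun _ : Fin n => c)).repr.injective
    rw [map_zero]
    ext J
    rw [Finsupp.zero_apply]
    let E' : Fin ((e + 1) * n + 1) := ⟨E, Nat.lt_succ_of_le hE⟩
    have hterm : ∀ s ∈ M.support, (Basis.piTensorProduct (fun _ : Fin n => c)).repr
        (aeval (std c n) (monomial s (coeff s M))) J =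
        ∑ w, q J E' w * (coeff s M * ∏ v, p w v ^ (s v)) := by
      intro s hs
      have hdeg : s.degree = E := by
        have := hM (mem_support_iff.1 hs)
        rwa [Finsupp.degree_eq_weight_one]
      have hle : ∀ v, s v < (e + 1) * n + 1 := fun v =>
        Nat.lt_succ_of_le ((Finsupp.le_degree v s).trans (hdeg.le.trans hE))
      have h1 := h J E' (fun v => ⟨s v, hle v⟩) (by
        change ∑ v, s v = E
        rw [← hdeg, Finsupp.degree_eq_sum])
      have h2 : monomial s (coeff s M) = coeff s M • monomial s (1 : k) := by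
        rw [smul_monomial, smul_eq_mul, mul_one]
      rw [h2, map_smul, map_smul, Finsupp.smul_apply, repr_monomial, smul_eq_mul]
      change coeff s M * (∏ i, gam c (fun j => s (i, j)) (J i)) = _
      rw [← show _ = ∏ i, gam c (fun j => s (i, j)) (J i) from h1, Finset.mul_sum]
      refine Finset.sum_congr rfl fun w _ => ?_
      ring
    conv_lhs => rw [M.as_sum, map_sum, map_sum, Finsupp.finsetSum_apply]
    rw [Finset.sum_congr rfl hterm, Finset.sum_comm]
    refine Finset.sum_eq_zero fun w _ => ?_
    rw [← Finset.mul_sum]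
    have h3 : ∑ s ∈ M.support, coeff s M * ∏ v, p w v ^ (s v) = eval (p w) M := by
      rw [eval_eq']
    rw [h3, h0, mul_zero]

end

end Pool.Agent.Helper15K1.QC
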