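import Pool.Agent.Helper15K1.QC.Frame

/-!
# Lines in standard position
-/

set_option autoImplicit false
set_option linter.unusedSectionVars false

namespace Pool.Agent.Helper15K1.QC

open scoped TensorProduct PowerSeries Topology
open Pool.Agent.H826R3.SM Pool.Agent.TH671.DU Pool.Agent.N86.SQ Pool.Agent.N823
open MvPolynomial

variable {k : Type} [Field k] [IsAlgClosed k] {A : Type} [CommRing A] [Algebra k A]

/-- **From families to lines, for powers** (with given generators). -/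
theorem linesUpTo_pow [Module.Finite k A] {D : ℕ}
    (hA : Fam k A D) {σ : Type} [Finite σ] (a : σ → A) :
    ∃ e h : ℕ, ∀ n m : ℕ, ∃ W ≤ D ^ n * ((m * (n * h) + 1) * (m + 1) ^ e),
      LinesUpTo k (fun v : Fin n × σ => sg k A v.1 (a v.2)) m W := by
  classical
  have : Infinite k := IsAlgClosed.instInfinite
  obtain ⟨O, _, _, _, _, _, T, _, h, q, hT, hJ⟩ := joint_of_fam hA (aeval a) fun j =>
    (Module.finBasis k A).coord j
  obtain ⟨η, hη⟩ := exists_retraction (k := k) (O := O)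
  refine ⟨Module.finrank k⟦X⟧ O, h, fun n m => ?_⟩
  let em := Infinite.natEmbedding k
  let I := (Fin n → T) × (Fin (m * (n * h) + 1) × (Fin (Module.finrank k⟦X⟧ O) → Fin (m + 1)))
  let p : I → Fin n × σ → k := fun z => gpt em (fun v => q (z.1 v.1) v.2) (n * h) m z.2
  refine ⟨Fintype.card I, ?_, fun w => p ((Fintype.equivFin I).symm w), fun e he M hMh hM => ?_⟩
  · simp only [I, Fintype.card_prod, Fintype.card_fun, Fintype.card_fin]
    gcongr
  · have hM' : ∀ z, eval (p z) M = 0 := by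
      intro z
      have h1 := hM (Fintype.equivFin I z)
      change eval (p ((Fintype.equivFin I).symm (Fintype.equivFin I z))) M = 0 at h1
      rwa [(Fintype.equivFin I).symm_apply_apply] at h1
    rw [← Module.forall_dual_apply_eq_zero_iff k]
    intro φ
    obtain ⟨c, hc⟩ := hJ.pow n φ
    obtain ⟨g, hg1, hg2⟩ := hc M
    rw [← hg2]
    have h1 : PowerSeries.coeff (n * h) (η (algebraMap k⟦X⟧ O
        (PowerSeries.X ^ (n * h) * g))) = PowerSeries.constantCoeff g := by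
      rw [← mul_one (algebraMap k⟦X⟧ O _), ← Algebra.smul_def, map_smul, hη, smul_eq_mul,
        mul_one, PowerSeries.coeff_X_pow_mul', if_pos le_rfl, Nat.sub_self,
        PowerSeries.coeff_zero_eq_constantCoeff_apply]
    rw [← h1, ← hg1, map_sum, map_sum]
    refine Finset.sum_eq_zero fun t _ => ?_
    obtain ⟨c', hc'⟩ := extract_all em η (c t) (fun v : Fin n × σ => q (t v.1) v.2) (n * h) m
    rw [hc' e _ he hMh]
    refine Finset.sum_eq_zero fun w _ => ?_
    rw [show eval (gpt em (fun v : Fin n × σ => q (t v.1) v.2) (n * h) m w) M = 0 from hM' (t, w),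
      mul_zero]

/-- regrouping -/
theorem linesUpTo_regroup (aug : A →ₐ[k] k) {σ : Type} (a : σ → A) {N : ℕ} (hN : 0 < N)
    (n m W : ℕ) (h : LinesUpTo k (fun v : Fin (n / N + 1) × (Fin N × σ) =>
      sg k (Pow k A N) v.1 (sg k A v.2.1 (a v.2.2))) m W) :
    LinesUpTo k (fun v : Fin n × σ => sg k A v.1 (a v.2)) m W := by
  have hl : ∀ l : Fin n, (l : ℕ) / N < n / N + 1 := fun l =>
    Nat.lt_succ_of_le (Nat.div_le_div_right l.2.le)
  have hm : ∀ l : Fin n, (l : ℕ) % N < N := fun l => Nat.mod_lt _ hN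
  let ι : Fin n × σ → Fin (n / N + 1) × (Fin N × σ) := fun v =>
    (⟨(v.1 : ℕ) / N, hl v.1⟩, (⟨(v.1 : ℕ) % N, hm v.1⟩, v.2))
  obtain ⟨p, hp⟩ := h
  refine ⟨fun w v => p w (ι v), fun e he M hMh hM => ?_⟩
  have h1 := hp e he (rename ι M) (hMh.rename_isHomogeneous) fun w => by
    rw [eval_rename]
    exact hM w
  let G := powLift fun i : Fin (n / N + 1) => ff aug N n i
  have h2 := congrArg G h1
  rw [map_zero, MvPolynomial.comp_aeval_apply, aeval_rename] at h2
  have h3 : ((fun i => G (sg k (Pow k A N) i.1 (sg k A i.2.1 (a i.2.2)))) ∘ ι) =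
      fun v : Fin n × σ => sg k A v.1 (a v.2) := by
    funext v
    change G (sg k (Pow k A N) (ι v).1 (sg k A (ι v).2.1 (a (ι v).2.2))) = _
    change powLift (fun i : Fin (n / N + 1) => ff aug N n i) (sg k (Pow k A N) (ι v).1 _) = _
    rw [powLift_single]
    change ff aug N n ((v.1 : ℕ) / N) (sg k A ⟨(v.1 : ℕ) % N, hm v.1⟩ (a v.2)) = _
    have hlM : ((v.1 : ℕ) / N) * N + (v.1 : ℕ) % N = v.1 := Nat.div_add_mod' _ _
    have h2 : ((v.1 : ℕ) / N) * N + (⟨(v.1 : ℕ) % N, hm v.1⟩ : Fin N) < n := by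
      change ((v.1 : ℕ) / N) * N + (v.1 : ℕ) % N < n
      rw [hlM]
      exact v.1.2
    rw [ff_single aug N n _ _ h2]
    congr 1
    exact congrArg (fun i => sg k A i) (Fin.ext hlM)
  rw [h3] at h2
  exact h2

section frame

variable {e : ℕ} {c : Module.Basis (Fin (e + 1)) k A}

/-- the generators of the powers of a framed algebra -/
noncomputable def std {k : Type} [Field k] {A : Type} [CommRing A] [Algebra k A] {e : ℕ}
    (c : Module.Basis (Fin (e + 1)) k A) (n : ℕ) : Fin n × Fin e → Pow k A n :=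
  fun v => sg k A v.1 (c v.2.succ)

/-- the `n`-th power, embedded by the standard generators, lies in `W` lines through the origin -/
def Std {k : Type} [Field k] {A : Type} [CommRing A] [Algebra k A] {e : ℕ}
    (c : Module.Basis (Fin (e + 1)) k A) (n W : ℕ) : Prop :=
  LinesUpTo k (std c n) ((e + 1) * n) W

/-- the augmentation -/
theorem exists_aug (A : Type) [CommRing A] [Algebra k A] [Module.Finite k A] [IsLocalRing A] :
    Nonempty (A →ₐ[k] k) := by
  obtain ⟨aug, -⟩ := local_gens (k := k) A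
  exact ⟨aug⟩

/-- **The number of lines in standard position grows at most like `deg + δ`.** -/
theorem std_growth (hc : IsFrame c) (η : ℝ) (hη : 0 < η) : ∃ C : ℝ, 0 ≤ C ∧ ∀ n : ℕ, ∃ W : ℕ,
    (W : ℝ) ≤ C * (rate k A + η) ^ n ∧ Std c n W := by
  classical
  have := hc.isLocalRing
  have := finite_of_basis c
  obtain ⟨aug⟩ := exists_aug (k := k) A
  have hr1 := one_le_rate (k := k) A
  set x' : ℝ := rate k A + η / 2 with hx'
  set x : ℝ := rate k A + η with hx
  have hlt : rate k A < x' := by linarith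
  have hx1 : 1 ≤ x' := by linarith
  have hxx : x' < x := by linarith
  have h1 := hlt
  rw [rate_eq A] at h1
  obtain ⟨N, hN⟩ := exists_lt_of_ciInf_lt h1
  obtain ⟨D', hD'⟩ := exists_fam (k := k) (Pow k A (N + 1))
  have hD := mdeg_spec hD'
  set D := mdeg k (Pow k A (N + 1)) with hDdef
  have hDx : (D : ℝ) ≤ x' ^ (N + 1) := by
    have h3 := pow_le_pow_left₀ (by positivity) hN.le (N + 1)
    refine le_trans (le_of_eq ?_) h3
    rw [← Real.rpow_natCast, ← Real.rpow_mul (Nat.cast_nonneg _)]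
    push_cast
    rw [one_div, inv_mul_cancel₀ (by positivity), Real.rpow_one]
  obtain ⟨e', h, hlp⟩ := linesUpTo_pow hD (std c (N + 1))
  set s : ℕ := (e + 1) * (N + 1) + 1 with hs
  set K : ℝ := ((s : ℝ) * h + 1) * (s + 1) ^ e' with hK
  obtain ⟨B, hB0, hB⟩ := poly_mul_geom_bdd (e' + 2) (z := x' / x) (by positivity)
    ((div_lt_one (by linarith)).2 hxx)
  refine ⟨K * 2 ^ (e' + 2) * x' ^ (N + 1) * (B / (x' / x)), by positivity, fun n => ?_⟩
  set j : ℕ := n / (N + 1) + 1 with hj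
  obtain ⟨W, hW, hWl⟩ := hlp j (s * j)
  have hjn0 : n < (N + 1) * j := by
    rw [hj]
    exact Nat.lt_mul_div_succ n (Nat.succ_pos N)
  refine ⟨W, ?_, ?_⟩
  swap
  · have h2 : LinesUpTo k (std c n) (s * j) W :=
      linesUpTo_regroup aug (fun j : Fin e => c j.succ) (Nat.succ_pos N) n (s * j) W hWl
    obtain ⟨p, hp⟩ := h2
    refine ⟨p, fun i hi M hM1 hM2 => hp i (hi.trans ?_) M hM1 hM2⟩
    calc (e + 1) * n ≤ (e + 1) * ((N + 1) * j) := Nat.mul_le_mul_left _ hjn0.le
      _ = ((e + 1) * (N + 1)) * j := by ring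
      _ ≤ s * j := Nat.mul_le_mul_right _ (Nat.le_succ _)
  have hjn : (N + 1) * j ≤ n + (N + 1) := by
    have := Nat.mul_div_le n (N + 1)
    rw [hj, mul_add, mul_one]
    omega
  have hj1 : (j : ℝ) + 1 ≤ 2 * (n + 1) := by
    have h3 : j ≤ n + 1 := by
      rw [hj]
      exact Nat.succ_le_succ (Nat.div_le_self _ _)
    have h4 : (j : ℝ) ≤ n + 1 := by exact_mod_cast h3
    have h5 : (0 : ℝ) ≤ n := Nat.cast_nonneg _
    linarith
  have hj0 : (0 : ℝ) ≤ j := Nat.cast_nonneg _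
  have hc0 : (0 : ℝ) ≤ s := Nat.cast_nonneg _
  have hh0 : (0 : ℝ) ≤ h := Nat.cast_nonneg _
  have hn0 : (0 : ℝ) ≤ n := Nat.cast_nonneg _
  have hW' : (W : ℝ) ≤ (D : ℝ) ^ j * (((s : ℝ) * j * (j * h) + 1) * (s * j + 1) ^ e') := by
    exact_mod_cast hW
  have hDj : (D : ℝ) ^ j ≤ x' ^ (N + 1) * x' ^ n := by
    calc (D : ℝ) ^ j ≤ (x' ^ (N + 1)) ^ j := pow_le_pow_left₀ (Nat.cast_nonneg _) hDx _
      _ = x' ^ ((N + 1) * j) := (pow_mul _ _ _).symm
      _ ≤ x' ^ (n + (N + 1)) := pow_le_pow_right₀ hx1 hjn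
      _ = x' ^ (N + 1) * x' ^ n := by rw [pow_add, mul_comm]
  have hp1 : (s : ℝ) * j * (j * h) + 1 ≤ (s * h + 1) * (j + 1) ^ 2 := by
    have h6 : (0 : ℝ) ≤ s * h := by positivity
    nlinarith [mul_nonneg h6 hj0, mul_nonneg hj0 hj0]
  have hp2 : ((s : ℝ) * j + 1) ^ e' ≤ (s + 1) ^ e' * (j + 1) ^ e' := by
    rw [← mul_pow]
    refine pow_le_pow_left₀ (by positivity) ?_ _
    nlinarith
  have hp3 : ((s : ℝ) * j * (j * h) + 1) * (s * j + 1) ^ e' ≤
      K * 2 ^ (e' + 2) * (n + 1) ^ (e' + 2) := by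
    calc ((s : ℝ) * j * (j * h) + 1) * (s * j + 1) ^ e'
        ≤ ((s * h + 1) * (j + 1) ^ 2) * ((s + 1) ^ e' * (j + 1) ^ e') :=
          mul_le_mul hp1 hp2 (by positivity) (by positivity)
      _ = K * (j + 1) ^ (e' + 2) := by rw [hK, pow_add]; ring
      _ ≤ K * (2 * (n + 1)) ^ (e' + 2) := by
          refine mul_le_mul_of_nonneg_left ?_ (by positivity)
          exact pow_le_pow_left₀ (by positivity) hj1 _
      _ = K * 2 ^ (e' + 2) * (n + 1) ^ (e' + 2) := by rw [mul_pow]; ring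
  have hx0 : 0 < x' / x := by
    have : 0 < x := by linarith
    positivity
  have hgeo : ((n : ℝ) + 1) ^ (e' + 2) * x' ^ n ≤ B / (x' / x) * x ^ n := by
    have h7 := hB (n + 1)
    push_cast at h7
    have hxn : x' ^ n = (x' / x) ^ n * x ^ n := by
      rw [← mul_pow, div_mul_cancel₀ _ (by linarith : x ≠ 0).symm.symm]
    rw [hxn, ← mul_assoc]
    refine mul_le_mul_of_nonneg_right ?_ (pow_nonneg (by linarith) _)
    rw [le_div_iff₀ hx0]
    calc ((n : ℝ) + 1) ^ (e' + 2) * (x' / x) ^ n * (x' / x)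
        = ((n : ℝ) + 1) ^ (e' + 2) * (x' / x) ^ (n + 1) := by rw [pow_succ]; ring
      _ ≤ B := h7
  calc (W : ℝ) ≤ (D : ℝ) ^ j * (((s : ℝ) * j * (j * h) + 1) * (s * j + 1) ^ e') := hW'
    _ ≤ (x' ^ (N + 1) * x' ^ n) * (K * 2 ^ (e' + 2) * (n + 1) ^ (e' + 2)) :=
        mul_le_mul hDj hp3 (by positivity) (by positivity)
    _ = K * 2 ^ (e' + 2) * x' ^ (N + 1) * ((n + 1) ^ (e' + 2) * x' ^ n) := by ring
    _ ≤ K * 2 ^ (e' + 2) * x' ^ (N + 1) * (B / (x' / x) * x ^ n) :=
        mul_le_mul_of_nonneg_left hgeo (by positivity)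
    _ = K * 2 ^ (e' + 2) * x' ^ (N + 1) * (B / (x' / x)) * x ^ n := by ring

/-- **From lines in standard position to smoothable schemes.** -/
theorem mdeg_of_std (hc : IsFrame c) {n W : ℕ} (h : Std c n W) :
    mdeg k (Pow k A n) ≤ W * ((e + 1) * n + 2) := by
  have h1 := inLines_of_linesUpTo (adjoin_pow hc.adjoin n) (nil_pow (k := k) _ e hc.2 n) h
  exact TH671.DU.mdeg_le (fam_pow_of_lines hc.adjoin hc.2 h1)

end frame

end Pool.Agent.Helper15K1.QC
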