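import Pool.Agent.Helper15K1.QC.Main

/-!
# The definitions used in the statements, and their comparison with those of the library
-/

set_option autoImplicit false
set_option linter.unusedSectionVars false

namespace Pool.Agent.Helper15K1.QC

open scoped TensorProduct PowerSeries Topology
open Pool.Agent.H826R3.SM Pool.Agent.TH671.DU Pool.Agent.N86.SQ Pool.Agent.N823
open MvPolynomial Filter

/-- `A` is, as a `k`-algebra, the quotient of the `k⟦X⟧`-algebra `B` by the ideal `(X)`. -/
def IsSpecialFibre (k : Type) [Field k] (B A : Type) [CommRing B] [Algebra k⟦X⟧ B] [CommRing A]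
    [Algebra k A] : Prop :=
  ∃ π : B →+* A, Function.Surjective π ∧
    RingHom.ker π = Ideal.span {algebraMap k⟦X⟧ B PowerSeries.X} ∧
    ∀ x : k, π (algebraMap k⟦X⟧ B (PowerSeries.C x)) = algebraMap k A x

/-- `Spec A` is smoothable: `A` is the special fibre of a finite flat `k⟦X⟧`-algebra with
geometrically reduced generic fibre. -/
def IsSmoothable (k : Type) [Field k] (A : Type) [CommRing A] [Algebra k A] : Prop :=
  ∃ (B : Type) (_ : CommRing B) (_ : Algebra k⟦X⟧ B),
    Module.Finite k⟦X⟧ B ∧ Module.Flat k⟦X⟧ B ∧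
    Algebra.IsGeometricallyReduced (LaurentSeries k) (LaurentSeries k ⊗[k⟦X⟧] B) ∧
    IsSpecialFibre k B A

/-- `Spec A` is a closed subscheme of a finite smoothable scheme of degree `D`. -/
def LiesIn (k : Type) [Field k] (A : Type) [CommRing A] [Algebra k A] (D : ℕ) : Prop :=
  ∃ (B : Type) (_ : CommRing B) (_ : Algebra k B), Module.Finite k B ∧ IsSmoothable k B ∧
    Module.finrank k B = D ∧ ∃ f : B →ₐ[k] A, Function.Surjective f

/-- The smoothability defect of `Spec A`. -/
noncomputable def delta (k : Type) [Field k] (A : Type) [CommRing A] [Algebra k A] : ℕ :=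
  sInf {e : ℕ | LiesIn k A (Module.finrank k A + e)}

/-- Q1 for `Γ = Spec A`: for every `ε > 0` the ratio `δ(Γ^n) / (deg Γ)^{(1+ε)n}` tends to `0`. Here
`Pow k A n` is the `n`-th tensor power of `A`. -/
def Q1 (k : Type) [Field k] (A : Type) [CommRing A] [Algebra k A] : Prop :=
  ∀ ε : ℝ, 0 < ε → Tendsto (fun n : ℕ => (delta k (Pow k A n) : ℝ) /
    (Module.finrank k A : ℝ) ^ ((1 + ε) * (n : ℝ))) atTop (𝓝 0)

section

variable {k : Type} [Field k] {A : Type} [CommRing A] [Algebra k A]

theorem isSpecialFibre_iff (B : Type) [CommRing B] [Algebra k⟦X⟧ B] : IsSpecialFibre k B A ↔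
    IsFibre B A (PowerSeries.X : k⟦X⟧) (PowerSeries.C (R := k)) := by
  constructor
  · rintro ⟨π, hπ, hker, hc⟩
    refine ⟨(Ideal.quotEquivOfEq hker.symm).trans (RingHom.quotientKerEquivOfSurjective hπ),
      fun x => ?_⟩
    rw [← hc x]
    rfl
  · rintro ⟨e, he⟩
    refine ⟨e.toRingHom.comp (Ideal.Quotient.mk _), e.surjective.comp Ideal.Quotient.mk_surjective,
      ?_, he⟩
    ext x
    rw [RingHom.mem_ker]
    change e (Ideal.Quotient.mk _ x) = 0 ↔ _
    rw [map_eq_zero_iff e e.injective, Ideal.Quotient.eq_zero_iff_mem]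

theorem isSmoothable_iff : IsSmoothable k A ↔ Smoothable k A := by
  unfold IsSmoothable Smoothable
  refine exists_congr fun B => exists_congr fun _ => exists_congr fun _ => ?_
  rw [isSpecialFibre_iff]

theorem liesIn_iff (D : ℕ) : LiesIn k A D ↔ InSmoothable k A D := by
  unfold LiesIn InSmoothable
  refine exists_congr fun B => exists_congr fun _ => exists_congr fun _ => ?_
  rw [isSmoothable_iff]

variable (k A) in
theorem delta_eq : delta k A = defect k A := by
  unfold delta defect
  congr 1
  ext e
  exact liesIn_iff _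

variable (k A) in
theorem q1_iff : Q1 k A ↔ QOne k A := by
  unfold Q1 QOne
  simp only [delta_eq]

end

/-- Q1 holds for all nonempty finite schemes of degree at most `d` over `K`. -/
def Q1UpTo (K : Type) [Field K] (d : ℕ) : Prop :=
  ∀ (A : Type) [CommRing A] [Algebra K A] [Module.Finite K A] [Nontrivial A],
    Module.finrank K A ≤ d → Q1 K A

/-- The ratio of Q1 is at most `ε` for all large `n`, uniformly for all nonempty finite schemes of
degree at most `d` over all algebraically closed fields with characteristic in `S`. -/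
def UniformQ1 (S : ℕ → Prop) (d : ℕ) (ε : ℝ) : Prop :=
  ∃ n₀ : ℕ, ∀ (K : Type) [Field K] [IsAlgClosed K], S (ringChar K) →
    ∀ (A : Type) [CommRing A] [Algebra K A] [Module.Finite K A] [Nontrivial A],
      Module.finrank K A ≤ d → ∀ n : ℕ, n₀ ≤ n →
        (delta K (Pow K A n) : ℝ) ≤ ε * (Module.finrank K A : ℝ) ^ ((1 + ε) * (n : ℝ))

/-- The power `Γ^n` of `Γ = Spec A` certifies Q1 with the constant `ε`:
`(deg Γ)^n + δ(Γ^n) < (deg Γ + ε)^n`. -/
def Certificate (K : Type) [Field K] (A : Type) [CommRing A] [Algebra K A] (ε : ℝ) (n : ℕ) :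
    Prop :=
  (Module.finrank K A : ℝ) ^ n + delta K (Pow K A n) < ((Module.finrank K A : ℝ) + ε) ^ n

/-- The polynomials in `F` decide Q1 for the local algebras `A` of degree `e + 1` over all
algebraically closed extension fields `K` of `k`: Q1 holds for `Spec A` if and only if they vanish
at the vector `par c` of the structure constants of `A` and of the coordinates of the unit, for
every basis `c` of `A` which consists of `1` and of elements which generate a nilpotent ideal. -/
def DecidesQ1 (k : Type) [Field k] (e : ℕ) (F : Finset (MvPolynomial (PIdx (e + 1)) k)) : Prop :=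
  ∀ (K : Type) [Field K] [IsAlgClosed K] [Algebra k K] (A : Type) [CommRing A] [Algebra K A]
    (c : Module.Basis (Fin (e + 1)) K A), IsFrame c →
      (Q1 K A ↔ ∀ Q ∈ F, aeval (par c) Q = 0)

section

variable (K : Type) [Field K] (A : Type) [CommRing A] [Algebra K A]

theorem q1UpTo_iff (d : ℕ) : Q1UpTo K d ↔ QUpTo K d := by
  unfold Q1UpTo QUpTo
  simp only [q1_iff]

theorem uniformQ1_iff (S : ℕ → Prop) (d : ℕ) (ε : ℝ) : UniformQ1 S d ε ↔ Unif S d ε := by
  unfold UniformQ1 Unif
  simp only [delta_eq]

theorem certificate_iff (ε : ℝ) (n : ℕ) : Certificate K A ε n ↔ Cert K A ε n := by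
  unfold Certificate Cert
  rw [delta_eq]

end

theorem decidesQ1_iff (k : Type) [Field k] (e : ℕ) (F : Finset (MvPolynomial (PIdx (e + 1)) k)) :
    DecidesQ1 k e F ↔ Decides k e F := by
  unfold DecidesQ1 Decides
  simp only [q1_iff]

end Pool.Agent.Helper15K1.QC
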