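import Pool.Agent.Helper15K1.QC.Rates

/-!
# Growth rates and hardest schemes: statements
-/

set_option autoImplicit false
set_option linter.unusedSectionVars false

namespace Pool.Agent.Helper15K1.QC

open scoped TensorProduct Topology
open Pool.Agent.H826R3.SM Pool.Agent.TH671.DU Pool.Agent.N86.SQ Pool.Agent.N823
open MvPolynomial Filter

/-- The number `(deg Γ^n + δ(Γ^n))^{1/n}` for `Γ = Spec A`. -/
noncomputable def root (K : Type) [Field K] (A : Type) [CommRing A] [Algebra K A] (n : ℕ) : ℝ :=
  ((Module.finrank K (Pow K A n) + delta K (Pow K A n) : ℕ) : ℝ) ^ (1 / (n : ℝ))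

/-- The growth rate of `Γ = Spec A`: the infimum of the numbers `(deg Γ^n + δ(Γ^n))^{1/n}`,
`n ≥ 1`. -/
noncomputable def growthRate (K : Type) [Field K] (A : Type) [CommRing A] [Algebra K A] : ℝ :=
  ⨅ n : ℕ, root K A (n + 1)

/-- The set of the growth rates of the local finite `K`-schemes of degree `d`. -/
def Rates (K : Type) [Field K] (d : ℕ) : Set ℝ :=
  {x | ∃ (A : Type) (_ : CommRing A) (_ : Algebra K A), Module.Finite K A ∧ IsLocalRing A ∧
    Module.finrank K A = d ∧ growthRate K A = x}

/-- `Spec A` has the largest growth rate of all local finite schemes of degree `d` over all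
algebraically closed fields with characteristic in `P`, and Q1 holds for `Spec A` if and only if it
holds for all these schemes. -/
def IsHardest (P : ℕ → Prop) (d : ℕ) (L : Type) [Field L] (A : Type) [CommRing A] [Algebra L A] :
    Prop :=
  (∀ (K : Type) [Field K] [IsAlgClosed K], P (ringChar K) → ∀ (B : Type) [CommRing B]
    [Algebra K B] [Module.Finite K B] [IsLocalRing B], Module.finrank K B = d →
      growthRate K B ≤ growthRate L A) ∧
  (Q1 L A ↔ ∀ (K : Type) [Field K] [IsAlgClosed K], P (ringChar K) → ∀ (B : Type) [CommRing B]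
    [Algebra K B] [Module.Finite K B] [IsLocalRing B], Module.finrank K B = d → Q1 K B)

section

variable (K : Type) [Field K] (A : Type) [CommRing A] [Algebra K A]

theorem root_succ (n : ℕ) : root K A (n + 1) =
    ((Module.finrank K (Pow K A (n + 1)) + defect K (Pow K A (n + 1)) : ℕ) : ℝ) ^
      (1 / ((n : ℝ) + 1)) := by
  unfold root
  rw [delta_eq]
  push_cast
  rfl

theorem growthRate_eq : growthRate K A = rate K A := by
  unfold growthRate rate
  simp only [root_succ]

theorem rates_eq (d : ℕ) : Rates K d = growthRates K d := by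
  ext x
  unfold Rates growthRates
  simp only [growthRate_eq]

theorem growthRate_tendsto [IsAlgClosed K] [Module.Finite K A] [Nontrivial A] :
    Tendsto (fun n : ℕ => root K A n) atTop (𝓝 (growthRate K A)) := by
  rw [growthRate_eq]
  rw [← tendsto_add_atTop_iff_nat 1]
  simp only [root_succ]
  exact rate_tendsto (k := K) A

theorem q1_iff_growthRate [IsAlgClosed K] [Module.Finite K A] [Nontrivial A] :
    Q1 K A ↔ growthRate K A = Module.finrank K A := by
  rw [q1_iff, growthRate_eq, qOne_iff_rate]

end

/-- the hardest scheme is complete -/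
theorem isHardest_of_max {P : ℕ → Prop} {e : ℕ} {L : Type} [Field L] [IsAlgClosed L] {E : Type}
    [CommRing E] [Algebra L E] (c : Module.Basis (Fin (e + 1)) L E) (hc : IsFrame c)
    (hP : P (ringChar L))
    (h : ∀ (K : Type) [Field K] [IsAlgClosed K], P (ringChar K) → ∀ (A : Type) [CommRing A]
      [Algebra K A] (c' : Module.Basis (Fin (e + 1)) K A), IsFrame c' → rate K A ≤ rate L E) :
    IsHardest P (e + 1) L E := by
  have hloc := hc.isLocalRing
  have hfin := finite_of_basis c
  have hmax : ∀ (K : Type) [Field K] [IsAlgClosed K], P (ringChar K) → ∀ (B : Type) [CommRing B]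
      [Algebra K B] [Module.Finite K B] [IsLocalRing B], Module.finrank K B = e + 1 →
        rate K B ≤ rate L E := by
    intro K _ _ hK B _ _ _ _ hd
    obtain ⟨c', hc'⟩ := exists_frame hd
    exact h K hK B c' hc'
  refine ⟨?_, ?_⟩
  · intro K _ _ hK B _ _ _ _ hd
    rw [growthRate_eq, growthRate_eq]
    exact hmax K hK B hd
  · constructor
    · intro hQ K _ _ hK B _ _ _ _ hd
      rw [q1_iff, qOne_iff_rate, finrank_of_basis c] at hQ
      rw [q1_iff, qOne_iff_rate, hd]
      refine le_antisymm ((hmax K hK B hd).trans hQ.le) ?_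
      have := finrank_le_rate (k := K) B
      rwa [hd] at this
    · intro hQ
      exact hQ L hP E (finrank_of_basis c)

end Pool.Agent.Helper15K1.QC
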