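import Pool.Agent.Helper15K1.QC.Univ3

/-!
# The universal sequence: statements
-/

set_option autoImplicit false
set_option linter.unusedSectionVars false

namespace Pool.Agent.Helper15K1.QC

open scoped TensorProduct Topology
open Pool.Agent.H826R3.SM Pool.Agent.TH671.DU Pool.Agent.N86.SQ Pool.Agent.N823
open MvPolynomial Filter

/-- The number `deg Γ + δ(Γ)` for `Γ = Spec A`. -/
noncomputable def size (K : Type) [Field K] (A : Type) [CommRing A] [Algebra K A] : ℕ :=
  Module.finrank K A + delta K A

/-- The number `((d + 1) n + 1) ^ (d ^ 3 + d)`. -/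
def polyBound (d n : ℕ) : ℕ := ((d + 1) * n + 1) ^ (d ^ 3 + d)

/-- The coordinate ring of the scheme `U_n`: the quotient of the polynomial ring by the ideal
`univIdeal k e n`. -/
def URing (k : Type) [Field k] (e n : ℕ) : Type :=
  MvPolynomial (Fin n × Fin e) k ⧸ univIdeal k e n

noncomputable instance (k : Type) [Field k] (e n : ℕ) : CommRing (URing k e n) :=
  Ideal.Quotient.commRing (univIdeal k e n)

noncomputable instance (k : Type) [Field k] (e n : ℕ) : Algebra k (URing k e n) :=
  Ideal.Quotient.algebra k (I := univIdeal k e n)

/-- `Spec A` is a closed subscheme of `Spec B`. -/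
def ClosedIn (k : Type) [Field k] (A B : Type) [CommRing A] [Algebra k A] [CommRing B]
    [Algebra k B] : Prop :=
  ∃ f : B →ₐ[k] A, Function.Surjective f

/-- `Spec A` is a closed subscheme of `Spec B × Spec C`. -/
def ClosedInProd (k : Type) [Field k] (A B C : Type) [CommRing A] [Algebra k A] [CommRing B]
    [Algebra k B] [CommRing C] [Algebra k C] : Prop :=
  ∃ f : B ⊗[k] C →ₐ[k] A, Function.Surjective f

/-- The ideal of `U_n` over `K` is generated by the ideal of `U_n` over `k`. -/
def SameEquations (k K : Type) [Field k] [Field K] [Algebra k K] (e n : ℕ) : Prop :=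
  univIdeal K e n = (univIdeal k e n).map (MvPolynomial.map (algebraMap k K))

theorem size_eq (K : Type) [Field K] [IsAlgClosed K] (A : Type) [CommRing A] [Algebra K A]
    [Module.Finite K A] : size K A = mdeg K A := by
  unfold size
  rw [delta_eq, fadd K A]

theorem polyBound_eq (e n : ℕ) : polyBound (e + 1) n = numTest e n := by
  unfold polyBound numTest
  congr 1
  simp only [Fintype.card_sum, Fintype.card_prod, Fintype.card_fin]
  ring

end Pool.Agent.Helper15K1.QC
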