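import Pool.Agent.Helper15K1.QC.Eqn

/-!
# Ultraproducts
-/

set_option autoImplicit false
set_option linter.unusedSectionVars false

namespace Pool.Agent.Helper15K1.QC

open scoped TensorProduct
open Pool.Agent.H826R3.SM Pool.Agent.TH671.DU Pool.Agent.N86.SQ Pool.Agent.N823
open MvPolynomial

section ideal

variable (K : ℕ → Type) [∀ i, Field (K i)]

/-- the ideal of the finitely supported elements -/
def fsupp : Ideal (∀ i, K i) where
  carrier := {x | {i | x i ≠ 0}.Finite}
  zero_mem' := by simp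
  add_mem' := by
    intro x y hx hy
    refine (hx.union hy).subset fun i hi => ?_
    by_contra hcon
    simp only [Set.mem_union, Set.mem_ofPred_eq, not_or, not_not] at hcon
    apply hi
    change x i + y i = 0
    rw [hcon.1, hcon.2, add_zero]
  smul_mem' := by
    intro r x hx
    refine Set.Finite.subset hx fun i hi => ?_
    intro h0
    apply hi
    change r i * x i = 0
    rw [h0, mul_zero]

/-- the homomorphism to the field `L` is an ultraproduct of the fields `K i` -/
structure IsUltra {K : ℕ → Type} [∀ i, Field (K i)] {L : Type} [Field L]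
    (π : (∀ i, K i) →+* L) : Prop where
  surj : Function.Surjective π
  zero : ∀ (ι : Type) [Finite ι] (z : ι → ∀ i, K i), (∀ j, π (z j) = 0) → ∀ N : ℕ,
    ∃ i, N ≤ i ∧ ∀ j, z j i = 0

theorem exists_ultra : ∃ (L : Type) (_ : Field L) (π : (∀ i, K i) →+* L), IsUltra π := by
  classical
  have h1 : fsupp K ≠ ⊤ := by
    intro h
    have h2 : (1 : ∀ i, K i) ∈ fsupp K := by
      rw [h]
      trivial
    have h3 : {i | (1 : ∀ i, K i) i ≠ 0}.Finite := h2
    have h4 : {i | (1 : ∀ i, K i) i ≠ 0} = Set.univ := by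
      ext i
      simp
    rw [h4] at h3
    exact Set.infinite_univ h3
  obtain ⟨M, hM, hfM⟩ := Ideal.exists_le_maximal _ h1
  let iF : Field ((∀ i, K i) ⧸ M) := Ideal.Quotient.field M
  refine ⟨(∀ i, K i) ⧸ M, iF, Ideal.Quotient.mk M, Ideal.Quotient.mk_surjective, ?_⟩
  intro ι hι z hz N
  have := Fintype.ofFinite ι
  by_contra hcon
  push Not at hcon
  choose J hJ using hcon
  apply hM.ne_top
  rw [Ideal.eq_top_iff_one]
  let y : ι → ∀ i, K i := fun j i => if h : N ≤ i then (if J i h = j then (z j i)⁻¹ else 0) else 0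
  let f : ∀ i, K i := fun i => if N ≤ i then 0 else 1
  have h2 : (1 : ∀ i, K i) = (∑ j, y j * z j) + f := by
    funext i
    rw [Pi.add_apply, Finset.sum_apply, Pi.one_apply]
    by_cases h : N ≤ i
    · have h3 : ∀ j, (y j * z j) i = if J i h = j then (z j i)⁻¹ * z j i else 0 := by
        intro j
        rw [Pi.mul_apply]
        simp only [y, dif_pos h]
        split_ifs
        · rfl
        · rw [zero_mul]
      rw [Finset.sum_congr rfl fun j _ => h3 j, Finset.sum_ite_eq, if_pos (Finset.mem_univ _),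
        inv_mul_cancel₀ (hJ i h)]
      simp [f, h]
    · have h3 : ∀ j, (y j * z j) i = 0 := by
        intro j
        rw [Pi.mul_apply]
        simp only [y, dif_neg h, zero_mul]
      rw [Finset.sum_congr rfl fun j _ => h3 j, Finset.sum_const_zero]
      simp [f, h]
  rw [h2]
  refine M.add_mem (Ideal.sum_mem _ fun j _ => M.mul_mem_left _ ?_) (hfM ?_)
  · exact Ideal.Quotient.eq_zero_iff_mem.1 (hz j)
  · change {i | f i ≠ 0}.Finite
    refine (Set.finite_lt_nat N).subset fun i hi => ?_
    by_contra hcon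
    apply hi
    have h4 : N ≤ i := not_lt.1 hcon
    simp [f, h4]

end ideal

section field

variable {K : ℕ → Type} [∀ i, Field (K i)] {L : Type} [Field L] {π : (∀ i, K i) →+* L}

theorem IsUltra.isAlgClosed [∀ i, IsAlgClosed (K i)] (h : IsUltra π) : IsAlgClosed L := by
  refine IsAlgClosed.of_exists_root L fun p hp hirr => ?_
  have hl : p ∈ Polynomial.lifts π := by
    rw [Polynomial.mem_lifts]
    exact Polynomial.map_surjective π h.surj p
  obtain ⟨q, hq, hqd, hqm⟩ := Polynomial.lifts_and_natDegree_eq_and_monic hl hp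
  have hpd : p.natDegree ≠ 0 := hirr.natDegree_pos.ne'
  have hr : ∀ i, ∃ r : K i, (q.map (Pi.evalRingHom K i)).IsRoot r := by
    intro i
    refine IsAlgClosed.exists_root _ ?_
    have h1 : (q.map (Pi.evalRingHom K i)).natDegree = q.natDegree := hqm.natDegree_map _
    intro h0
    have h2 : (q.map (Pi.evalRingHom K i)).natDegree = 0 :=
      Polynomial.natDegree_eq_of_degree_eq_some h0
    rw [h1, hqd] at h2
    exact hpd h2
  choose r hr using hr
  refine ⟨π r, ?_⟩
  have h3 : q.eval r = 0 := by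
    funext i
    have h4 := hr i
    rw [Polynomial.IsRoot.def, Polynomial.eval_map] at h4
    have h5 := Polynomial.eval₂_at_apply (p := q) (Pi.evalRingHom K i) r
    rw [show (Pi.evalRingHom K i) r = r i from rfl, h4] at h5
    exact h5.symm
  rw [← hq, Polynomial.eval_map, Polynomial.eval₂_at_apply, h3, map_zero]

/-- the characteristic of the ultraproduct -/
theorem IsUltra.char_mem (h : IsUltra π) (P : ℕ → Prop) (hP : {p | P p}.Infinite → P 0)
    (hK : ∀ i, P (ringChar (K i))) : P (ringChar L) := by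
  by_cases h0 : ringChar L = 0
  · rw [h0]
    by_contra hcon
    have hfin : {p | P p}.Finite := by
      by_contra h1
      exact hcon (hP h1)
    -- the product of the characteristics vanishes
    let N : ℕ := ∏ p ∈ hfin.toFinset, p
    have h2 : ((N : ℕ) : ∀ i, K i) = 0 := by
      funext i
      rw [Pi.natCast_apply, Pi.zero_apply]
      have h3 : ringChar (K i) ∣ N := Finset.dvd_prod_of_mem _ (hfin.mem_toFinset.2 (hK i))
      exact (ringChar.spec (K i) N).2 h3
    have h4 : ((N : ℕ) : L) = 0 := by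
      rw [← map_natCast π, h2, map_zero]
    have h5 := (ringChar.spec L N).1 h4
    rw [h0, zero_dvd_iff, Finset.prod_eq_zero_iff] at h5
    obtain ⟨p, hp, hp0⟩ := h5
    rw [hp0] at hp
    exact hcon (hfin.mem_toFinset.1 hp)
  · obtain ⟨i, -, hi⟩ := h.zero Unit (fun _ => ((ringChar L : ℕ) : ∀ i, K i)) (fun _ => by
      rw [map_natCast]
      exact ringChar.Nat.cast_ringChar) 0
    have h1 := hi ()
    rw [Pi.natCast_apply] at h1
    have h2 := (ringChar.spec (K i) (ringChar L)).1 h1
    have hprime : (ringChar L).Prime := by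
      rcases CharP.char_is_prime_or_zero L (ringChar L) with h3 | h3
      · exact h3
      · exact absurd h3 h0
    rcases (Nat.dvd_prime hprime).1 h2 with h3 | h3
    · exact absurd h3 (CharP.ringChar_ne_one)
    · rw [← h3]
      exact hK i

end field

section algebra

/-- the product of a sequence of algebras -/
def UA (A : ℕ → Type) : Type := ∀ i, A i

variable {K A : ℕ → Type} [∀ i, Field (K i)] [∀ i, CommRing (A i)] [∀ i, Algebra (K i) (A i)]

instance (A : ℕ → Type) [∀ i, CommRing (A i)] : CommRing (UA A) :=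
  inferInstanceAs (CommRing (∀ i, A i))

/-- the components -/
def uaEv (A : ℕ → Type) [∀ i, CommRing (A i)] (i : ℕ) : UA A →+* A i := Pi.evalRingHom A i

noncomputable instance : Algebra (∀ i, K i) (UA A) :=
  RingHom.toAlgebra (RingHom.pi (fun i => (algebraMap (K i) (A i)).comp (Pi.evalRingHom K i)) :
    (∀ i, K i) →+* (∀ i, A i))

theorem ua_algebraMap (r : ∀ i, K i) (i : ℕ) :
    (algebraMap (∀ i, K i) (UA A) r) i = algebraMap (K i) (A i) (r i) := rfl

theorem ua_smul (r : ∀ i, K i) (x : UA A) (i : ℕ) : (r • x) i = r i • x i := by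
  rw [Algebra.smul_def (r i) (x i)]
  rfl

variable {e : ℕ} (c : ∀ i, Module.Basis (Fin (e + 1)) (K i) (A i))

/-- its basis -/
noncomputable def uaBasis : Module.Basis (Fin (e + 1)) (∀ i, K i) (UA A) :=
  Module.Basis.ofEquivFun
    { toFun := fun x l i => (c i).repr (x i) l
      invFun := fun v i => ∑ l, v l i • c i l
      map_add' := fun x y => by
        funext l i
        change (c i).repr (x i + y i) l = (c i).repr (x i) l + (c i).repr (y i) l
        rw [map_add, Finsupp.add_apply]
      map_smul' := fun r x => by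
        funext l i
        change (c i).repr ((r • x) i) l = r i * (c i).repr (x i) l
        rw [ua_smul, map_smul, Finsupp.smul_apply, smul_eq_mul]
      left_inv := fun x => by
        funext i
        exact (c i).sum_repr (x i)
      right_inv := fun v => by
        funext l i
        change (c i).repr (∑ j, v j i • c i j) l = v l i
        rw [map_sum, Finsupp.finsetSum_apply, Finset.sum_eq_single l]
        · rw [map_smul, Finsupp.smul_apply, Module.Basis.repr_self, Finsupp.single_eq_same,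
            smul_eq_mul, mul_one]
        · intro j _ hj
          rw [map_smul, Finsupp.smul_apply, Module.Basis.repr_self,
            Finsupp.single_eq_of_ne hj.symm, smul_zero]
        · intro h
          exact absurd (Finset.mem_univ _) h }

theorem uaBasis_apply (j : Fin (e + 1)) (i : ℕ) : (uaBasis c j) i = c i j := by
  classical
  unfold uaBasis
  rw [Module.Basis.coe_ofEquivFun]
  change ∑ l, (Pi.single j (1 : ∀ i, K i) : Fin (e + 1) → ∀ i, K i) l i • c i l = c i j
  rw [Finset.sum_eq_single j]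
  · rw [Pi.single_eq_same, Pi.one_apply, one_smul]
  · intro l _ hl
    rw [Pi.single_eq_of_ne hl, Pi.zero_apply, zero_smul]
  · intro h
    exact absurd (Finset.mem_univ _) h

theorem comp_ua (i : ℕ) : Comp (Pi.evalRingHom K i) (uaEv A i) (uaBasis c) (c i) := by
  refine ⟨fun r => rfl, fun j => ?_⟩
  exact uaBasis_apply c j i

theorem isFrame_ua (hc : ∀ i, IsFrame (c i)) : IsFrame (uaBasis c) := by
  refine ⟨?_, ?_⟩
  · funext i
    rw [uaBasis_apply, (hc i).1]
    rfl
  · rw [eq_bot_iff]
    intro x hx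
    rw [Ideal.mem_bot]
    funext i
    have h1 : (Ideal.span (Set.range fun j : Fin e => uaBasis c j.succ)).map (uaEv A i) ≤
        Ideal.span (Set.range fun j : Fin e => c i j.succ) := by
      rw [Ideal.map_span, Ideal.span_le]
      rintro _ ⟨_, ⟨j, rfl⟩, rfl⟩
      refine Ideal.subset_span ⟨j, ?_⟩
      exact (uaBasis_apply c _ i).symm
    have h2 := Ideal.mem_map_of_mem (uaEv A i) hx
    rw [Ideal.map_pow] at h2
    have h3 := Ideal.pow_right_mono h1 (e + 1) h2
    rw [(hc i).2, Ideal.mem_bot] at h3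
    exact h3

end algebra

section bound

/-- bounds for all powers from bounds for two of them -/
theorem mdeg_pow_bound {k A : Type} [Field k] [IsAlgClosed k] [CommRing A] [Algebra k A]
    [Module.Finite k A] {N : ℕ} {x y : ℝ} (hx : 1 ≤ x) (hy : 1 ≤ y)
    (h1 : (mdeg k (Pow k A (N + 1)) : ℝ) ≤ x ^ (N + 1)) (h2 : (mdeg k (Pow k A 1) : ℝ) ≤ y)
    (h0 : (mdeg k (Pow k A 0) : ℝ) ≤ 1) (n : ℕ) :
    (mdeg k (Pow k A n) : ℝ) ≤ y ^ (N + 1) * x ^ n := by
  have hadd : ∀ m n, (mdeg k (Pow k A (m + n)) : ℝ) ≤ mdeg k (Pow k A m) * mdeg k (Pow k A n) :=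
    fun m n => by exact_mod_cast mdeg_pow_add A m n
  have hr : ∀ r, (mdeg k (Pow k A r) : ℝ) ≤ y ^ r := by
    intro r
    induction r with
    | zero => simpa using h0
    | succ r ih =>
      refine (hadd r 1).trans ?_
      rw [pow_succ]
      exact mul_le_mul ih h2 (Nat.cast_nonneg _) (by positivity)
  have hq : ∀ q, (mdeg k (Pow k A ((N + 1) * q)) : ℝ) ≤ x ^ ((N + 1) * q) := by
    intro q
    induction q with
    | zero => simpa using h0
    | succ q ih =>
      rw [mul_add, mul_one, pow_add]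
      refine (hadd _ _).trans ?_
      exact mul_le_mul ih h1 (Nat.cast_nonneg _) (by positivity)
  have hn : (N + 1) * (n / (N + 1)) + n % (N + 1) = n := Nat.div_add_mod n (N + 1)
  have hmod : n % (N + 1) ≤ N + 1 := (Nat.mod_lt _ (Nat.succ_pos N)).le
  calc (mdeg k (Pow k A n) : ℝ)
      = mdeg k (Pow k A ((N + 1) * (n / (N + 1)) + n % (N + 1))) := by rw [hn]
    _ ≤ mdeg k (Pow k A ((N + 1) * (n / (N + 1)))) * mdeg k (Pow k A (n % (N + 1))) := hadd _ _
    _ ≤ x ^ ((N + 1) * (n / (N + 1))) * y ^ (n % (N + 1)) :=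
        mul_le_mul (hq _) (hr _) (Nat.cast_nonneg _) (by positivity)
    _ ≤ x ^ n * y ^ (N + 1) := by
        refine mul_le_mul (pow_le_pow_right₀ hx (by omega)) (pow_le_pow_right₀ hy hmod)
          (by positivity) (by positivity)
    _ = y ^ (N + 1) * x ^ n := mul_comm _ _

variable {K A : ℕ → Type} [∀ i, Field (K i)] [∀ i, IsAlgClosed (K i)] [∀ i, CommRing (A i)]
  [∀ i, Algebra (K i) (A i)] {L : Type} [Field L] {π : (∀ i, K i) →+* L}
  {e : ℕ} {c : ∀ i, Module.Basis (Fin (e + 1)) (K i) (A i)}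

/-- transfer of solutions from the ultraproduct -/
theorem transfer (hπ : IsUltra π) {n₁ W₁ n₂ W₂ : ℕ}
    (h₁ : Std (bcBasis π (uaBasis c)) n₁ W₁) (h₂ : Std (bcBasis π (uaBasis c)) n₂ W₂) (N : ℕ) :
    ∃ i, N ≤ i ∧ Std (c i) n₁ W₁ ∧ Std (c i) n₂ W₂ := by
  classical
  obtain ⟨p₁, q₁, s₁⟩ := (std_iff _ _ _).1 h₁
  obtain ⟨p₂, q₂, s₂⟩ := (std_iff _ _ _).1 h₂
  have hγ : gam (bcBasis π (uaBasis c)) = fun t l => π (gam (uaBasis c) t l) := by
    funext t l
    exact (comp_bc π (uaBasis c)).gam t l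
  rw [hγ] at s₁ s₂
  let sec : L → ∀ i, K i := Function.surjInv hπ.surj
  have hsec : ∀ x, π (sec x) = x := Function.surjInv_eq hπ.surj
  -- the equations
  let eqn : ∀ (n W : ℕ), (Fin W → Fin n × Fin e → L) →
      ((Fin n → Fin (e + 1)) → Fin ((e + 1) * n + 1) → Fin W → L) →
      ((Fin n → Fin (e + 1)) × Fin ((e + 1) * n + 1) ×
        (Fin n × Fin e → Fin ((e + 1) * n + 1))) → ∀ i, K i := fun n W p q z =>
    if ∑ v, (z.2.2 v : ℕ) = z.2.1 then
      ∑ w, sec (q z.1 z.2.1 w) * ∏ v, sec (p w v) ^ (z.2.2 v : ℕ) -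
        ∏ i, gam (uaBasis c) (fun j => z.2.2 (i, j)) (z.1 i)
    else 0
  have heqn : ∀ (n W : ℕ) (p : Fin W → Fin n × Fin e → L)
      (q : (Fin n → Fin (e + 1)) → Fin ((e + 1) * n + 1) → Fin W → L),
      IsSol (fun t l => π (gam (uaBasis c) t l)) n ((e + 1) * n) W p q →
      ∀ z, π (eqn n W p q z) = 0 := by
    intro n W p q hs z
    change π (if ∑ v, (z.2.2 v : ℕ) = z.2.1 then _ else 0) = 0
    split_ifs with h
    · rw [map_sub, sub_eq_zero, map_sum, map_prod]
      have h1 := hs z.1 z.2.1 z.2.2 h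
      rw [← h1]
      refine Finset.sum_congr rfl fun w _ => ?_
      rw [map_mul, map_prod, hsec]
      congr 1
      refine Finset.prod_congr rfl fun v _ => ?_
      rw [map_pow, hsec]
    · exact map_zero π
  have hback : ∀ (n W : ℕ) (p : Fin W → Fin n × Fin e → L)
      (q : (Fin n → Fin (e + 1)) → Fin ((e + 1) * n + 1) → Fin W → L) (i : ℕ),
      (∀ z, eqn n W p q z i = 0) → Std (c i) n W := by
    intro n W p q i h
    rw [std_iff]
    refine ⟨fun w v => sec (p w v) i, fun J E w => sec (q J E w) i, fun J E s hs => ?_⟩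
    have h1 := h (J, E, s)
    have h2 : eqn n W p q (J, E, s) =
        ∑ w, sec (q J E w) * ∏ v, sec (p w v) ^ (s v : ℕ) -
          ∏ i, gam (uaBasis c) (fun j => s (i, j)) (J i) := if_pos hs
    rw [h2, Pi.sub_apply, sub_eq_zero, Finset.sum_apply, Finset.prod_apply] at h1
    have h3 : ∀ i' : Fin n, (gam (uaBasis c) (fun j => s (i', j)) (J i')) i =
        gam (c i) (fun j => s (i', j)) (J i') := fun i' => ((comp_ua c i).gam _ _).symm
    rw [Finset.prod_congr rfl fun i' _ => h3 i'] at h1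
    rw [← h1]
    refine Finset.sum_congr rfl fun w _ => ?_
    rw [Pi.mul_apply, Finset.prod_apply]
    rfl
  obtain ⟨i, hi, hz⟩ := hπ.zero _ (Sum.elim (eqn n₁ W₁ p₁ q₁) (eqn n₂ W₂ p₂ q₂)) (by
    rintro (z | z)
    · exact heqn _ _ _ _ s₁ z
    · exact heqn _ _ _ _ s₂ z) N
  exact ⟨i, hi, hback _ _ _ _ i fun z => hz (Sum.inl z), hback _ _ _ _ i fun z => hz (Sum.inr z)⟩

/-- **Uniform bounds from the ultraproduct.** -/
theorem ultra_bound (hπ : IsUltra π) (hc : ∀ i, IsFrame (c i)) {x : ℝ}
    (hx : rate L (BC π (UA A)) < x) : ∃ D : ℝ, 0 ≤ D ∧ ∀ N : ℕ, ∃ i, N ≤ i ∧ ∀ n : ℕ,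
      (mdeg (K i) (Pow (K i) (A i) n) : ℝ) ≤ D * x ^ n := by
  have hLac : IsAlgClosed L := hπ.isAlgClosed
  have hcL : IsFrame (bcBasis π (uaBasis c)) := (isFrame_ua c hc).map (comp_bc π _)
  have hloc := hcL.isLocalRing
  have hfin := finite_of_basis (bcBasis π (uaBasis c))
  have hr1 := one_le_rate (k := L) (BC π (UA A))
  set η := (x - rate L (BC π (UA A))) / 2 with hη
  have hη0 : 0 < η := by linarith
  obtain ⟨C, hC, hG⟩ := std_growth hcL η hη0
  have hx1 : 1 ≤ x := by linarith
  have hex : ∃ n : ℕ, C * (rate L (BC π (UA A)) + η) ^ n * ((e + 1 : ℕ) * n + 2) < x ^ n := by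
    by_contra hcon
    push Not at hcon
    have := poly_bound (x := rate L (BC π (UA A)) + η) (y := x) (C := C) (by linarith) hC (e + 1)
      (by linarith) hcon
    linarith
  -- such a power which is positive
  obtain ⟨N₁, hN₁⟩ : ∃ n : ℕ, C * (rate L (BC π (UA A)) + η) ^ (n + 1) *
      ((e + 1 : ℕ) * (n + 1 : ℕ) + 2) ≤ x ^ (n + 1) := by
    by_contra hcon
    push Not at hcon
    have h1 : ∀ n : ℕ, x ^ n ≤ max C 1 * (rate L (BC π (UA A)) + η) ^ n *
        ((e + 1 : ℕ) * n + 2) := by
      intro n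
      cases n with
      | zero =>
        simp only [pow_zero, mul_one, Nat.cast_zero, mul_zero, zero_add]
        have := le_max_right C 1
        linarith
      | succ n =>
        refine (hcon n).le.trans ?_
        refine mul_le_mul_of_nonneg_right (mul_le_mul_of_nonneg_right (le_max_left _ _) ?_) ?_
        · exact pow_nonneg (by linarith) _
        · positivity
    have := poly_bound (x := rate L (BC π (UA A)) + η) (y := x) (C := max C 1) (by linarith)
      (by positivity) (e + 1) (by linarith) h1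
    linarith
  obtain ⟨W₁, hW₁, hS₁⟩ := hG (N₁ + 1)
  obtain ⟨W₂, hW₂, hS₂⟩ := hG 1
  refine ⟨((W₂ * ((e + 1) * 1 + 2) + 1 : ℕ) : ℝ) ^ (N₁ + 1), by positivity, fun N => ?_⟩
  obtain ⟨i, hi, hT₁, hT₂⟩ := transfer hπ hS₁ hS₂ N
  refine ⟨i, hi, fun n => ?_⟩
  have hfin' := finite_of_basis (c i)
  refine mdeg_pow_bound hx1 ?_ ?_ ?_ ?_ n
  · exact_mod_cast Nat.le_add_left 1 _
  · have h1 : ((mdeg (K i) (Pow (K i) (A i) (N₁ + 1)) : ℕ) : ℝ) ≤
        ((W₁ * ((e + 1) * (N₁ + 1) + 2) : ℕ) : ℝ) := by
      exact_mod_cast mdeg_of_std (hc i) hT₁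
    refine h1.trans ?_
    refine le_trans ?_ hN₁
    push_cast
    refine mul_le_mul_of_nonneg_right hW₁ (by positivity)
  · have h1 : ((mdeg (K i) (Pow (K i) (A i) 1) : ℕ) : ℝ) ≤
        ((W₂ * ((e + 1) * 1 + 2) + 1 : ℕ) : ℝ) := by
      exact_mod_cast (mdeg_of_std (hc i) hT₂).trans (Nat.le_succ _)
    exact h1
  · have h1 : mdeg (K i) (Pow (K i) (A i) 0) ≤ 1 := by
      rw [mdeg_congr (powZero (K i) (A i))]
      exact mdeg_le fam_self
    exact_mod_cast h1

end bound

end Pool.Agent.Helper15K1.QC
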