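import Pool.Agent.Helper15K1.QC.Ult

/-!
# Comparison of fields, uniform bounds
-/

set_option autoImplicit false
set_option linter.unusedSectionVars false

namespace Pool.Agent.Helper15K1.QC

open scoped TensorProduct
open Pool.Agent.H826R3.SM Pool.Agent.TH671.DU Pool.Agent.N86.SQ Pool.Agent.N823
open MvPolynomial

/-- all framed algebras of degree `e + 1` have growth rate at most `x` -/
def RateLe (k : Type) [Field k] (e : ℕ) (x : ℝ) : Prop :=
  ∀ (E : Type) [CommRing E] [Algebra k E] (c : Module.Basis (Fin (e + 1)) k E), IsFrame c →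
    rate k E ≤ x

theorem rateLe_extend {k K : Type} [Field k] [IsAlgClosed k] [Field K] [IsAlgClosed K]
    (φ : k →+* K) (e : ℕ) (x : ℝ) : RateLe k e x ↔ RateLe K e x := by
  let _ : Algebra k K := φ.toAlgebra
  constructor
  · intro h A _ _ c hc
    exact sup_extend (k := k) (fun E _ _ c hc => h E c hc) hc
  · intro h E _ _ c hc
    rw [← rate_extend (K := K) hc]
    exact h _ _ (hc.map (comp_baseChange (S := K) c))

theorem exists_lift (F k : Type) [Field F] [Field k] [IsAlgClosed k] [Algebra F k] :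
    Nonempty (AlgebraicClosure F →+* k) :=
  ⟨(IsAlgClosed.lift : AlgebraicClosure F →ₐ[F] k).toRingHom⟩

/-- the algebraically closed fields of the same characteristic have a common algebraically closed
subfield -/
theorem exists_common (k : Type) [Field k] [IsAlgClosed k] : ∃ (L : Type) (_ : Field L)
    (_ : IsAlgClosed L), ∀ (K : Type) [Field K] [IsAlgClosed K], ringChar K = ringChar k →
      Nonempty (L →+* K) := by
  by_cases h0 : ringChar k = 0
  · refine ⟨AlgebraicClosure ℚ, inferInstance, inferInstance, fun K _ _ hK => ?_⟩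
    have h2 : CharZero K := (CharP.ringChar_zero_iff_CharZero K).1 (hK.trans h0)
    exact exists_lift ℚ K
  · have hp : (ringChar k).Prime := by
      rcases CharP.char_is_prime_or_zero k (ringChar k) with h3 | h3
      · exact h3
      · exact absurd h3 h0
    have hF : Fact (ringChar k).Prime := ⟨hp⟩
    refine ⟨AlgebraicClosure (ZMod (ringChar k)), inferInstance, inferInstance, fun K _ _ h => ?_⟩
    have hK : CharP K (ringChar k) := by
      rw [← h]
      exact ringChar.charP K
    let _ : Algebra (ZMod (ringChar k)) K := ZMod.algebra K (ringChar k)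
    exact exists_lift (ZMod (ringChar k)) K

theorem rateLe_char {k K : Type} [Field k] [IsAlgClosed k] [Field K] [IsAlgClosed K]
    (h : ringChar k = ringChar K) (e : ℕ) (x : ℝ) : RateLe k e x ↔ RateLe K e x := by
  obtain ⟨L, _, _, hL⟩ := exists_common k
  obtain ⟨φ⟩ := hL k rfl
  obtain ⟨ψ⟩ := hL K h.symm
  exact (rateLe_extend φ e x).symm.trans (rateLe_extend ψ e x)

/-- ultraproducts of fields with characteristics in the sets `Q i` have characteristic in `P` -/
def Closed (Q : ℕ → ℕ → Prop) (P : ℕ → Prop) : Prop :=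
  (∀ i j p, i ≤ j → Q j p → Q i p) ∧ ∀ (K : ℕ → Type) [∀ i, Field (K i)],
    (∀ i, Q i (ringChar (K i))) → ∀ (L : Type) [Field L] (π : (∀ i, K i) →+* L), IsUltra π →
      P (ringChar L)

theorem closed_const (P : ℕ → Prop) (hP : {p | P p}.Infinite → P 0) : Closed (fun _ => P) P :=
  ⟨fun _ _ _ _ h => h, fun _ _ hK _ _ _ hπ => hπ.char_mem P hP hK⟩

theorem closed_zero : Closed (fun i p => p = 0 ∨ i ≤ p) (fun p => p = 0) := by
  refine ⟨fun i j p hij h => h.imp id fun h => hij.trans h, fun K _ hK L _ π hπ => ?_⟩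
  by_contra h0
  obtain ⟨i, hi, hz⟩ := hπ.zero Unit (fun _ => ((ringChar L : ℕ) : ∀ i, K i)) (fun _ => by
    rw [map_natCast]
    exact ringChar.Nat.cast_ringChar) (ringChar L + 1)
  have h1 := hz ()
  rw [Pi.natCast_apply] at h1
  have h2 := (ringChar.spec (K i) (ringChar L)).1 h1
  rcases hK i with h3 | h3
  · rw [h3, zero_dvd_iff] at h2
    exact h0 h2
  · have h4 := Nat.le_of_dvd (Nat.pos_of_ne_zero h0) h2
    omega

/-- **Uniform bounds for framed algebras.** -/
theorem uniform_framed {Q : ℕ → ℕ → Prop} {P : ℕ → Prop} (hQ : Closed Q P) (e : ℕ) (x y : ℝ)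
    (hxy : x < y) (h : ∀ (K : Type) [Field K] [IsAlgClosed K], P (ringChar K) → RateLe K e x) :
    ∃ D : ℕ, ∀ (K : Type) [Field K] [IsAlgClosed K], Q D (ringChar K) →
      ∀ (A : Type) [CommRing A] [Algebra K A] (c : Module.Basis (Fin (e + 1)) K A), IsFrame c →
        ∀ n : ℕ, (mdeg K (Pow K A n) : ℝ) ≤ D * y ^ n := by
  by_contra hcon
  push Not at hcon
  choose K iF iA hPK A iC iAl c hc n hn using fun i : ℕ => hcon i
  obtain ⟨L, _, π, hπ⟩ := exists_ultra K
  have hLac : IsAlgClosed L := hπ.isAlgClosed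
  have hcL : IsFrame (bcBasis π (uaBasis c)) := (isFrame_ua c hc).map (comp_bc π _)
  have hr : rate L (BC π (UA A)) < y :=
    (h L (hQ.2 K hPK L π hπ) _ _ hcL).trans_lt hxy
  have hloc := hcL.isLocalRing
  have hfin := finite_of_basis (bcBasis π (uaBasis c))
  have hr1 := one_le_rate (k := L) (BC π (UA A))
  obtain ⟨D, hD, hb⟩ := ultra_bound hπ hc hr
  obtain ⟨N, hN⟩ := exists_nat_ge D
  obtain ⟨i, hi, hbi⟩ := hb N
  have h1 := hbi (n i)
  have h2 := hn i
  have h3 : D * y ^ (n i) ≤ (i : ℝ) * y ^ (n i) := by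
    refine mul_le_mul_of_nonneg_right ?_ (pow_nonneg (by linarith) _)
    refine hN.trans ?_
    exact_mod_cast hi
  linarith

section products

variable {K : Type} [Field K] [IsAlgClosed K]

theorem mdeg_pow_prod (A B : Type) [CommRing A] [Algebra K A] [Module.Finite K A] [CommRing B]
    [Algebra K B] [Module.Finite K B] {C₁ C₂ x y : ℝ} (hC₁ : 0 ≤ C₁) (hx : 0 ≤ x)
    (h₁ : ∀ n, (mdeg K (Pow K A n) : ℝ) ≤ C₁ * x ^ n)
    (h₂ : ∀ n, (mdeg K (Pow K B n) : ℝ) ≤ C₂ * y ^ n) (n : ℕ) :
    (mdeg K (Pow K (A × B) n) : ℝ) ≤ C₁ * C₂ * (x + y) ^ n := by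
  have h1 := GG_le hC₁ hx h₁ h₂ n 0 0
  rw [pow_zero, pow_zero, mul_one, mul_one] at h1
  refine le_trans ?_ h1
  have h2 : ∀ (A : Type) [CommRing A] [Algebra K A] [Module.Finite K A] (i : ℕ),
      Fam K (Pow K A i) (mdeg K (Pow K A i)) := by
    intro A _ _ _ i
    obtain ⟨D, hD⟩ := exists_fam (k := K) (Pow K A i)
    exact mdeg_spec hD
  exact_mod_cast mdeg_le (fam_union (fun i => mdeg K (Pow K A i)) (fun i => mdeg K (Pow K B i))
    (h2 A) (h2 B) n 0 0 (Pow K (A × B) n) (fun a => a.elim0) (fun a => a.elim0)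
      (fun i => sg K (A × B) i) fun S _ _ h => pow_eq_top S h)

/-- **Uniform bounds: from local algebras to all algebras.** -/
theorem uniform_of_local {C ε : ℝ} (hC : 1 ≤ C) (hε : 0 ≤ ε) (d : ℕ)
    (h : ∀ (A : Type) [CommRing A] [Algebra K A] [Module.Finite K A] [IsLocalRing A],
      Module.finrank K A ≤ d → ∀ n : ℕ,
        (mdeg K (Pow K A n) : ℝ) ≤ C * ((Module.finrank K A : ℝ) ^ (1 + ε)) ^ n) (f : ℕ) :
    ∀ (A : Type) [CommRing A] [Algebra K A] [Module.Finite K A] [Nontrivial A],
      Module.finrank K A ≤ d → Module.finrank K A = f → ∀ n : ℕ,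
        (mdeg K (Pow K A n) : ℝ) ≤ C ^ f * ((f : ℝ) ^ (1 + ε)) ^ n := by
  induction f using Nat.strong_induction_on with
  | _ f ih =>
    intro A _ _ _ _ hd hf n
    have hfpos : 0 < Module.finrank K A := Module.finrank_pos
    have hC0 : 0 ≤ C := by linarith
    by_cases hloc : IsLocalRing A
    · refine (h A hd n).trans ?_
      rw [hf]
      refine mul_le_mul_of_nonneg_right ?_ (by positivity)
      exact le_self_pow₀ hC (by omega)
    have hart : IsArtinianRing A := IsArtinianRing.of_finite K A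
    obtain ⟨e, he, hu, hu'⟩ := exists_idem hloc
    let g : A →ₐ[K] (A ⧸ Ideal.span {e}) × (A ⧸ Ideal.span {1 - e}) :=
      (Ideal.Quotient.mkₐ K (Ideal.span {e})).prod (Ideal.Quotient.mkₐ K (Ideal.span {1 - e}))
    have hg : Function.Bijective g := crt_bijective e he
    let F := AlgEquiv.ofBijective g hg
    have hnt1 : Nontrivial (A ⧸ Ideal.span {e}) := by
      rw [Ideal.Quotient.nontrivial_iff, Ne, Ideal.span_singleton_eq_top]
      exact hu
    have hnt2 : Nontrivial (A ⧸ Ideal.span {1 - e}) := by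
      rw [Ideal.Quotient.nontrivial_iff, Ne, Ideal.span_singleton_eq_top]
      exact hu'
    have hsum : Module.finrank K A = Module.finrank K (A ⧸ Ideal.span {e}) +
        Module.finrank K (A ⧸ Ideal.span {1 - e}) := by
      rw [F.toLinearEquiv.finrank_eq, Module.finrank_prod]
    have hp1 : 0 < Module.finrank K (A ⧸ Ideal.span {e}) := Module.finrank_pos
    have hp2 : 0 < Module.finrank K (A ⧸ Ideal.span {1 - e}) := Module.finrank_pos
    have g1 := ih _ (by omega) (A ⧸ Ideal.span {e}) (by omega) rfl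
    have g2 := ih _ (by omega) (A ⧸ Ideal.span {1 - e}) (by omega) rfl
    set f₁ := Module.finrank K (A ⧸ Ideal.span {e}) with hf₁
    set f₂ := Module.finrank K (A ⧸ Ideal.span {1 - e}) with hf₂
    have hmap : mdeg K (Pow K A n) ≤
        mdeg K (Pow K ((A ⧸ Ideal.span {e}) × (A ⧸ Ideal.span {1 - e})) n) := by
      obtain ⟨D, hD⟩ := exists_fam (k := K)
        (Pow K ((A ⧸ Ideal.span {e}) × (A ⧸ Ideal.span {1 - e})) n)
      refine mdeg_le ((mdeg_spec hD).of_pow
        (fun i => (sg K A i).comp F.symm.toAlgHom) fun S hS => pow_eq_top S fun i a => ?_)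
      have h4 := hS i (F a)
      have h5 : ((sg K A i).comp F.symm.toAlgHom) (F a) = sg K A i a := by
        change sg K A i (F.symm (F a)) = _
        rw [AlgEquiv.symm_apply_apply]
      rwa [h5] at h4
    have h3 := mdeg_pow_prod (A ⧸ Ideal.span {e}) (A ⧸ Ideal.span {1 - e}) (by positivity)
      (by positivity) g1 g2 n
    have h6 : (f₁ : ℝ) ^ (1 + ε) + (f₂ : ℝ) ^ (1 + ε) ≤ (f : ℝ) ^ (1 + ε) := by
      have h7 : (f : ℝ) = f₁ + f₂ := by
        rw [← hf, hsum]
        push_cast
        rfl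
      rw [h7]
      exact Real.add_rpow_le_rpow_add (Nat.cast_nonneg _) (Nat.cast_nonneg _) (by linarith)
    have h8 : (C ^ f₁ * C ^ f₂ : ℝ) = C ^ f := by
      rw [← pow_add, ← hsum, hf]
    calc (mdeg K (Pow K A n) : ℝ)
        ≤ mdeg K (Pow K ((A ⧸ Ideal.span {e}) × (A ⧸ Ideal.span {1 - e})) n) := by
          exact_mod_cast hmap
      _ ≤ C ^ f₁ * C ^ f₂ * ((f₁ : ℝ) ^ (1 + ε) + (f₂ : ℝ) ^ (1 + ε)) ^ n := h3
      _ ≤ C ^ f * ((f : ℝ) ^ (1 + ε)) ^ n := by
          rw [h8]
          refine mul_le_mul_of_nonneg_left ?_ (by positivity)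
          exact pow_le_pow_left₀ (by positivity) h6 n

end products

section qone

variable {K : Type} [Field K] [IsAlgClosed K]

/-- `Q1` for all schemes of degree at most `d` -/
def QUpTo (K : Type) [Field K] (d : ℕ) : Prop :=
  ∀ (A : Type) [CommRing A] [Algebra K A] [Module.Finite K A] [Nontrivial A],
    Module.finrank K A ≤ d → QOne K A

theorem qUpTo_of_local (d : ℕ) (h : ∀ (A : Type) [CommRing A] [Algebra K A] [Module.Finite K A]
    [IsLocalRing A], Module.finrank K A ≤ d → QOne K A) : QUpTo K d := by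
  intro A _ _ _ _ hd
  induction hn : Module.finrank K A using Nat.strong_induction_on generalizing A with
  | _ n ih =>
    by_cases hloc : IsLocalRing A
    · exact h A hd
    have hart : IsArtinianRing A := IsArtinianRing.of_finite K A
    obtain ⟨e, he, hu, hu'⟩ := exists_idem hloc
    let f : A →ₐ[K] (A ⧸ Ideal.span {e}) × (A ⧸ Ideal.span {1 - e}) :=
      (Ideal.Quotient.mkₐ K (Ideal.span {e})).prod (Ideal.Quotient.mkₐ K (Ideal.span {1 - e}))
    have hf : Function.Bijective f := crt_bijective e he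
    let F := AlgEquiv.ofBijective f hf
    have hnt1 : Nontrivial (A ⧸ Ideal.span {e}) := by
      rw [Ideal.Quotient.nontrivial_iff, Ne, Ideal.span_singleton_eq_top]
      exact hu
    have hnt2 : Nontrivial (A ⧸ Ideal.span {1 - e}) := by
      rw [Ideal.Quotient.nontrivial_iff, Ne, Ideal.span_singleton_eq_top]
      exact hu'
    have hsum : Module.finrank K A = Module.finrank K (A ⧸ Ideal.span {e}) +
        Module.finrank K (A ⧸ Ideal.span {1 - e}) := by
      rw [F.toLinearEquiv.finrank_eq, Module.finrank_prod]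
    have hp1 : 0 < Module.finrank K (A ⧸ Ideal.span {e}) := Module.finrank_pos
    have hp2 : 0 < Module.finrank K (A ⧸ Ideal.span {1 - e}) := Module.finrank_pos
    have g1 := ih _ (by omega) (A ⧸ Ideal.span {e}) (by omega) rfl
    have g2 := ih _ (by omega) (A ⧸ Ideal.span {1 - e}) (by omega) rfl
    exact (qOne_congr F).2 (qOne_prod _ _ g1 g2)

/-- Q1 in terms of the growth rates of framed algebras -/
theorem qUpTo_iff (d : ℕ) : QUpTo K d ↔ ∀ e < d, RateLe K e ((e + 1 : ℕ) : ℝ) := by
  constructor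
  · intro h e he E _ _ c hc
    have := hc.isLocalRing
    have := finite_of_basis c
    have h1 := h E (by rw [finrank_of_basis c]; omega)
    rw [qOne_iff_rate, finrank_of_basis c] at h1
    exact h1.le
  · intro h
    refine qUpTo_of_local d fun A _ _ _ _ hd => ?_
    have hpos : 0 < Module.finrank K A := Module.finrank_pos
    obtain ⟨e, he⟩ : ∃ e, Module.finrank K A = e + 1 := ⟨Module.finrank K A - 1, by omega⟩
    obtain ⟨c, hc⟩ := exists_frame he
    rw [qOne_iff_rate, he]
    refine le_antisymm (h e (by omega) A c hc) ?_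
    have := finrank_le_rate (k := K) A
    rwa [he] at this

theorem qUpTo_char {k K : Type} [Field k] [IsAlgClosed k] [Field K] [IsAlgClosed K]
    (h : ringChar k = ringChar K) (d : ℕ) : QUpTo k d ↔ QUpTo K d := by
  rw [qUpTo_iff, qUpTo_iff]
  exact forall₂_congr fun e _ => rateLe_char h e _

end qone

end Pool.Agent.Helper15K1.QC
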