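import Pool.Agent.Helper15K1.QC.Stmt2

/-!
# The universal sequence of finite schemes
-/

set_option autoImplicit false
set_option linter.unusedSectionVars false

namespace Pool.Agent.Helper15K1.QC

open scoped TensorProduct Topology
open Pool.Agent.H826R3.SM Pool.Agent.TH671.DU Pool.Agent.N86.SQ Pool.Agent.N823
open MvPolynomial Filter

section test

variable {k : Type} [Field k] {ι : Type} [Fintype ι]

/-- finitely many test points for the polynomials of bounded degree on a set -/
theorem exists_test_all (Z : Set (ι → k)) (L : ℕ) :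
    ∃ (K : ℕ) (z : Fin K → ι → k), (∀ l, z l ∈ Z) ∧ K ≤ (L + 1) ^ Fintype.card ι ∧
      ∀ Q : MvPolynomial ι k, Q.totalDegree ≤ L → (∀ l, eval (z l) Q = 0) →
        ∀ y ∈ Z, eval y Q = 0 := by
  classical
  let V := box k ι L
  let ev : (ι → k) → (V →ₗ[k] k) := fun x =>
    (MvPolynomial.aeval x : MvPolynomial ι k →ₐ[k] k).toLinearMap ∘ₗ V.subtype
  have hev : ∀ x (Q : V), ev x Q = eval x (Q : MvPolynomial ι k) := by
    intro x Q
    change aeval x (Q : MvPolynomial ι k) = _
    rw [MvPolynomial.aeval_eq_eval]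
  obtain ⟨b, hb1, hb2, hb3⟩ := exists_linearIndependent k (Set.range fun y : Z => ev y.1)
  have hbfin : Finite b := hb3.finite
  have := Fintype.ofFinite b
  have hcard : Fintype.card b ≤ (L + 1) ^ Fintype.card ι := by
    have h2 := hb3.fintype_card_le_finrank
    rw [Subspace.dual_finrank_eq] at h2
    exact h2.trans (finrank_box_le L)
  choose zz hzz using fun f : b => hb1 f.2
  let E := Fintype.equivFin b
  refine ⟨Fintype.card b, fun l => (zz (E.symm l)).1, fun l => (zz (E.symm l)).2, hcard,
    fun Q hQ hz y hy => ?_⟩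
  let Q' : V := ⟨Q, mem_box hQ⟩
  have h1 : ev y ∈ Submodule.span k (Set.range fun y : Z => ev y.1) :=
    Submodule.subset_span ⟨⟨y, hy⟩, rfl⟩
  rw [← hb2] at h1
  have h3 : ∀ f ∈ Submodule.span k b, f Q' = 0 := by
    intro f hf
    induction hf using Submodule.span_induction with
    | mem f hf =>
      have h4 := hz (E ⟨f, hf⟩)
      change eval (zz (E.symm (E ⟨f, hf⟩))).1 Q = 0 at h4
      rw [E.symm_apply_apply] at h4
      have h5 : ev (zz ⟨f, hf⟩).1 = f := hzz ⟨f, hf⟩
      rw [← h5, hev]
      exact h4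
    | zero => rfl
    | add f g _ _ hf hg => rw [LinearMap.add_apply, hf, hg, add_zero]
    | smul r f _ hf => rw [LinearMap.smul_apply, hf, smul_zero]
  have h6 := h3 _ h1
  rwa [hev] at h6

end test

section ideal

variable {k : Type} [Field k] [IsAlgClosed k]

/-- The polynomials which vanish on the `n`-th powers of all framed algebras of degree `e + 1`. -/
noncomputable def univIdeal (k : Type) [Field k] (e n : ℕ) :
    Ideal (MvPolynomial (Fin n × Fin e) k) where
  carrier := {F | ∀ (E : Type) [CommRing E] [Algebra k E] (c : Module.Basis (Fin (e + 1)) k E),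
    IsFrame c → aeval (std c n) F = 0}
  zero_mem' := fun E _ _ c _ => map_zero _
  add_mem' := fun {a b} ha hb E _ _ c hc => by
    rw [map_add, ha E c hc, hb E c hc, add_zero]
  smul_mem' := fun r x hx E _ _ c hc => by
    rw [smul_eq_mul, map_mul, hx E c hc, mul_zero]

/-- The coordinate ring of the universal scheme. -/
abbrev Univ (k : Type) [Field k] (e n : ℕ) : Type :=
  MvPolynomial (Fin n × Fin e) k ⧸ univIdeal k e n

theorem aeval_high {A : Type} [CommRing A] [Algebra k A] {e : ℕ}
    {c : Module.Basis (Fin (e + 1)) k A} (hc : IsFrame c) {n i : ℕ} (hi : (e + 1) * n < i)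
    {F : MvPolynomial (Fin n × Fin e) k} (hF : F.IsHomogeneous i) : aeval (std c n) F = 0 := by
  have h1 := aeval_mem_pow (k := k) (std c n) hF
  have h2 := nil_pow (k := k) (fun j : Fin e => c j.succ) e hc.2 n
  have h3 : Ideal.span (Set.range (std c n)) ^ i ≤ ⊥ := by
    rw [← h2]
    exact Ideal.pow_le_pow_right hi
  have h4 := h3 h1
  rwa [Ideal.mem_bot] at h4

/-- the part of low degree -/
theorem aeval_eq_low {A : Type} [CommRing A] [Algebra k A] {e : ℕ}
    {c : Module.Basis (Fin (e + 1)) k A} (hc : IsFrame c) (n : ℕ)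
    (F : MvPolynomial (Fin n × Fin e) k) : aeval (std c n) F =
      ∑ i ∈ Finset.range ((e + 1) * n + 1), aeval (std c n) (homogeneousComponent i F) := by
  classical
  have h1 : ∀ M : ℕ, F.totalDegree ≤ M → aeval (std c n) F =
      ∑ i ∈ Finset.range (M + 1), aeval (std c n) (homogeneousComponent i F) := by
    intro M hM
    rw [← map_sum]
    congr 1
    conv_lhs => rw [← sum_homogeneousComponent F]
    refine Finset.sum_subset (Finset.range_mono (by omega)) fun i _ hi => ?_
    refine homogeneousComponent_eq_zero _ _ ?_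
    rw [Finset.mem_range] at hi
    omega
  rw [h1 (max F.totalDegree ((e + 1) * n)) (le_max_left _ _)]
  symm
  refine Finset.sum_subset (Finset.range_mono (by
    have := le_max_right F.totalDegree ((e + 1) * n)
    omega)) fun i _ hi => ?_
  rw [Finset.mem_range, not_lt] at hi
  exact aeval_high hc (by omega) (homogeneousComponent_isHomogeneous _ _)

theorem celt_single {Y : Type} {E : Y → Type} [∀ y, CommRing (E y)] [∀ y, Algebra k (E y)] {d : ℕ}
    (c : ∀ y, Module.Basis (Fin d) k (E y)) (j : Fin d) (y : Y) :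
    celt (c := c) (Pi.single j 1) y = c y j := by
  unfold celt
  rw [Finset.sum_eq_single j]
  · rw [Pi.single_eq_same, one_smul]
  · intro l _ hl
    rw [Pi.single_eq_of_ne hl, zero_smul]
  · intro h
    exact absurd (Finset.mem_univ _) h

/-- the coordinates of the values of a polynomial are polynomials in the structure constants -/
theorem isPoly_std {Y : Type} {E : Y → Type} [∀ y, CommRing (E y)] [∀ y, Algebra k (E y)] {e : ℕ}
    (c : ∀ y, Module.Basis (Fin (e + 1)) k (E y)) (hc : ∀ y, IsFrame (c y)) (n : ℕ)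
    (F : MvPolynomial (Fin n × Fin e) k) :
    IsPoly c n (n + (e + 1) * n) fun y => aeval (std (c y) n) F := by
  have h1 : ∀ i, i ≤ (e + 1) * n → IsPoly c n (n + (e + 1) * n) fun y =>
      aeval (std (c y) n) (homogeneousComponent i F) := by
    intro i hi
    have h2 := (isPoly_aeval (c := c) (N := n) (fun j : Fin e => Pi.single j.succ (1 : k))
      (homogeneousComponent_isHomogeneous i F)).mono (L' := n + (e + 1) * n) (by omega)
    have h3 : ∀ y, (fun v : Fin n × Fin e =>
        sg k (E y) v.1 (celt (c := c) (Pi.single v.2.succ 1) y)) = std (c y) n := by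
      intro y
      funext v
      rw [celt_single]
      rfl
    simp only [h3] at h2
    exact h2
  have h4 : ∀ M, M ≤ (e + 1) * n + 1 → IsPoly c n (n + (e + 1) * n) fun y =>
      ∑ i ∈ Finset.range M, aeval (std (c y) n) (homogeneousComponent i F) := by
    intro M
    induction M with
    | zero =>
      intro _
      simp only [Finset.range_zero, Finset.sum_empty]
      exact isPoly_zero _
    | succ M ih =>
      intro hM
      simp only [Finset.sum_range_succ]
      exact (ih (by omega)).add (h1 M (by omega))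
  have h5 := h4 _ le_rfl
  have h6 : ∀ y, aeval (std (c y) n) F = ∑ i ∈ Finset.range ((e + 1) * n + 1),
      aeval (std (c y) n) (homogeneousComponent i F) := fun y => aeval_eq_low (hc y) n F
  simp only [h6]
  exact h5

/-- finitely many framed algebras which determine the ideal -/
theorem exists_test (k : Type) [Field k] [IsAlgClosed k] (e n : ℕ) : ∃ (K : ℕ) (E : Fin (K + 1) → Type)
    (_ : ∀ l, CommRing (E l)) (_ : ∀ l, Algebra k (E l))
    (c : ∀ l, Module.Basis (Fin (e + 1)) k (E l)), (∀ l, IsFrame (c l)) ∧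
      K + 1 ≤ ((e + 2) * n + 1) ^ Fintype.card (PIdx (e + 1)) ∧
      ∀ F : MvPolynomial (Fin n × Fin e) k, (∀ l, aeval (std (c l) n) F = 0) →
        F ∈ univIdeal k e n := by
  classical
  let Z : Set (PIdx (e + 1) → k) := {y | ∃ (E : Type) (_ : CommRing E) (_ : Algebra k E)
    (c : Module.Basis (Fin (e + 1)) k E), IsFrame c ∧ par c = y}
  obtain ⟨K, z, hz, hK, htest⟩ := exists_test_all Z (n + (e + 1) * n)
  have hL : n + (e + 1) * n = (e + 2) * n := by ring
  rw [hL] at hK
  -- the test set is not empty
  obtain ⟨K', rfl⟩ : ∃ K', K = K' + 1 := by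
    rcases K with - | K'
    · exfalso
      obtain ⟨E, _, _, c, hc⟩ := exists_framed k e
      have := htest 1 (by rw [totalDegree_one]; exact Nat.zero_le _) (fun l => l.elim0) (par c)
        ⟨E, _, _, c, hc, rfl⟩
      rw [map_one] at this
      exact one_ne_zero this
    · exact ⟨K', rfl⟩
  choose E iC iA c hc hp using hz
  refine ⟨K', E, iC, iA, c, hc, hK, fun F hF E₀ _ _ c₀ hc₀ => ?_⟩
  let B : Option (Fin (K' + 1)) → Type := EF E₀ E
  let cc : ∀ y, Module.Basis (Fin (e + 1)) k (B y) := efBasis c₀ c
  have hcc : ∀ y, IsFrame (cc y) := by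
    rintro (_ | l)
    · exact hc₀
    · exact hc l
  have h1 := isPoly_std (E := B) cc hcc n F
  let Bs := Basis.piTensorProduct (fun _ : Fin n => c₀)
  apply Bs.repr.injective
  rw [map_zero]
  ext J
  rw [Finsupp.zero_apply]
  obtain ⟨Q, hQ, hQ1⟩ := h1 J
  have h2 : Bs.repr (aeval (std c₀ n) F) J = eval (par c₀) Q := hQ1 none
  rw [h2]
  refine htest Q hQ (fun l => ?_) _ ⟨E₀, _, _, c₀, hc₀, rfl⟩
  have h3 : (Basis.piTensorProduct (fun _ : Fin n => c l)).repr (aeval (std (c l) n) F) J =
      eval (par (c l)) Q := hQ1 (some l)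
  rw [← hp l, ← h3, hF l, map_zero, Finsupp.zero_apply]

end ideal

end Pool.Agent.Helper15K1.QC
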