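import Pool.Agent.Helper15K1.QC.Univ

/-!
# The universal sequence of finite schemes: maps, bounds, growth
-/

set_option autoImplicit false
set_option linter.unusedSectionVars false

namespace Pool.Agent.Helper15K1.QC

open scoped TensorProduct Topology
open Pool.Agent.H826R3.SM Pool.Agent.TH671.DU Pool.Agent.N86.SQ Pool.Agent.N823
open MvPolynomial Filter

variable {k : Type} [Field k] [IsAlgClosed k] {e : ℕ}

section maps

variable {A : Type} [CommRing A] [Algebra k A] {c : Module.Basis (Fin (e + 1)) k A}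

/-- the map to the power of a framed algebra -/
noncomputable def uToPow (hc : IsFrame c) (n : ℕ) : Univ k e n →ₐ[k] Pow k A n :=
  Ideal.Quotient.liftₐ (univIdeal k e n) (aeval (std c n)) fun _ hF => hF A c hc

theorem uToPow_surjective (hc : IsFrame c) (n : ℕ) : Function.Surjective (uToPow hc n) := by
  have h1 : (aeval (std c n) : MvPolynomial (Fin n × Fin e) k →ₐ[k] Pow k A n).range = ⊤ := by
    rw [← Algebra.adjoin_range_eq_range_aeval]
    exact adjoin_pow hc.adjoin n
  intro y
  obtain ⟨F, hF⟩ : y ∈ (aeval (std c n) : MvPolynomial (Fin n × Fin e) k →ₐ[k] Pow k A n).range := by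
    rw [h1]
    trivial
  exact ⟨Ideal.Quotient.mk _ F, hF⟩

theorem rename_mem {n m : ℕ} (ι : Fin n → Fin m) {F : MvPolynomial (Fin n × Fin e) k}
    (hF : F ∈ univIdeal k e n) : rename (fun v : Fin n × Fin e => (ι v.1, v.2)) F ∈
      univIdeal k e m := by
  intro E _ _ c hc
  rw [aeval_rename]
  have h1 : (std c m ∘ fun v : Fin n × Fin e => (ι v.1, v.2)) =
      fun v => powLift (fun a : Fin n => sg k E (ι a)) (std c n v) := by
    funext v
    change sg k E (ι v.1) (c v.2.succ) = powLift (fun a : Fin n => sg k E (ι a)) (sg k E v.1 _)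
    rw [powLift_single]
  rw [h1, ← MvPolynomial.comp_aeval_apply, hF E c hc, map_zero]

/-- the map given by a map of the factors -/
noncomputable def uMap (k : Type) [Field k] [IsAlgClosed k] (e : ℕ) {n m : ℕ} (ι : Fin n → Fin m) :
    Univ k e n →ₐ[k] Univ k e m :=
  Ideal.Quotient.liftₐ (univIdeal k e n)
    ((Ideal.Quotient.mkₐ k (univIdeal k e m)).comp
      (rename fun v : Fin n × Fin e => (ι v.1, v.2))) fun F hF => by
    rw [AlgHom.comp_apply, Ideal.Quotient.mkₐ_eq_mk, Ideal.Quotient.eq_zero_iff_mem]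
    exact rename_mem ι hF

theorem uMap_X {n m : ℕ} (ι : Fin n → Fin m) (v : Fin n × Fin e) :
    uMap k e ι (Ideal.Quotient.mk _ (X v)) = Ideal.Quotient.mk _ (X (ι v.1, v.2)) := by
  change Ideal.Quotient.mk _ (rename _ (X v)) = _
  rw [rename_X]

theorem univ_top {m : ℕ} (S : Subalgebra k (Univ k e m))
    (h : ∀ v : Fin m × Fin e, (Ideal.Quotient.mk _ (X v) : Univ k e m) ∈ S) : S = ⊤ := by
  rw [eq_top_iff]
  rintro y -
  obtain ⟨F, rfl⟩ := Ideal.Quotient.mk_surjective y
  induction F using MvPolynomial.induction_on with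
  | C r =>
    exact S.algebraMap_mem r
  | add F G hF hG =>
    rw [map_add]
    exact S.add_mem hF hG
  | mul_X F v hF =>
    rw [map_mul]
    exact S.mul_mem hF (h v)

end maps

section bounds

/-- a product with many factors -/
theorem mdeg_pi_le (M K : ℕ) : ∀ (Y : Fin (K + 1) → Type) [∀ i, CommRing (Y i)]
    [∀ i, Algebra k (Y i)] [∀ i, Module.Finite k (Y i)],
    (∀ i, mdeg k (Y i) ≤ M) → mdeg k (∀ i, Y i) ≤ (K + 1) * M := by
  induction K with
  | zero =>
    intro Y _ _ _ h
    have h1 : Function.Injective (Pi.evalAlgHom k Y 0) := by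
      intro x y hxy
      funext i
      have hi : i = 0 := Fin.ext (by omega)
      rw [hi]
      exact hxy
    have h2 := (IsSubquotient.of_injective (Pi.evalAlgHom k Y 0) h1).mdeg_le
    exact (h2.trans (h 0)).trans (by simp)
  | succ K ih =>
    intro Y _ _ _ h
    have h1 := ih (fun i => Y i.succ) fun i => h i.succ
    rw [mdeg_congr (finSplit' k (K + 1) Y), mdeg_prod' k]
    have h3 := h 0
    calc mdeg k (Y 0) + mdeg k (∀ i : Fin (K + 1), Y i.succ) ≤ M + (K + 1) * M :=
          add_le_add h3 h1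
      _ = (K + 1 + 1) * M := by ring

/-- the number of test algebras -/
def numTest (e n : ℕ) : ℕ := ((e + 2) * n + 1) ^ Fintype.card (PIdx (e + 1))

/-- the universal scheme is contained in a union of a few powers -/
theorem exists_subquotient (k : Type) [Field k] [IsAlgClosed k] (e n : ℕ) :
    ∃ (K : ℕ) (E : Fin (K + 1) → Type) (_ : ∀ l, CommRing (E l)) (_ : ∀ l, Algebra k (E l))
      (c : ∀ l, Module.Basis (Fin (e + 1)) k (E l)), (∀ l, IsFrame (c l)) ∧
      K + 1 ≤ numTest e n ∧ ∃ f : Univ k e n →ₐ[k] ∀ l, Pow k (E l) n, Function.Injective f := by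
  obtain ⟨K, E, iC, iA, c, hc, hK, htest⟩ := exists_test k e n
  refine ⟨K, E, iC, iA, c, hc, hK, AlgHom.pi fun l => uToPow (hc l) n, ?_⟩
  rw [injective_iff_map_eq_zero]
  intro y hy
  obtain ⟨F, rfl⟩ := Ideal.Quotient.mk_surjective y
  rw [Ideal.Quotient.eq_zero_iff_mem]
  refine htest F fun l => ?_
  exact congrFun hy l

instance finite_univ (n : ℕ) : Module.Finite k (Univ k e n) := by
  obtain ⟨K, E, _, _, c, hc, -, f, hf⟩ := exists_subquotient k e n
  have : ∀ l, Module.Finite k (E l) := fun l => finite_of_basis (c l)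
  exact Module.Finite.of_injective f.toLinearMap hf

theorem finrank_univ_le (n : ℕ) :
    Module.finrank k (Univ k e n) ≤ numTest e n * (e + 1) ^ n := by
  obtain ⟨K, E, _, _, c, hc, hK, f, hf⟩ := exists_subquotient k e n
  have : ∀ l, Module.Finite k (E l) := fun l => finite_of_basis (c l)
  have h1 := LinearMap.finrank_le_finrank_of_injective (f := f.toLinearMap) hf
  refine h1.trans ?_
  rw [Module.finrank_pi_fintype]
  simp only [finrank_Pow', finrank_of_basis (c _), Finset.sum_const, Finset.card_univ,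
    Fintype.card_fin, smul_eq_mul]
  exact Nat.mul_le_mul_right _ hK

instance nontrivial_univ (n : ℕ) : Nontrivial (Univ k e n) := by
  obtain ⟨E, _, _, c, hc⟩ := exists_framed k e
  have := hc.isLocalRing
  have := finite_of_basis c
  have := nontrivial_pow (k := k) E n
  exact (uToPow_surjective hc n).nontrivial

theorem le_finrank_univ (n : ℕ) : (e + 1) ^ n ≤ Module.finrank k (Univ k e n) := by
  obtain ⟨E, _, _, c, hc⟩ := exists_framed k e
  have := finite_of_basis c
  have h1 := LinearMap.finrank_le_finrank_of_surjective (f := (uToPow hc n).toLinearMap)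
    (uToPow_surjective hc n)
  rwa [finrank_Pow', finrank_of_basis c] at h1

theorem mdeg_pow_le_univ {A : Type} [CommRing A] [Algebra k A]
    {c : Module.Basis (Fin (e + 1)) k A} (hc : IsFrame c) (n : ℕ) :
    mdeg k (Pow k A n) ≤ mdeg k (Univ k e n) := by
  have := finite_of_basis c
  exact (IsSubquotient.of_surjective (uToPow hc n) (uToPow_surjective hc n)).mdeg_le

/-- **The universal scheme is not much harder than the hardest power.** -/
theorem exists_pow_ge (k : Type) [Field k] [IsAlgClosed k] (e n : ℕ) : ∃ (E : Type)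
    (_ : CommRing E) (_ : Algebra k E) (c : Module.Basis (Fin (e + 1)) k E), IsFrame c ∧
      mdeg k (Univ k e n) ≤ numTest e n * mdeg k (Pow k E n) := by
  obtain ⟨K, E, _, _, c, hc, hK, f, hf⟩ := exists_subquotient k e n
  have : ∀ l, Module.Finite k (E l) := fun l => finite_of_basis (c l)
  obtain ⟨l, -, hl⟩ := Finset.exists_max_image Finset.univ (fun l => mdeg k (Pow k (E l) n))
    ⟨0, Finset.mem_univ _⟩
  refine ⟨E l, _, _, c l, hc l, ?_⟩
  refine (IsSubquotient.of_injective f hf).mdeg_le.trans ?_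
  refine (mdeg_pi_le (mdeg k (Pow k (E l) n)) K (fun l => Pow k (E l) n)
    fun l' => hl l' (Finset.mem_univ _)).trans ?_
  exact Nat.mul_le_mul_right _ hK

theorem mdeg_univ_add (m n : ℕ) :
    mdeg k (Univ k e (m + n)) ≤ mdeg k (Univ k e m) * mdeg k (Univ k e n) := by
  obtain ⟨D, hD⟩ := exists_fam (k := k) (Univ k e m)
  obtain ⟨D', hD'⟩ := exists_fam (k := k) (Univ k e n)
  refine mdeg_le (Fam.join (mdeg_spec hD) (mdeg_spec hD')
    (uMap k e (Fin.castAdd n)) (uMap k e (Fin.natAdd m)) ?_)
  refine univ_top _ ?_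
  rintro ⟨i, j⟩
  refine Fin.addCases (fun i => ?_) (fun i => ?_) i
  · exact (le_sup_left : (uMap k e (Fin.castAdd n)).range ≤ _)
      ⟨Ideal.Quotient.mk _ (X (i, j)), uMap_X _ _⟩
  · exact (le_sup_right : (uMap k e (Fin.natAdd m)).range ≤ _)
      ⟨Ideal.Quotient.mk _ (X (i, j)), uMap_X _ _⟩

/-- the universal schemes are submultiplicative -/
theorem univ_mul_surjective (m n : ℕ) : Function.Surjective
    (Algebra.TensorProduct.productMap (uMap k e (Fin.castAdd n)) (uMap k e (Fin.natAdd m)) :
      Univ k e m ⊗[k] Univ k e n →ₐ[k] Univ k e (m + n)) := by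
  rw [← AlgHom.range_eq_top]
  refine univ_top _ ?_
  rintro ⟨i, j⟩
  refine Fin.addCases (fun i => ?_) (fun i => ?_) i
  · refine ⟨Ideal.Quotient.mk _ (X (i, j)) ⊗ₜ 1, ?_⟩
    change Algebra.TensorProduct.productMap _ _ _ = _
    rw [Algebra.TensorProduct.productMap_apply_tmul, map_one, mul_one, uMap_X]
  · refine ⟨1 ⊗ₜ Ideal.Quotient.mk _ (X (i, j)), ?_⟩
    change Algebra.TensorProduct.productMap _ _ _ = _
    rw [Algebra.TensorProduct.productMap_apply_tmul, map_one, one_mul, uMap_X]

theorem one_le_mdeg_univ (n : ℕ) : 1 ≤ mdeg k (Univ k e n) := by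
  refine le_trans ?_ (finrank_le_mdeg (k := k) (Univ k e n))
  exact Module.finrank_pos

end bounds

section growth

/-- the number of the universal sequence -/
noncomputable def useq (k : Type) [Field k] (e n : ℕ) : ℕ := mdeg k (Univ k e n)

theorem rate_le_irate {A : Type} [CommRing A] [Algebra k A]
    {c : Module.Basis (Fin (e + 1)) k A} (hc : IsFrame c) : rate k A ≤ irate (useq k e) := by
  have := hc.isLocalRing
  have := finite_of_basis c
  have h1 := one_le_rate (k := k) A
  refine le_irate _ _ (by linarith) fun n => ?_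
  refine (rate_pow_le A (n + 1)).trans ?_
  exact_mod_cast mdeg_pow_le_univ hc (n + 1)

theorem irate_le_of_rates {x : ℝ} (hx : 0 ≤ x) (h : RateLe k e x) : irate (useq k e) ≤ x := by
  refine limit_lemma _ _ (irate_nonneg _) hx (e + 2) 0 (Fintype.card (PIdx (e + 1))) fun n => ?_
  -- the growth rate of the universal scheme
  obtain ⟨K, E, _, _, c, hc, hK, f, hf⟩ := exists_subquotient k e (n + 1)
  have hfinE : ∀ l, Module.Finite k (E l) := fun l => finite_of_basis (c l)
  have hlocE : ∀ l, IsLocalRing (E l) := fun l => (hc l).isLocalRing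
  have hnt : ∀ l, Nontrivial (Pow k (E l) (n + 1)) := fun l => nontrivial_pow (E l) (n + 1)
  have h1 : rate k (Univ k e (n + 1)) ≤ ((K : ℝ) + 1) * x ^ (n + 1) := by
    refine (rate_le (IsSubquotient.of_injective f hf)).trans ?_
    refine rate_pi_le (x ^ (n + 1)) K (fun l => Pow k (E l) (n + 1)) fun l => ?_
    rw [rate_pow' (E l) (n + 1)]
    refine pow_le_pow_left₀ ?_ (h (E l) (c l) (hc l)) _
    linarith [one_le_rate (k := k) (E l)]
  have h2 : irate (useq k e) ^ (n + 1) ≤ rate k (Univ k e (n + 1)) := by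
    rw [rate_eq]
    refine le_irate _ _ (pow_nonneg (irate_nonneg _) _) fun N => ?_
    rw [← pow_mul]
    obtain ⟨M, hM⟩ : ∃ M, (n + 1) * (N + 1) = M + 1 :=
      ⟨(n + 1) * (N + 1) - 1, by have : 0 < (n + 1) * (N + 1) := by positivity
                                 omega⟩
    rw [hM]
    refine (irate_pow_le (useq k e) M).trans ?_
    rw [← hM]
    obtain ⟨D, hD⟩ := exists_fam (k := k) (Pow k (Univ k e (n + 1)) (N + 1))
    have h3 : mdeg k (Univ k e ((n + 1) * (N + 1))) ≤
        mdeg k (Pow k (Univ k e (n + 1)) (N + 1)) := by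
      refine mdeg_le ((mdeg_spec hD).of_pow
        (fun i => uMap k e fun a : Fin (n + 1) => finProdFinEquiv (a, i)) fun S hS => ?_)
      refine univ_top _ ?_
      rintro ⟨i, j⟩
      obtain ⟨⟨a, b⟩, rfl⟩ := finProdFinEquiv.surjective i
      have h4 := hS b (Ideal.Quotient.mk _ (X (a, j)))
      rwa [uMap_X] at h4
    exact_mod_cast h3
  refine h2.trans (h1.trans ?_)
  have h5 : ((K : ℝ) + 1) ≤ (((e + 2) * (n + 1) + 1 : ℕ) : ℝ) ^ Fintype.card (PIdx (e + 1)) := by
    have h6 : ((K + 1 : ℕ) : ℝ) ≤ ((numTest e (n + 1) : ℕ) : ℝ) := by exact_mod_cast hK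
    unfold numTest at h6
    push_cast at h6 ⊢
    exact h6
  rw [mul_comm]
  refine mul_le_mul_of_nonneg_left ?_ (by positivity)
  refine h5.trans ?_
  push_cast
  have h7 : (0 : ℝ) ≤ ((e : ℝ) + 2) * (n + 1) := by positivity
  have h8 : (0 : ℝ) ≤ (((e : ℝ) + 2) * (n + 1) + 1) ^ Fintype.card (PIdx (e + 1)) := by
    positivity
  nlinarith

/-- submultiplicative sequences -/
theorem irate_tendsto (u : ℕ → ℕ) (h1 : ∀ n, 1 ≤ u n) (hs : ∀ m n, u (m + n) ≤ u m * u n) :
    Tendsto (fun n : ℕ => (u n : ℝ) ^ (1 / (n : ℝ))) atTop (𝓝 (irate u)) := by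
  rw [← tendsto_add_atTop_iff_nat 1]
  have hr1 : 1 ≤ irate u := le_irate u 1 zero_le_one fun n => by
    rw [one_pow]
    exact_mod_cast h1 (n + 1)
  refine tendsto_order.2 ⟨fun a ha => Eventually.of_forall fun n => lt_of_lt_of_le ha ?_,
    fun b hb => ?_⟩
  · have := irate_le u n
    push_cast
    exact this
  · obtain ⟨C, hC, hG⟩ := growth_submul u h1 hs ((b - irate u) / 2) (by linarith)
    have ht := Pool.Agent.TH671.SH.tendsto_root' 0 (C + 1) (by positivity)
      (irate u + (b - irate u) / 2) (by linarith)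
    have hb' : irate u + (b - irate u) / 2 < b := by linarith
    filter_upwards [ht.eventually_lt_const hb'] with n hn
    refine lt_of_le_of_lt ?_ hn
    push_cast
    refine Real.rpow_le_rpow (by positivity) ?_ (by positivity)
    rw [pow_zero, mul_one]
    refine (hG (n + 1)).trans ?_
    have : 0 ≤ (irate u + (b - irate u) / 2) ^ (n + 1) := by
      have : 0 ≤ irate u + (b - irate u) / 2 := by linarith
      positivity
    nlinarith

/-- the supremum of the growth rates -/
theorem irate_eq_sSup : irate (useq k e) = sSup (growthRates k (e + 1)) := by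
  obtain ⟨B, hB⟩ := rates_bounded e
  have hbdd : BddAbove (growthRates k (e + 1)) := ⟨B, fun x hx => by
    obtain ⟨E, _, _, c, hc, rfl⟩ := mem_growthRates.1 hx
    exact hB k E c hc⟩
  have hne : (growthRates k (e + 1)).Nonempty := by
    obtain ⟨E, _, _, c, hc⟩ := exists_framed k e
    exact ⟨_, mem_growthRates.2 ⟨E, _, _, c, hc, rfl⟩⟩
  have hle : RateLe k e (sSup (growthRates k (e + 1))) := fun E _ _ c hc =>
    le_csSup hbdd (mem_growthRates.2 ⟨E, _, _, c, hc, rfl⟩)
  refine le_antisymm (irate_le_of_rates ?_ hle) (csSup_le hne fun x hx => ?_)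
  · obtain ⟨x, hx⟩ := hne
    refine le_trans ?_ (le_csSup hbdd hx)
    obtain ⟨E, _, _, c, hc, rfl⟩ := mem_growthRates.1 hx
    have := hc.isLocalRing
    have := finite_of_basis c
    linarith [one_le_rate (k := k) E]
  · obtain ⟨E, _, _, c, hc, rfl⟩ := mem_growthRates.1 hx
    exact rate_le_irate hc

end growth

end Pool.Agent.Helper15K1.QC
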