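import Pool.Agent.Helper15K1.QC.Univ2

/-!
# The universal sequence of finite schemes: base change, the form of Q1
-/

set_option autoImplicit false
set_option linter.unusedSectionVars false

namespace Pool.Agent.Helper15K1.QC

open scoped TensorProduct Topology
open Pool.Agent.H826R3.SM Pool.Agent.TH671.DU Pool.Agent.N86.SQ Pool.Agent.N823
open MvPolynomial Filter

section basechange

variable {k : Type} [Field k] {e : ℕ}

/-- the coordinates of the values of a polynomial at the standard generators -/
theorem coord_aeval {A : Type} [CommRing A] [Algebra k A] (c : Module.Basis (Fin (e + 1)) k A)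
    (n : ℕ) (F : MvPolynomial (Fin n × Fin e) k) (J : Fin n → Fin (e + 1)) :
    (Basis.piTensorProduct (fun _ : Fin n => c)).repr (aeval (std c n) F) J =
      ∑ s ∈ F.support, coeff s F * ∏ i, gam c (fun j => s (i, j)) (J i) := by
  conv_lhs => rw [F.as_sum, map_sum, map_sum, Finsupp.finsetSum_apply]
  refine Finset.sum_congr rfl fun s _ => ?_
  have h2 : monomial s (coeff s F) = coeff s F • monomial s (1 : k) := by
    rw [smul_monomial, smul_eq_mul, mul_one]
  rw [h2, map_smul, map_smul, Finsupp.smul_apply, repr_monomial, smul_eq_mul]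

theorem aeval_eq_zero_iff {A : Type} [CommRing A] [Algebra k A]
    (c : Module.Basis (Fin (e + 1)) k A) (n : ℕ) (F : MvPolynomial (Fin n × Fin e) k) :
    aeval (std c n) F = 0 ↔ ∀ J : Fin n → Fin (e + 1),
      ∑ s ∈ F.support, coeff s F * ∏ i, gam c (fun j => s (i, j)) (J i) = 0 := by
  constructor
  · intro h J
    rw [← coord_aeval, h, map_zero, Finsupp.zero_apply]
  · intro h
    apply (Basis.piTensorProduct (fun _ : Fin n => c)).repr.injective
    rw [map_zero]
    ext J
    rw [Finsupp.zero_apply, coord_aeval]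
    exact h J

variable {K : Type} [Field K] [Algebra k K]

theorem coeff_lam {σ : Type} (f : K →ₗ[k] k) (Q : MvPolynomial σ K) (s : σ →₀ ℕ) :
    coeff s (lam f Q) = f (coeff s Q) := by
  classical
  rw [lam, coeff_sum]
  simp only [coeff_monomial]
  rw [Finset.sum_ite_eq']
  split_ifs with h
  · rfl
  · rw [notMem_support_iff.1 h, map_zero]

/-- a polynomial over the extension field in terms of polynomials over the ground field -/
theorem mem_map_of_lam {σ : Type} (I : Ideal (MvPolynomial σ k)) (Q : MvPolynomial σ K)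
    (h : ∀ f : K →ₗ[k] k, lam f Q ∈ I) : Q ∈ I.map (MvPolynomial.map (algebraMap k K)) := by
  classical
  let b := Module.Basis.ofVectorSpace k K
  let T := Q.support.biUnion fun m => (b.repr (coeff m Q)).support
  have h1 : Q = ∑ i ∈ T, C (b i) * MvPolynomial.map (algebraMap k K) (lam (b.coord i) Q) := by
    ext m
    rw [coeff_sum]
    by_cases hm : m ∈ Q.support
    · have hh : coeff m Q = ∑ i ∈ T, b.repr (coeff m Q) i • b i := by
        conv_lhs => rw [← b.linearCombination_repr (coeff m Q), Finsupp.linearCombination_apply]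
        refine Finsupp.sum_of_support_subset _ (fun i hi => ?_) _ fun i _ => zero_smul _ _
        exact Finset.mem_biUnion.2 ⟨m, hm, hi⟩
      conv_lhs => rw [hh]
      refine Finset.sum_congr rfl fun i _ => ?_
      rw [coeff_C_mul, coeff_map, coeff_lam, Module.Basis.coord_apply, Algebra.smul_def, mul_comm]
    · rw [notMem_support_iff.1 hm]
      symm
      refine Finset.sum_eq_zero fun i _ => ?_
      rw [coeff_C_mul, coeff_map, coeff_lam, notMem_support_iff.1 hm, map_zero, map_zero, mul_zero]
  rw [h1]
  exact Ideal.sum_mem _ fun i _ => Ideal.mul_mem_left _ _ (Ideal.mem_map_of_mem _ (h _))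

variable [IsAlgClosed k]

/-- **The universal schemes over an extension field** -/
theorem univIdeal_map [IsAlgClosed K] (n : ℕ) : univIdeal K e n =
    (univIdeal k e n).map (MvPolynomial.map (algebraMap k K)) := by
  classical
  refine le_antisymm ?_ ?_
  · intro Q hQ
    refine mem_map_of_lam _ Q fun f E _ _ c hc => ?_
    rw [aeval_eq_zero_iff]
    intro J
    have hcK : IsFrame (Algebra.TensorProduct.basis K c) := hc.map (comp_baseChange (S := K) c)
    have h1 := (aeval_eq_zero_iff _ _ _).1 (hQ _ _ hcK) J
    have h2 : ∀ s : Fin n × Fin e →₀ ℕ,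
        coeff s Q * ∏ i, gam (Algebra.TensorProduct.basis K c) (fun j => s (i, j)) (J i) =
          (∏ i, gam c (fun j => s (i, j)) (J i)) • coeff s Q := by
      intro s
      rw [Algebra.smul_def, map_prod, mul_comm]
      congr 1
      refine Finset.prod_congr rfl fun i _ => ?_
      exact (comp_baseChange (S := K) c).gam _ _
    simp only [h2] at h1
    have h3 := congrArg f h1
    rw [map_sum, map_zero] at h3
    have h4 : ∑ s ∈ Q.support, coeff s (lam f Q) * ∏ i, gam c (fun j => s (i, j)) (J i) = 0 := by
      rw [← h3]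
      refine Finset.sum_congr rfl fun s _ => ?_
      rw [coeff_lam, map_smul, smul_eq_mul, mul_comm]
    rw [← h4]
    refine Finset.sum_subset ?_ fun s _ hs => ?_
    · intro s hs
      rw [mem_support_iff, coeff_lam] at hs
      rw [mem_support_iff]
      intro h0
      rw [h0, map_zero] at hs
      exact hs rfl
    · rw [notMem_support_iff.1 hs, zero_mul]
  · rw [Ideal.map_le_iff_le_comap]
    intro F hF
    rw [Ideal.mem_comap]
    intro A _ _ c hc
    rw [aeval_eq_zero_iff]
    intro J
    obtain ⟨S, hFG, hS, -⟩ := exists_fg_sub (k := k) c ∅ Set.finite_empty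
    let b := latBasis S c hc.1 hS
    let x : S := ∑ s ∈ F.support, algebraMap k S (coeff s F) *
      ∏ i, gam b (fun j => s (i, j)) (J i)
    have hx0 : x = 0 := by
      by_contra hne
      obtain ⟨χ, hχ⟩ := exists_point S hFG x hne
      apply hχ
      have h1 := (aeval_eq_zero_iff _ _ _).1 (hF _ (bcBasis χ.toRingHom b)
        ((isFrame_lat hc.1 hS hc).map (comp_bc χ.toRingHom _))) J
      rw [← h1, map_sum]
      refine Finset.sum_congr rfl fun s _ => ?_
      rw [map_mul, χ.commutes, map_prod]
      congr 1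
      refine Finset.prod_congr rfl fun i _ => ?_
      exact ((comp_bc χ.toRingHom b).gam _ _).symm
    have h2 : (x : K) = ∑ s ∈ F.support, algebraMap k K (coeff s F) *
        ∏ i, gam c (fun j => s (i, j)) (J i) := by
      change S.val x = _
      rw [map_sum]
      refine Finset.sum_congr rfl fun s _ => ?_
      rw [map_mul, map_prod]
      congr 1
      refine Finset.prod_congr rfl fun i _ => ?_
      exact ((comp_lat hc.1 hS).gam _ _).symm
    have h3 : (x : K) = 0 := by
      rw [hx0]
      rfl
    rw [← h3, h2]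
    have hinj : Function.Injective (algebraMap k K) := (algebraMap k K).injective
    rw [support_map_of_injective _ hinj]
    refine Finset.sum_congr rfl fun s _ => ?_
    rw [coeff_map]

end basechange

section ratio

variable {k : Type} [Field k] [IsAlgClosed k] {e : ℕ}

theorem le_of_poly {y m C : ℝ} (j : ℕ) (hC : 0 < C) (hm : 0 ≤ m) (hy : 0 ≤ y)
    (h : ∀ n : ℕ, y ^ (n + 1) ≤ C * ((n : ℝ) + 1) ^ j * m ^ (n + 1)) : y ≤ m := by
  have ht := Pool.Agent.TH671.SH.tendsto_root' j C hC m hm
  refine ge_of_tendsto' ht fun n => ?_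
  have h1 := Real.rpow_le_rpow (pow_nonneg hy _) (h n)
    (show (0 : ℝ) ≤ 1 / ((n : ℝ) + 1) by positivity)
  refine le_trans (le_of_eq ?_) h1
  rw [← Real.rpow_natCast, ← Real.rpow_mul hy]
  push_cast
  rw [mul_one_div, div_self (by positivity), Real.rpow_one]

theorem defect_univ_le (n : ℕ) : defect k (Univ k e n) ≤ mdeg k (Univ k e n) := by
  have := fadd k (Univ k e n)
  omega

theorem mdeg_univ_zero (n : ℕ) : mdeg k (Univ k 0 n) ≤ 1 := by
  refine mdeg_le (fam_self.of_surjective (Algebra.ofId k (Univ k 0 n)) ?_)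
  intro y
  obtain ⟨F, rfl⟩ := Ideal.Quotient.mk_surjective y
  refine ⟨coeff 0 F, ?_⟩
  have h1 : F = C (coeff 0 F) := MvPolynomial.eq_C_of_isEmpty F
  conv_rhs => rw [h1]
  rfl

/-- **Q1 for all local schemes of degree `e + 1` in terms of the universal sequence.** -/
theorem rateLe_iff_ratio : RateLe k e ((e + 1 : ℕ) : ℝ) ↔ ∀ ε : ℝ, 0 < ε →
    Tendsto (fun n : ℕ => (defect k (Univ k e n) : ℝ) /
      (Module.finrank k (Univ k e n) : ℝ) ^ (1 + ε)) atTop (𝓝 0) := by
  have hlow : ∀ n : ℕ, (((e + 1 : ℕ) : ℝ)) ^ n ≤ Module.finrank k (Univ k e n) := fun n => by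
    exact_mod_cast le_finrank_univ (k := k) (e := e) n
  constructor
  · intro h ε hε
    rcases Nat.eq_zero_or_pos e with rfl | he
    · have h1 : ∀ n, defect k (Univ k 0 n) = 0 := by
        intro n
        have h2 := mdeg_univ_zero (k := k) n
        have h3 := fadd k (Univ k 0 n)
        have h4 : 0 < Module.finrank k (Univ k 0 n) := Module.finrank_pos
        omega
      simp only [h1, Nat.cast_zero, zero_div]
      exact tendsto_const_nhds
    set d : ℝ := ((e + 1 : ℕ) : ℝ) with hd
    have hd1 : 1 < d := by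
      rw [hd]
      exact_mod_cast (by omega : 1 < e + 1)
    have hlt : d < d ^ (1 + ε) := by
      conv_lhs => rw [← Real.rpow_one d]
      exact Real.rpow_lt_rpow_of_exponent_lt hd1 (by linarith)
    have hir : irate (useq k e) ≤ d := irate_le_of_rates (by linarith) h
    obtain ⟨C, hC, hG⟩ := growth_submul (useq k e) one_le_mdeg_univ mdeg_univ_add
      ((d ^ (1 + ε) - d) / 2) (by linarith)
    set x : ℝ := d + (d ^ (1 + ε) - d) / 2 with hx
    have hx0 : 0 < x := by linarith
    have hxlt : x < d ^ (1 + ε) := by linarith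
    have hir0 := irate_nonneg (useq k e)
    have hlim : Tendsto (fun n : ℕ => C * (x / d ^ (1 + ε)) ^ n) atTop (𝓝 0) := by
      have := (tendsto_pow_atTop_nhds_zero_of_lt_one (r := x / d ^ (1 + ε)) (by positivity)
        ((div_lt_one (by positivity)).2 hxlt)).const_mul C
      rwa [mul_zero] at this
    refine squeeze_zero (fun n => by positivity) (fun n => ?_) hlim
    have h2 : (defect k (Univ k e n) : ℝ) ≤ C * x ^ n := by
      have h3 : (defect k (Univ k e n) : ℝ) ≤ mdeg k (Univ k e n) := by
        exact_mod_cast defect_univ_le n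
      refine h3.trans ((hG n).trans ?_)
      refine mul_le_mul_of_nonneg_left ?_ hC
      exact pow_le_pow_left₀ (by linarith) (by linarith) n
    have h4 : (d ^ (1 + ε)) ^ n ≤ (Module.finrank k (Univ k e n) : ℝ) ^ (1 + ε) := by
      rw [← Real.rpow_natCast, ← Real.rpow_mul (by linarith), mul_comm, Real.rpow_mul (by linarith),
        Real.rpow_natCast]
      exact Real.rpow_le_rpow (by positivity) (hlow n) (by linarith)
    rw [div_pow, ← mul_div_assoc]
    exact div_le_div₀ (by positivity) h2 (by positivity) h4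
  · intro h
    have key : ∀ ε : ℝ, 0 < ε → ε ≤ 1 → irate (useq k e) ≤ ((e + 1 : ℕ) : ℝ) ^ (1 + ε) := by
      intro ε hε hε1
      obtain ⟨B, hB⟩ := (h ε hε).bddAbove_range
      set d : ℝ := ((e + 1 : ℕ) : ℝ) with hd
      have hd1 : 1 ≤ d := by
        rw [hd]
        exact_mod_cast (by omega : 1 ≤ e + 1)
      set c := Fintype.card (PIdx (e + 1)) with hc
      refine le_of_poly (C := (1 + max B 0) * (((e : ℝ) + 3) ^ c) ^ 2) (c * 2) (by positivity)
        (by positivity) (irate_nonneg _) fun n => ?_
      refine (irate_pow_le (useq k e) n).trans ?_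
      set f : ℝ := (Module.finrank k (Univ k e (n + 1)) : ℝ) with hf
      have hf1 : 1 ≤ f := by
        have : 0 < Module.finrank k (Univ k e (n + 1)) := Module.finrank_pos
        rw [hf]
        exact_mod_cast this
      have h1 : (defect k (Univ k e (n + 1)) : ℝ) ≤ max B 0 * f ^ (1 + ε) := by
        have h2 : (defect k (Univ k e (n + 1)) : ℝ) / f ^ (1 + ε) ≤ B := hB ⟨n + 1, rfl⟩
        rw [div_le_iff₀ (by positivity)] at h2
        exact h2.trans (mul_le_mul_of_nonneg_right (le_max_left _ _) (by positivity))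
      have h2 : (useq k e (n + 1) : ℝ) ≤ (1 + max B 0) * f ^ (1 + ε) := by
        have h3 : ((useq k e (n + 1) : ℕ) : ℝ) = f + defect k (Univ k e (n + 1)) := by
          unfold useq
          rw [← fadd k (Univ k e (n + 1))]
          push_cast
          rfl
        rw [h3, add_mul, one_mul]
        refine add_le_add ?_ h1
        conv_lhs => rw [← Real.rpow_one f]
        exact Real.rpow_le_rpow_of_exponent_le hf1 (by linarith)
      refine h2.trans ?_
      rw [mul_assoc, mul_assoc]
      refine mul_le_mul_of_nonneg_left ?_ (by positivity)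
      -- the degree
      have h3 : f ≤ (((e : ℝ) + 3) * (n + 1)) ^ c * d ^ (n + 1) := by
        have h4 : f ≤ ((numTest e (n + 1) * (e + 1) ^ (n + 1) : ℕ) : ℝ) := by
          rw [hf]
          exact_mod_cast finrank_univ_le (k := k) (e := e) (n + 1)
        refine h4.trans ?_
        unfold numTest
        push_cast
        rw [hd]
        push_cast
        refine mul_le_mul_of_nonneg_right ?_ (by positivity)
        refine pow_le_pow_left₀ (by positivity) ?_ _
        have : (0 : ℝ) ≤ n := Nat.cast_nonneg _
        nlinarith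
      have h4 : (1 : ℝ) ≤ (((e : ℝ) + 3) * (n + 1)) ^ c := by
        refine one_le_pow₀ ?_
        have h5 : (0 : ℝ) ≤ n := Nat.cast_nonneg _
        have h6 : (0 : ℝ) ≤ e := Nat.cast_nonneg _
        nlinarith
      calc f ^ (1 + ε) ≤ ((((e : ℝ) + 3) * (n + 1)) ^ c * d ^ (n + 1)) ^ (1 + ε) :=
            Real.rpow_le_rpow (by positivity) h3 (by linarith)
        _ = ((((e : ℝ) + 3) * (n + 1)) ^ c) ^ (1 + ε) * (d ^ (n + 1)) ^ (1 + ε) :=
            Real.mul_rpow (by positivity) (by positivity)
        _ ≤ ((((e : ℝ) + 3) * (n + 1)) ^ c) ^ (2 : ℝ) * (d ^ (n + 1)) ^ (1 + ε) := by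
            refine mul_le_mul_of_nonneg_right ?_ (by positivity)
            exact Real.rpow_le_rpow_of_exponent_le h4 (by linarith)
        _ = (((e : ℝ) + 3) ^ c) ^ 2 * (((n : ℝ) + 1) ^ (c * 2) * (d ^ (1 + ε)) ^ (n + 1)) := by
            have h7 : (d ^ (n + 1)) ^ (1 + ε) = (d ^ (1 + ε)) ^ (n + 1) := by
              rw [← Real.rpow_natCast, ← Real.rpow_mul (by linarith), mul_comm,
                Real.rpow_mul (by linarith), Real.rpow_natCast]
            rw [h7, Real.rpow_two, mul_pow, mul_pow, pow_mul]
            ring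
    have hle : irate (useq k e) ≤ ((e + 1 : ℕ) : ℝ) := by
      have ht : Tendsto (fun n : ℕ => ((e + 1 : ℕ) : ℝ) ^ (1 + 1 / ((n : ℝ) + 1))) atTop
          (𝓝 (((e + 1 : ℕ) : ℝ) ^ (1 + (0 : ℝ)))) := by
        have h1 : Tendsto (fun n : ℕ => 1 + 1 / ((n : ℝ) + 1)) atTop (𝓝 (1 + 0)) :=
          tendsto_const_nhds.add tendsto_one_div_add_atTop_nhds_zero_nat
        exact (Real.continuousAt_const_rpow (by positivity)).tendsto.comp h1
      rw [add_zero, Real.rpow_one] at ht
      refine ge_of_tendsto' ht fun n => key _ (by positivity) ?_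
      rw [div_le_one (by positivity)]
      have : (0 : ℝ) ≤ n := Nat.cast_nonneg _
      linarith
    intro E _ _ c hc
    exact (rate_le_irate hc).trans hle

end ratio

end Pool.Agent.Helper15K1.QC
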